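import Pool.Agent.Work.MP_e7996b_gt.CH.Defs

/-!
# CH/Arc (size S-M): a nondegenerate continuum with a continuous injective real function is an arc

PROOF.  The restriction `f' : ↥Y → ℝ` is continuous and injective, `↥Y` compact: a closed embedding, so `↥Y ≃ₜ range f'`.  `range f' = f '' Y` is compact, connected, not a single point: it is `Set.Icc a b` with `a < b` (`a`, `b` the least and the greatest element; order connected).  `Set.Icc a b ≃ₜ unitInterval` (`iccHomeoI` in Mathlib: `iccHomeoI a b (h : a < b) : Set.Icc a b ≃ₜ Set.Icc 0 1`).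
-/

set_option autoImplicit false
set_option linter.unusedSectionVars false

namespace Pool.Agent.Work.MP_e7996b_gt.CH

open Set Topology Filter TN

theorem arc_of_inj {X : Type*} [MetricSpace X] {Y : Set X} (hY : IsCont Y) (hnt : Y.Nontrivial) {f : X → ℝ}
    (hf : ContinuousOn f Y) (hinj : InjOn f Y) : Nonempty (Y ≃ₜ unitInterval) := by
  haveI : CompactSpace Y := isCompact_iff_compactSpace.1 hY.1
  have hc : Continuous (Y.restrict f) := hf.restrict
  have hi : Function.Injective (Y.restrict f) := Set.injOn_iff_injective.1 hinj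
  have he : IsEmbedding (Y.restrict f) := (hc.isClosedEmbedding hi).isEmbedding
  have hr : range (Y.restrict f) = f '' Y := Set.range_restrict f Y
  have h1 : f '' Y = Icc (sInf (f '' Y)) (sSup (f '' Y)) :=
    eq_Icc_of_connected_compact (hY.2.image f hf) (hY.1.image_of_continuousOn hf)
  have hlt : sInf (f '' Y) < sSup (f '' Y) := by
    obtain ⟨x, hx, y, hy, hxy⟩ := hnt
    have hfx : f x ∈ Icc (sInf (f '' Y)) (sSup (f '' Y)) := by
      rw [← h1]
      exact ⟨x, hx, rfl⟩
    have hfy : f y ∈ Icc (sInf (f '' Y)) (sSup (f '' Y)) := by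
      rw [← h1]
      exact ⟨y, hy, rfl⟩
    have hne : f x ≠ f y := fun h => hxy (hinj hx hy h)
    rcases lt_or_gt_of_ne hne with h | h
    · exact lt_of_le_of_lt hfx.1 (lt_of_lt_of_le h hfy.2)
    · exact lt_of_le_of_lt hfy.1 (lt_of_lt_of_le h hfx.2)
  exact ⟨(he.toHomeomorph.trans (Homeomorph.setCongr (hr.trans h1))).trans
    (iccHomeoI (sInf (f '' Y)) (sSup (f '' Y)) hlt)⟩

end Pool.Agent.Work.MP_e7996b_gt.CH
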