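import Pool.Agent.Work.MP_e7996b_gt.CH.Defs

/-!
# CH/Btw (size M): a subcontinuum between two levels

PROOF.  `Y' = Y ∩ {y | h x0 ≤ h y ≤ h x1}`, compact.  `E0 = Y' ∩ h⁻¹{h x0}`, `E1 = Y' ∩ h⁻¹{h x1}`.  If no closed connected `Q ⊆ Y'` meets both then `split` gives `Y' = Y0 ∪ Y1`, disjoint closed, `E0 ⊆ Y0`, `E1 ⊆ Y1`.  Then `Y = (Y0 ∪ (Y ∩ {h ≤ h x0})) ∪ (Y1 ∪ (Y ∩ {h x1 ≤ h}))`, two closed nonempty sets (they contain `x0`, `x1`).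
They are disjoint: `Y0 ∩ {h x1 ≤ h}` is contained in `E1 ⊆ Y1` (as `h ≤ h x1` on `Y'`), similarly `Y1 ∩ {h ≤ h x0} ⊆ E0 ⊆ Y0`, and `{h ≤ h x0} ∩ {h x1 ≤ h}` is empty if `h x0 < h x1`.  This contradicts connectedness of `Y`.
-/

set_option autoImplicit false
set_option linter.unusedSectionVars false

namespace Pool.Agent.Work.MP_e7996b_gt.CH

open Set Topology Filter TN

theorem exists_between {X : Type*} [MetricSpace X] {Y : Set X} (hY : IsCont Y) {h : X → ℝ} (hh : Continuous h)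
    {x0 x1 : X} (h0 : x0 ∈ Y) (h1 : x1 ∈ Y) (hlt : h x0 < h x1) :
    ∃ K ⊆ Y, IsCont K ∧ (∀ y ∈ K, h x0 ≤ h y ∧ h y ≤ h x1) ∧ (∃ a0 ∈ K, h a0 = h x0) ∧ ∃ a1 ∈ K, h a1 = h x1 := by
  by_contra hcon
  have hYc : IsClosed Y := hY.1.isClosed
  obtain ⟨Y', hY'⟩ : ∃ Y', Y' = Y ∩ {y | h x0 ≤ h y ∧ h y ≤ h x1} := ⟨_, rfl⟩
  obtain ⟨E0, hE0⟩ : ∃ E0, E0 = Y' ∩ {y | h y = h x0} := ⟨_, rfl⟩
  obtain ⟨E1, hE1⟩ : ∃ E1, E1 = Y' ∩ {y | h y = h x1} := ⟨_, rfl⟩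
  have mY' : ∀ y, y ∈ Y' ↔ y ∈ Y ∧ h x0 ≤ h y ∧ h y ≤ h x1 := by
    intro y
    rw [hY']
    exact Iff.rfl
  have mE0 : ∀ y, y ∈ E0 ↔ y ∈ Y' ∧ h y = h x0 := by
    intro y
    rw [hE0]
    exact Iff.rfl
  have mE1 : ∀ y, y ∈ E1 ↔ y ∈ Y' ∧ h y = h x1 := by
    intro y
    rw [hE1]
    exact Iff.rfl
  have hc1 : IsClosed {y | h x0 ≤ h y ∧ h y ≤ h x1} :=
    (isClosed_le continuous_const hh).inter (isClosed_le hh continuous_const)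
  have hY'c : IsCompact Y' := by
    rw [hY']
    exact hY.1.inter_right hc1
  have hE0c : IsClosed E0 := by
    rw [hE0]
    exact hY'c.isClosed.inter (isClosed_eq hh continuous_const)
  have hE1c : IsClosed E1 := by
    rw [hE1]
    exact hY'c.isClosed.inter (isClosed_eq hh continuous_const)
  obtain ⟨Y0, Y1, c0, c1, hd, hun, s0, s1⟩ := split hY'c hE0c hE1c
    (fun y hy => ((mE0 y).1 hy).1) (fun y hy => ((mE1 y).1 hy).1) (by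
      rintro Q hQ hQc hQk ⟨a0, ha0, ha0'⟩ ⟨a1, ha1, ha1'⟩
      exact hcon ⟨Q, fun y hy => ((mY' y).1 (hQ hy)).1, ⟨hY'c.of_isClosed_subset hQc hQ, hQk⟩,
        fun y hy => ((mY' y).1 (hQ hy)).2, ⟨a0, ha0, ((mE0 _).1 ha0').2⟩,
        ⟨a1, ha1, ((mE1 _).1 ha1').2⟩⟩)
  have hF0 : IsClosed (Y0 ∪ Y ∩ {y | h y ≤ h x0}) :=
    c0.union (hYc.inter (isClosed_le hh continuous_const))
  have hF1 : IsClosed (Y1 ∪ Y ∩ {y | h x1 ≤ h y}) :=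
    c1.union (hYc.inter (isClosed_le continuous_const hh))
  have hcov : Y ⊆ (Y0 ∪ Y ∩ {y | h y ≤ h x0}) ∪ (Y1 ∪ Y ∩ {y | h x1 ≤ h y}) := by
    intro y hy
    rcases le_total (h y) (h x0) with h2 | h2
    · exact Or.inl (Or.inr ⟨hy, h2⟩)
    · rcases le_total (h x1) (h y) with h3 | h3
      · exact Or.inr (Or.inr ⟨hy, h3⟩)
      · have h4 : y ∈ Y0 ∪ Y1 := by
          rw [hun]
          exact (mY' y).2 ⟨hy, h2, h3⟩
        rcases h4 with h5 | h5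
        · exact Or.inl (Or.inl h5)
        · exact Or.inr (Or.inl h5)
  have hpre := isPreconnected_closed_iff.1 hY.2.isPreconnected _ _ hF0 hF1 hcov
    ⟨x0, h0, Or.inr ⟨h0, le_refl (h x0)⟩⟩ ⟨x1, h1, Or.inr ⟨h1, le_refl (h x1)⟩⟩
  obtain ⟨z, hz, hz0, hz1⟩ := hpre
  have hin0 : z ∈ Y0 → z ∈ Y' := fun h2 => by
    rw [← hun]
    exact Or.inl h2
  have hin1 : z ∈ Y1 → z ∈ Y' := fun h2 => by
    rw [← hun]
    exact Or.inr h2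
  rcases hz0 with h2 | ⟨-, h2⟩
  · rcases hz1 with h3 | ⟨-, h3⟩
    · exact Set.disjoint_left.1 hd h2 h3
    · have h4 := (mY' z).1 (hin0 h2)
      have h5 : h x1 ≤ h z := h3
      exact Set.disjoint_left.1 hd h2 (s1 ((mE1 z).2 ⟨hin0 h2, le_antisymm h4.2.2 h5⟩))
  · have h2' : h z ≤ h x0 := h2
    rcases hz1 with h3 | ⟨-, h3⟩
    · have h4 := (mY' z).1 (hin1 h3)
      exact Set.disjoint_left.1 hd (s0 ((mE0 z).2 ⟨hin1 h3, le_antisymm h2' h4.2.1⟩)) h3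
    · have h5 : h x1 ≤ h z := h3
      linarith

end Pool.Agent.Work.MP_e7996b_gt.CH
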