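import Pool.Agent.Work.MP_e7996b_gt.CH.IrrEx
import Pool.Agent.Work.MP_e7996b_gt.CH.Btw

/-!
# CH/Block (size M): four consecutive points of a tight sequence

PROOF.  `h x0 < h x1`, `h x1 < h x2`, `h x2 < h x3`: if `h x0 = h x1` then `|g x0 - g x1| ≤ η1` by `hfib`, but `g x1 - g x0 ≥ q - p > η1`; the same for the others (`g x3 ≥ q`).
`exists_between` for `x0`, `x2`: a continuum `A' ⊆ Y` with `h x0 ≤ h ≤ h x2`, points `a0`, `a1` with `h a0 = h x0`, `h a1 = h x2`; `exists_irr` gives `A ⊆ A'` with `Irr A a0 a1`.  In the same way `B ⊆ Y` with `Irr B b0 b1`, `h b0 = h x1`, `h b1 = h x3`, `h x1 ≤ h ≤ h x3` on `B`.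
By `hfib`: `g a0 ≤ g x0 + η1`, `g a1 ≤ g x2 + η1`, `g b0 ≥ g x1 - η1`, `g b1 ≥ g x3 - η1`.  `A` is connected and `h` takes on `A` the values `h x0 < h x1 < h x2` (intermediate value): some `z ∈ A` has `h z = h x1`, so `g z ≥ g x1 - η1 ≥ q - η1`, and `g a0 ≤ p + η1 ≤ q - η1`: some `w ∈ A` has `g w = q - η1`.
Similarly some `z' ∈ B` has `h z' = h x2`, `g z' ≤ p + η1`, `g b0 ≥ q - η1`: some `w' ∈ B` has `g w' = p + η1`.  `hfar`: `ε ≤ dist w w'`.  `g w - g w' = q - p - 2 η1 > η`.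
Apply `hT` to `A`, `B`, `g`, `η`: near condition from `hnear`; for `y ∈ B`: `g x2 ≤ g y` (`tight2`), so `g a0 ≤ g x0 + η1 ≤ g x2 + η2 + η1 ≤ g y + η`, `g a1 ≤ g x2 + η1 ≤ g y + η`; for `x ∈ A`: `g x ≤ g x1` (`tight1`), `g x1 ≤ g b0 + η1`, `g x1 ≤ g x3 + η2 ≤ g b1 + η1 + η2`.
-/

set_option autoImplicit false
set_option linter.unusedSectionVars false

namespace Pool.Agent.Work.MP_e7996b_gt.CH

open Set Topology Filter TN

/-- one half of the block: a continuum between two levels, irreducible between points on the two levels -/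
private theorem half {X : Type*} [MetricSpace X] {Y : Set X} (hY : IsCont Y) {h : X → ℝ} (hh : Continuous h)
    {x0 x1 : X} (h0 : x0 ∈ Y) (h1 : x1 ∈ Y) (hlt : h x0 < h x1) :
    ∃ A ⊆ Y, ∃ a0 a1 : X, Irr A a0 a1 ∧ h a0 = h x0 ∧ h a1 = h x1 ∧ ∀ y ∈ A, h x0 ≤ h y ∧ h y ≤ h x1 := by
  obtain ⟨K, hKY, hK, hb, ⟨a0, ha0, e0⟩, a1, ha1, e1⟩ := exists_between hY hh h0 h1 hlt
  obtain ⟨A, hAK, hA⟩ := exists_irr hK ha0 ha1
  exact ⟨A, hAK.trans hKY, a0, a1, hA, e0, e1, fun y hy => hb y (hAK hy)⟩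

theorem block {X : Type*} [MetricSpace X] [CompactSpace X] {ε δ : ℝ} (hT : Trap X ε δ) {Y : Set X}
    (hY : IsCont Y) {g h : X → ℝ} (hg : Continuous g) (hh : Continuous h) {η η1 η2 p q : ℝ} (hη : 0 < η)
    (hη1 : 0 < η1) (hη2 : 0 ≤ η2) (hsum : η1 + η2 ≤ η) (hpq : p + η + 2 * η1 < q)
    (hnear : ∀ x ∈ Y, ∀ y ∈ Y, |g x - g y| ≤ η → dist x y < δ)
    (hfib : ∀ x ∈ Y, ∀ y ∈ Y, h x = h y → |g x - g y| ≤ η1)
    (hfar : ∀ x ∈ Y, ∀ y ∈ Y, g x = q - η1 → g y = p + η1 → ε ≤ dist x y) {x0 x1 x2 x3 : X}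
    (h0 : x0 ∈ Y) (h1 : x1 ∈ Y) (h2 : x2 ∈ Y) (h3 : x3 ∈ Y) (h01 : h x0 ≤ h x1) (h12 : h x1 ≤ h x2)
    (h23 : h x2 ≤ h x3) (g0 : g x0 ≤ p) (g1 : q ≤ g x1) (g2 : g x2 ≤ p) (g3 : q ≤ g x3)
    (tight1 : ∀ y ∈ Y, h x0 ≤ h y → h y ≤ h x2 → g y ≤ g x1)
    (tight2 : ∀ y ∈ Y, h x1 ≤ h y → h y ≤ h x3 → g x2 ≤ g y) (c1 : g x1 ≤ g x3 + η2)
    (c2 : g x0 ≤ g x2 + η2) : False := by
  have l01 : h x0 < h x1 := by
    rcases h01.lt_or_eq with hlt | heq
    · exact hlt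
    · exfalso
      have := hfib x0 h0 x1 h1 heq
      rw [abs_le] at this
      linarith [this.1]
  have l12 : h x1 < h x2 := by
    rcases h12.lt_or_eq with hlt | heq
    · exact hlt
    · exfalso
      have := hfib x1 h1 x2 h2 heq
      rw [abs_le] at this
      linarith [this.2]
  have l23 : h x2 < h x3 := by
    rcases h23.lt_or_eq with hlt | heq
    · exact hlt
    · exfalso
      have := hfib x2 h2 x3 h3 heq
      rw [abs_le] at this
      linarith [this.1]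
  obtain ⟨A, hAY, a0, a1, hA, ea0, ea1, hAb⟩ := half hY hh h0 h2 (l01.trans l12)
  obtain ⟨B, hBY, b0, b1, hB, eb0, eb1, hBb⟩ := half hY hh h1 h3 (l12.trans l23)
  have ga0 := abs_le.1 (hfib a0 (hAY hA.left) x0 h0 ea0)
  have ga1 := abs_le.1 (hfib a1 (hAY hA.right) x2 h2 ea1)
  have gb0 := abs_le.1 (hfib b0 (hBY hB.left) x1 h1 eb0)
  have gb1 := abs_le.1 (hfib b1 (hBY hB.right) x3 h3 eb1)
  obtain ⟨z, hz, hzh⟩ : h x1 ∈ h '' A := by
    have := hA.cont.2.isPreconnected.intermediate_value hA.left hA.right hh.continuousOn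
    exact this ⟨by rw [ea0]; exact h01, by rw [ea1]; exact h12⟩
  have gz := abs_le.1 (hfib z (hAY hz) x1 h1 hzh)
  obtain ⟨w, hw, hwg⟩ : q - η1 ∈ g '' A := by
    have := hA.cont.2.isPreconnected.intermediate_value hA.left hz hg.continuousOn
    exact this ⟨by linarith [ga0.2], by linarith [gz.1]⟩
  obtain ⟨z', hz', hzh'⟩ : h x2 ∈ h '' B := by
    have := hB.cont.2.isPreconnected.intermediate_value hB.left hB.right hh.continuousOn
    exact this ⟨by rw [eb0]; exact h12, by rw [eb1]; exact h23⟩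
  have gz' := abs_le.1 (hfib z' (hBY hz') x2 h2 hzh')
  obtain ⟨w', hw', hwg'⟩ : p + η1 ∈ g '' B := by
    have := hB.cont.2.isPreconnected.intermediate_value hz' hB.left hg.continuousOn
    exact this ⟨by linarith [gz'.2], by linarith [gb0.1]⟩
  have tA : ∀ x ∈ A, g x ≤ g x1 := fun x hx => tight1 x (hAY hx) (hAb x hx).1 (hAb x hx).2
  have tB : ∀ y ∈ B, g x2 ≤ g y := fun y hy => tight2 y (hBY hy) (hBb y hy).1 (hBb y hy).2
  refine hT A B a0 a1 b0 b1 w w' g η hη.le hA hB hw hw' (hfar w (hAY hw) w' (hBY hw') hwg hwg') hg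
    (fun x hx y hy => hnear x (hAY hx) y (hBY hy)) ?_ ?_ ?_ ?_ ?_
  · rw [hwg, hwg']
    linarith
  · intro y hy
    linarith [tB y hy, ga0.2]
  · intro y hy
    linarith [tB y hy, ga1.2]
  · intro x hx
    linarith [tA x hx, gb0.1]
  · intro x hx
    linarith [tA x hx, gb1.1]

end Pool.Agent.Work.MP_e7996b_gt.CH
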