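import Pool.Agent.Work.MP_e7996b_gt.CH.Defs

/-!
# CH/Bump (size M): boundary bumping

PROOF.  `Y' = Y ∩ closedBall x0 r`, compact, `z ∈ Y'`; `C = connectedComponentIn Y' z`.  Suppose no point of `C` has distance `r` from `x0`.  `split` with `E0 = {z}`, `E1 = Y' ∩ {y | dist y x0 = r}`: a closed connected `Q ⊆ Y'` containing `z` is contained in `C`, so does not meet `E1`.
So `Y' = Y0 ∪ Y1`, disjoint closed, `z ∈ Y0`, `E1 ⊆ Y1`.  Then `Y = Y0 ∪ (Y1 ∪ (Y ∩ {y | r ≤ dist y x0}))`, two closed nonempty sets (`z`, resp. the point of `hex`), disjoint because a point of `Y0` with `r ≤ dist` has distance `= r`, so lies in `E1 ⊆ Y1`.  Contradiction to the connectedness of `Y`.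
-/

set_option autoImplicit false
set_option linter.unusedSectionVars false

namespace Pool.Agent.Work.MP_e7996b_gt.CH

open Set Topology Filter TN

theorem bump {X : Type*} [MetricSpace X] {Y : Set X} (hY : IsCont Y) {x0 z : X} {r : ℝ} (hz : z ∈ Y)
    (hzr : dist z x0 ≤ r) (hex : ∃ y ∈ Y, r < dist y x0) :
    ∃ y ∈ connectedComponentIn (Y ∩ Metric.closedBall x0 r) z, dist y x0 = r := by
  by_contra hcon
  push Not at hcon
  have hYc : IsClosed Y := hY.1.isClosed
  have hzY' : z ∈ Y ∩ Metric.closedBall x0 r := ⟨hz, Metric.mem_closedBall.2 hzr⟩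
  have hsph : IsClosed {y : X | dist y x0 = r} :=
    isClosed_eq (continuous_id.dist continuous_const) continuous_const
  have hout : IsClosed {y : X | r ≤ dist y x0} :=
    isClosed_le continuous_const (continuous_id.dist continuous_const)
  obtain ⟨Y0, Y1, c0, c1, hd, hu, s0, s1⟩ := split (Y := Y ∩ Metric.closedBall x0 r) (E0 := {z})
    (E1 := (Y ∩ Metric.closedBall x0 r) ∩ {y : X | dist y x0 = r})
    (hY.1.inter_right Metric.isClosed_closedBall) isClosed_singleton
    ((hYc.inter Metric.isClosed_closedBall).inter hsph)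
    (Set.singleton_subset_iff.2 hzY') Set.inter_subset_left (by
      intro Q hQ _ hQc hQ0 hQ1
      obtain ⟨a, haQ, haz⟩ := hQ0
      rw [Set.mem_singleton_iff] at haz
      subst haz
      obtain ⟨y, hyQ, _, hyr⟩ := hQ1
      exact hcon y (hQc.isPreconnected.subset_connectedComponentIn haQ hQ hyQ) hyr)
  obtain ⟨w, hwY, hwr⟩ := hex
  have hcover : Y ⊆ Y0 ∪ (Y1 ∪ (Y ∩ {y : X | r ≤ dist y x0})) := by
    intro y hy
    rcases le_total (dist y x0) r with h | h
    · have : y ∈ Y0 ∪ Y1 := by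
        rw [hu]
        exact ⟨hy, Metric.mem_closedBall.2 h⟩
      rcases this with h' | h'
      · exact Or.inl h'
      · exact Or.inr (Or.inl h')
    · exact Or.inr (Or.inr ⟨hy, h⟩)
  obtain ⟨p, hpY, hp0, hp1⟩ := (isPreconnected_closed_iff.1 hY.2.isPreconnected) Y0
    (Y1 ∪ (Y ∩ {y : X | r ≤ dist y x0})) c0 (c1.union (hYc.inter hout)) hcover
    ⟨z, hz, s0 (Set.mem_singleton z)⟩ ⟨w, hwY, Or.inr ⟨hwY, hwr.le⟩⟩
  have hpY' : p ∈ Y ∩ Metric.closedBall x0 r := by
    rw [← hu]
    exact Or.inl hp0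
  have hp1' : p ∈ Y1 := by
    rcases hp1 with h | h
    · exact h
    · exact s1 ⟨hpY', le_antisymm (Metric.mem_closedBall.1 hpY'.2) h.2⟩
  exact (Set.disjoint_left.1 hd) hp0 hp1'

end Pool.Agent.Work.MP_e7996b_gt.CH
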