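import Pool.Agent.Work.MP_e7996b_gt.CH.Defs

/-!
# CH/Comb (size S-M): a combinatorial lemma

PROOF.  Take `N` with `N ≥ 8 * (R + 1) / η + 8` (or any larger bound; `exists_nat_gt`).  Suppose the conclusion fails for `G` with `|G i| ≤ R` for `i ≤ N` (so `R ≥ 0`).  Put `d j = G (j + 2) - G j` for `j + 2 ≤ N`.  For every `i` with `1 ≤ i`, `i + 2 ≤ N`: `d i < -η` or `d (i - 1) > η` (the negations of `G i ≤ G (i+2) + η`, `G (i+1) ≤ G (i-1) + η`).
So: if `d j ≤ η` then `d (j + 1) < -η ≤ η`, and by induction `d k < -η` for all `k > j` (`k + 2 ≤ N`).  Let `M = N / 2`.  Either `d j > η` for all `j ≤ M - 2`, then `G (2 k) ≥ G 0 + k η` for `2 k ≤ M - 2 + 2`, contradicting `|G| ≤ R` for `k η > 2 R`;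
or `d j ≤ η` for some `j ≤ M - 2`, then `d k < -η` for all `k` with `M ≤ k`, `k + 2 ≤ N`, and `G (M + 2 k) ≤ G M - k η` as long as `M + 2 k ≤ N`, again a contradiction.
-/

set_option autoImplicit false
set_option linter.unusedSectionVars false

namespace Pool.Agent.Work.MP_e7996b_gt.CH

open Set Topology Filter TN

theorem comb {R η : ℝ} (hη : 0 < η) :
    ∃ N : ℕ, ∀ G : ℕ → ℝ, (∀ i ≤ N, |G i| ≤ R) →
      ∃ i, 1 ≤ i ∧ i + 2 ≤ N ∧ G i ≤ G (i + 2) + η ∧ G (i + 1) ≤ G (i - 1) + η := by
  obtain ⟨m, hm⟩ := exists_nat_gt (2 * R / η)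
  rw [div_lt_iff₀ hη] at hm
  refine ⟨4 * m + 8, fun G hG => ?_⟩
  by_contra hcon
  push Not at hcon
  have hup : ∀ i ≤ 4 * m + 8, G i ≤ R := fun i hi => (abs_le.1 (hG i hi)).2
  have hlo : ∀ i ≤ 4 * m + 8, -R ≤ G i := fun i hi => (abs_le.1 (hG i hi)).1
  by_cases hc : ∀ j ≤ 2 * m, G j + η < G (j + 2)
  · have h1 : ∀ k ≤ m, G 0 + k * η ≤ G (2 * k) := by
      intro k
      induction k with
      | zero => intro _; simp
      | succ k ih =>
        intro hk
        have h2 := ih (by omega)
        have h3 := hc (2 * k) (by omega)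
        have h4 : 2 * (k + 1) = 2 * k + 2 := by ring
        rw [h4]
        push_cast
        linarith
    have h2 := h1 m le_rfl
    have h3 := hup (2 * m) (by omega)
    have h4 := hlo 0 (by omega)
    linarith
  · push Not at hc
    obtain ⟨j, hj, hjd⟩ := hc
    have h1 : ∀ k, j + (k + 1) + 2 ≤ 4 * m + 8 → G (j + (k + 1) + 2) < G (j + (k + 1)) - η := by
      intro k
      induction k with
      | zero =>
        intro hk
        by_contra hne
        push Not at hne
        have h2 := hcon (j + 1) (by omega) (by omega) (by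
          have : j + (0 + 1) = j + 1 := rfl
          rw [this] at hne
          linarith)
        have h3 : j + 1 - 1 = j := by omega
        have h4 : j + 1 + 1 = j + 2 := by omega
        rw [h3, h4] at h2
        linarith
      | succ k ih =>
        intro hk
        have h5 := ih (by omega)
        by_contra hne
        push Not at hne
        have h2 := hcon (j + (k + 1 + 1)) (by omega) (by omega) (by linarith)
        have h3 : j + (k + 1 + 1) - 1 = j + (k + 1) := by omega
        have h4 : j + (k + 1 + 1) + 1 = j + (k + 1) + 2 := by omega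
        rw [h3, h4] at h2
        linarith
    have h2 : ∀ t, j + 1 + 2 * t ≤ 4 * m + 8 → G (j + 1 + 2 * t) ≤ G (j + 1) - t * η := by
      intro t
      induction t with
      | zero => intro _; simp
      | succ t ih =>
        intro ht
        have h3 := ih (by omega)
        have h4 := h1 (2 * t) (by omega)
        have e1 : j + (2 * t + 1) + 2 = j + 1 + 2 * (t + 1) := by ring
        have e2 : j + (2 * t + 1) = j + 1 + 2 * t := by ring
        rw [e1, e2] at h4
        push_cast
        linarith
    have h3 := h2 m (by omega)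
    have h4 := hup (j + 1) (by omega)
    have h5 := hlo (j + 1 + 2 * m) (by omega)
    linarith

end Pool.Agent.Work.MP_e7996b_gt.CH
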