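import Pool.Agent.Work.MP_e7996b_gt.TN.TypeN

/-!
# MP_e7996b_gt/CH, Defs (FIXED, do not change): subcontinua of one-dimensional pseudo-contractible continua

Board modchn (architect helper83).  Theorem: `X` one-dimensional pseudo-contractible continuum.  (1) Every chainable subcontinuum of `X` is an arc.  (2) Every indecomposable subcontinuum has positive surjective semispan.
Everything is in the namespace `Pool.Agent.Work.MP_e7996b_gt.CH`; `CovDimLeOne`, `HasLog`, `split`, `exists_ext`, `exp_one_const`, `PseudoContractible` are in `TN`.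
-/

set_option autoImplicit false
set_option linter.unusedSectionVars false

namespace Pool.Agent.Work.MP_e7996b_gt.CH

open Set Topology Filter TN

/-- a subcontinuum: a nonempty compact connected set -/
def IsCont {X : Type*} [TopologicalSpace X] (K : Set X) : Prop := IsCompact K ∧ IsConnected K

/-- the continuum `A` is irreducible between `a` and `b` -/
structure Irr {X : Type*} [TopologicalSpace X] (A : Set X) (a b : X) : Prop where
  cont : IsCont A
  left : a ∈ A
  right : b ∈ A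
  min : ∀ K ⊆ A, IsCont K → a ∈ K → b ∈ K → K = A

/-- chainable (arc-like): for every `ε > 0` there is a continuous real function on `Y` whose fibres have diameter
less than `ε` (any two points of a fibre have distance less than `ε`) -/
def Chainable {X : Type*} [MetricSpace X] (Y : Set X) : Prop :=
  ∀ ε > 0, ∃ g : C(Y, ℝ), ∀ x y : Y, g x = g y → dist x y < ε

/-- indecomposable continuum: not the union of two proper subcontinua -/
def Indecomposable {X : Type*} [TopologicalSpace X] (Y : Set X) : Prop :=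
  IsCont Y ∧ ∀ K L : Set X, IsCont K → IsCont L → K ∪ L = Y → K = Y ∨ L = Y

/-- every neighbourhood of `w` separates `b0` from `b1` in `X` -/
def Sep {X : Type*} [TopologicalSpace X] (w b0 b1 : X) : Prop :=
  ∀ U : Set X, IsOpen U → w ∈ U → ∃ κ : X → ℝ, Continuous κ ∧ (∀ x, x ∉ U → κ x = -1 ∨ κ x = 1) ∧
    κ b0 = -1 ∧ κ b1 = 1

/-- continuous nonvanishing functions on `B` have logarithms -/
def LogOn {X : Type*} [TopologicalSpace X] (B : Set X) : Prop :=
  ∀ φ : X → ℂ, ContinuousOn φ B → (∀ x ∈ B, φ x ≠ 0) →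
    ∃ g : X → ℂ, ContinuousOn g B ∧ ∀ x ∈ B, φ x = Complex.exp (g x)

/-- hereditary unicoherence -/
def Unic (X : Type*) [TopologicalSpace X] : Prop :=
  ∀ K L : Set X, IsCont K → IsCont L → (K ∩ L).Nonempty → IsConnected (K ∩ L)

/-- `M` contains one of any two points of `A` separated by `w` -/
def Exit {X : Type*} [TopologicalSpace X] (w : X) (A M : Set X) : Prop :=
  ∀ a0 ∈ A, ∀ a1 ∈ A, Sep w a0 a1 → a0 ∈ M ∨ a1 ∈ M

/-- the component of `(w, a)` in the fibre of `F` over `w` in `B × P` -/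
def Zc {X P : Type*} [TopologicalSpace X] [TopologicalSpace P] (F : X × P → X) (B : Set X) (w : X) (a : P) :
    Set (X × P) :=
  connectedComponentIn ((B ×ˢ (univ : Set P)) ∩ F ⁻¹' {w}) (w, a)

/-- uniform escape property for continua -/
def CEsc (X : Type*) [MetricSpace X] : Prop :=
  ∀ ε > 0, ∃ δ > 0, ∀ (A B : Set X) (w w' : X), IsCont A → IsCont B → w ∈ A → w' ∈ B → ε ≤ dist w w' →
    ∃ L : Set (X × X), IsCont L ∧ L ⊆ A ×ˢ B ∧ (w, w') ∈ L ∧ (∀ z ∈ L, δ ≤ dist z.1 z.2) ∧
      (Exit w A (Prod.fst '' L) ∨ Exit w' B (Prod.snd '' L))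

/-- no trapped pairs: `g w > g w' + η`, but the end points of `A` are (up to `η`) below `B` and `A` is (up to `η`)
below the end points of `B` -/
def Trap (X : Type*) [MetricSpace X] (ε δ : ℝ) : Prop :=
  ∀ (A B : Set X) (a0 a1 b0 b1 w w' : X) (g : X → ℝ) (η : ℝ), 0 ≤ η → Irr A a0 a1 → Irr B b0 b1 → w ∈ A → w' ∈ B →
    ε ≤ dist w w' → Continuous g → (∀ x ∈ A, ∀ y ∈ B, |g x - g y| ≤ η → dist x y < δ) → η < g w - g w' →
    (∀ y ∈ B, g a0 ≤ g y + η) → (∀ y ∈ B, g a1 ≤ g y + η) →
    (∀ x ∈ A, g x ≤ g b0 + η) → (∀ x ∈ A, g x ≤ g b1 + η) → False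

/-- `Y` contains no infinite sequence of pairwise disjoint subcontinua of diameter at least `e` -/
def Susl {X : Type*} [MetricSpace X] (Y : Set X) : Prop :=
  ∀ e > 0, ¬ ∃ K : ℕ → Set X, (∀ n, IsCont (K n) ∧ K n ⊆ Y) ∧ (∀ m n, m ≠ n → Disjoint (K m) (K n)) ∧
    ∀ n, ∃ u ∈ K n, ∃ v ∈ K n, e ≤ dist u v

/-- connected im kleinen at every point of `Y` -/
def LCk {X : Type*} [MetricSpace X] (Y : Set X) : Prop :=
  ∀ x ∈ Y, ∀ ε > 0, ∃ V ⊆ Y ∩ Metric.ball x ε, IsPreconnected V ∧ x ∈ V ∧ ∃ δ > 0, Y ∩ Metric.ball x δ ⊆ V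

/-- `x` and `y` are joined by a subcontinuum of `Y` missing `w` -/
def Jn {X : Type*} [TopologicalSpace X] (Y : Set X) (w x y : X) : Prop :=
  ∃ K ⊆ Y, IsCont K ∧ x ∈ K ∧ y ∈ K ∧ w ∉ K

/-- the points of `Y` in all subcontinua containing `y0` and `w` -/
def DD {X : Type*} [TopologicalSpace X] (Y : Set X) (y0 w : X) : Set X :=
  {z | ∀ K ⊆ Y, IsCont K → y0 ∈ K → w ∈ K → z ∈ K}

end Pool.Agent.Work.MP_e7996b_gt.CH
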