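import Pool.Agent.Work.MP_e7996b_gt.CH.Ext

/-!
# CH/Ends (size M): a chainable, connected im kleinen continuum is irreducible between two points

PROOF.  For `n : ℕ` let `g n` be the function of `exists_fine` with `ε = 1 / (n + 1)`; let `a n`, `b n ∈ Y` be a minimum and a maximum point of `g n` on `Y`.  A subsequence `φ` with `a (φ n) → y0`, `b (φ n) → y1` (`Y` compact), `y0, y1 ∈ Y`.
Let `K ⊆ Y` be a continuum containing `y0`, `y1`; claim: `infDist z K ≤ 2 ε` for all `z ∈ Y`, `ε > 0` (so `z ∈ K`, `K` closed, and `K = Y`).  `LCk` at `y0`, `y1` with `ε`: connected sets `V0`, `V1`.  Take `n` with `a (φ n) ∈ V0`, `b (φ n) ∈ V1`, `1 / (φ n + 1) < ε`.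
`K' = K ∪ V0 ∪ V1` is connected (`y0 ∈ K ∩ V0`, `y1 ∈ K ∩ V1`) and contains `a (φ n)`, `b (φ n)`; by the intermediate value theorem `g (φ n) z = g (φ n) k` for some `k ∈ K' ⊆ Y`, so `dist z k < ε`; and `k ∈ K` or `dist k y0 < ε` or `dist k y1 < ε`.
-/

set_option autoImplicit false
set_option linter.unusedSectionVars false

namespace Pool.Agent.Work.MP_e7996b_gt.CH

open Set Topology Filter TN

theorem exists_ends {X : Type*} [MetricSpace X] [CompactSpace X] {Y : Set X} (hY : IsCont Y)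
    (hch : Chainable Y) (hlc : LCk Y) : ∃ y0 y1, Irr Y y0 y1 := by
  have hYc : IsClosed Y := hY.1.isClosed
  have h1 : ∀ n : ℕ, ∃ g : X → ℝ, Continuous g ∧
      ∀ x ∈ Y, ∀ y ∈ Y, g x = g y → dist x y < 1 / ((n : ℝ) + 1) := fun n =>
    exists_fine hYc hch Nat.one_div_pos_of_nat
  choose g hg1 hg2 using h1
  have h2 : ∀ n, ∃ z : X × X, z ∈ Y ×ˢ Y ∧ (∀ y ∈ Y, g n z.1 ≤ g n y) ∧ ∀ y ∈ Y, g n y ≤ g n z.2 := by
    intro n
    obtain ⟨a, ha, ha'⟩ := hY.1.exists_isMinOn hY.2.1 (hg1 n).continuousOn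
    obtain ⟨b, hb, hb'⟩ := hY.1.exists_isMaxOn hY.2.1 (hg1 n).continuousOn
    exact ⟨(a, b), ⟨ha, hb⟩, fun y hy => ha' hy, fun y hy => hb' hy⟩
  choose z hz1 hz2 hz3 using h2
  obtain ⟨⟨y0, y1⟩, hy, φ, hφ, hlim⟩ := (hY.1.prod hY.1).tendsto_subseq hz1
  have l0 : Tendsto (fun n => (z (φ n)).1) atTop (𝓝 y0) :=
    (continuous_fst.tendsto (y0, y1)).comp hlim
  have l1 : Tendsto (fun n => (z (φ n)).2) atTop (𝓝 y1) :=
    (continuous_snd.tendsto (y0, y1)).comp hlim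
  refine ⟨y0, y1, ⟨hY, hy.1, hy.2, fun K hK1 hK2 hK3 hK4 => Subset.antisymm hK1 fun x hx => ?_⟩⟩
  rw [← hK2.1.isClosed.closure_eq, Metric.mem_closure_iff]
  intro ε hε
  obtain ⟨V0, a1, a2, a3, δ0, hδ0, a4⟩ := hlc y0 hy.1 (ε / 2) (half_pos hε)
  obtain ⟨V1, b1, b2, b3, δ1, hδ1, b4⟩ := hlc y1 hy.2 (ε / 2) (half_pos hε)
  have e0 : ∀ᶠ n in atTop, (z (φ n)).1 ∈ Metric.ball y0 δ0 := l0 (Metric.ball_mem_nhds y0 hδ0)
  have e1 : ∀ᶠ n in atTop, (z (φ n)).2 ∈ Metric.ball y1 δ1 := l1 (Metric.ball_mem_nhds y1 hδ1)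
  have e2 : ∀ᶠ n in atTop, 1 / ((φ n : ℝ) + 1) < ε / 2 := by
    have := (tendsto_one_div_add_atTop_nhds_zero_nat (𝕜 := ℝ)).comp hφ.tendsto_atTop
    exact this.eventually (gt_mem_nhds (half_pos hε))
  obtain ⟨n, n0, n1, n2⟩ := (e0.and (e1.and e2)).exists
  have c1 : IsPreconnected (K ∪ V0 ∪ V1) :=
    IsPreconnected.union y1 (Or.inl hK4) b3 (IsPreconnected.union y0 hK3 a3 hK2.2.2 a2) b2
  have c2 : (z (φ n)).1 ∈ K ∪ V0 ∪ V1 := Or.inl (Or.inr (a4 ⟨(hz1 (φ n)).1, n0⟩))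
  have c3 : (z (φ n)).2 ∈ K ∪ V0 ∪ V1 := Or.inr (b4 ⟨(hz1 (φ n)).2, n1⟩)
  obtain ⟨k, hk, hkx⟩ := c1.intermediate_value c2 c3 (hg1 (φ n)).continuousOn
    ⟨hz2 (φ n) x hx, hz3 (φ n) x hx⟩
  have hkY : k ∈ Y := by
    rcases hk with (hk | hk) | hk
    · exact hK1 hk
    · exact (a1 hk).1
    · exact (b1 hk).1
  have hd : dist x k < ε / 2 := (hg2 (φ n) x hx k hkY hkx.symm).trans n2
  rcases hk with (hk | hk) | hk
  · exact ⟨k, hk, by linarith⟩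
  · refine ⟨y0, hK3, ?_⟩
    have h3 := Metric.mem_ball.1 (a1 hk).2
    have h4 := dist_triangle x k y0
    linarith
  · refine ⟨y1, hK4, ?_⟩
    have h3 := Metric.mem_ball.1 (b1 hk).2
    have h4 := dist_triangle x k y1
    linarith

end Pool.Agent.Work.MP_e7996b_gt.CH
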