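import Pool.Agent.Work.MP_e7996b_gt.CH.Pair

/-!
# CH/Esc (size S-M): the uniform escape property for continua

PROOF.  `F` is continuous on the compact space `X × C`: uniform continuity (as in `escape` in TN/Escape: `∃ δ > 0, ∀ x y, dist x y < δ → ∀ c, dist (F (x, c)) (F (y, c)) < ε`, by currying).  `w ≠ w'` (`ε > 0`), so `pair` applies; for `z ∈ L` with `F (z.1, c) = w`, `F (z.2, c) = w'`: `dist z.1 z.2 < δ` would give `dist w w' < ε`.
-/

set_option autoImplicit false
set_option linter.unusedSectionVars false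

namespace Pool.Agent.Work.MP_e7996b_gt.CH

open Set Topology Filter TN

theorem cesc_of {X C : Type*} [MetricSpace X] [CompactSpace X] [TopologicalSpace C] [CompactSpace C] [T2Space C]
    [PreconnectedSpace C] {F : X × C → X} (hF : Continuous F) {a b : C} {p : X} (ha : ∀ x, F (x, a) = x)
    (hb : ∀ x, F (x, b) = p) : CEsc X := by
  intro ε hε
  obtain ⟨δ, hδ, huc⟩ : ∃ δ > 0, ∀ x y : X, dist x y < δ → ∀ c, dist (F (x, c)) (F (y, c)) < ε := by
    let G : C(X, C(C, X)) := ContinuousMap.curry ⟨F, hF⟩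
    have huc := CompactSpace.uniformContinuous_of_continuous G.continuous
    rw [Metric.uniformContinuous_iff] at huc
    obtain ⟨δ', hδ', h⟩ := huc ε hε
    refine ⟨δ', hδ', fun x y hxy c => lt_of_le_of_lt ?_ (h hxy)⟩
    exact ContinuousMap.dist_apply_le_dist (f := G x) (g := G y) c
  refine ⟨δ, hδ, fun A B w w' hA hB hw hw' hd => ?_⟩
  have hne : w ≠ w' := by
    rintro rfl
    rw [dist_self] at hd
    exact absurd hd (not_le.2 hε)
  obtain ⟨L, hL, hLsub, hLmem, hLF, hLE⟩ := pair hF ha hb hA hB hw hw' hne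
  refine ⟨L, hL, hLsub, hLmem, fun z hz => ?_, hLE⟩
  by_contra hlt
  rw [not_le] at hlt
  obtain ⟨c, h1, h2⟩ := hLF z hz
  have h3 := huc z.1 z.2 hlt c
  rw [h1, h2] at h3
  exact absurd hd (not_le.2 h3)

end Pool.Agent.Work.MP_e7996b_gt.CH
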