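import Pool.Agent.Work.MP_e7996b_gt.CH.Defs

/-!
# CH/Ext (size S): chainable sets, functions on the whole space, tolerance

PROOF of `exists_fine`.  `g : C(Y, ℝ)` from `Chainable`, `Y` closed: Tietze (`ContinuousMap.exists_restrict_eq`, see the use in `not_typeN` / `exists_ext`) gives an extension to `X`.
PROOF of `exists_tol`.  The set `{z ∈ Y ×ˢ Y | ε ≤ dist z.1 z.2}` is compact and `|g z.1 - g z.2| > 0` on it; `IsCompact.exists_forall_le'` gives `m > 0` with `m ≤ |g z.1 - g z.2|` there; `η = m / 2`.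
-/

set_option autoImplicit false
set_option linter.unusedSectionVars false

namespace Pool.Agent.Work.MP_e7996b_gt.CH

open Set Topology Filter TN

theorem exists_fine {X : Type*} [MetricSpace X] [CompactSpace X] {Y : Set X} (hY : IsClosed Y)
    (hch : Chainable Y) {ε : ℝ} (hε : 0 < ε) :
    ∃ g : X → ℝ, Continuous g ∧ ∀ x ∈ Y, ∀ y ∈ Y, g x = g y → dist x y < ε := by
  obtain ⟨g0, hg0⟩ := hch ε hε
  obtain ⟨g, hg⟩ := ContinuousMap.exists_restrict_eq hY g0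
  refine ⟨g, g.continuous, fun x hx y hy hxy => ?_⟩
  have e : ∀ (z : X) (hz : z ∈ Y), g0 ⟨z, hz⟩ = g z := by
    intro z hz
    rw [← hg]
    rfl
  have h1 := hg0 ⟨x, hx⟩ ⟨y, hy⟩ (by rw [e, e, hxy])
  exact h1

theorem exists_tol {X : Type*} [MetricSpace X] [CompactSpace X] {Y : Set X} (hY : IsClosed Y) {g : X → ℝ}
    (hg : Continuous g) {ε : ℝ} (hfib : ∀ x ∈ Y, ∀ y ∈ Y, g x = g y → dist x y < ε) :
    ∃ η > 0, ∀ x ∈ Y, ∀ y ∈ Y, |g x - g y| ≤ η → dist x y < ε := by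
  have hS : IsCompact {z : X × X | z ∈ Y ×ˢ Y ∧ ε ≤ dist z.1 z.2} := by
    apply IsClosed.isCompact
    exact (hY.prod hY).inter (isClosed_le continuous_const (continuous_fst.dist continuous_snd))
  rcases Set.eq_empty_or_nonempty {z : X × X | z ∈ Y ×ˢ Y ∧ ε ≤ dist z.1 z.2} with h0 | h0
  · refine ⟨1, one_pos, fun x hx y hy _ => ?_⟩
    by_contra hcon
    have h1 : (x, y) ∈ {z : X × X | z ∈ Y ×ˢ Y ∧ ε ≤ dist z.1 z.2} :=
      ⟨⟨hx, hy⟩, not_lt.1 hcon⟩
    rw [h0] at h1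
    exact h1
  · have hc : Continuous fun z : X × X => |g z.1 - g z.2| :=
      ((hg.comp continuous_fst).sub (hg.comp continuous_snd)).abs
    obtain ⟨z, hz, hmin⟩ := hS.exists_isMinOn h0 hc.continuousOn
    have hpos : 0 < |g z.1 - g z.2| := by
      rw [abs_pos, sub_ne_zero]
      intro h1
      exact absurd (hfib z.1 hz.1.1 z.2 hz.1.2 h1) (not_lt.2 hz.2)
    refine ⟨|g z.1 - g z.2| / 2, half_pos hpos, fun x hx y hy hxy => ?_⟩
    by_contra hcon
    have h1 : (x, y) ∈ {z : X × X | z ∈ Y ×ˢ Y ∧ ε ≤ dist z.1 z.2} :=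
      ⟨⟨hx, hy⟩, not_lt.1 hcon⟩
    have h2 : |g z.1 - g z.2| ≤ |g x - g y| := hmin h1
    linarith

end Pool.Agent.Work.MP_e7996b_gt.CH
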