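import Pool.Agent.Work.MP_e7996b_gt.CH.Defs

/-!
# CH/Order (size M): disjoint intervals can be ordered

PROOF.  Choose `c i ∈ K i` (`i ≤ N`; `IsConnected.nonempty`).  The numbers `h (c i)`, `i ≤ N`, are distinct.  Sort them: e.g. the finset `T = (range (N+1)).image (fun i => h (c i))` has `N + 1` elements, `T.orderEmbOfFin` is a strictly increasing enumeration, and `σ i` = the index with `h (c (σ i))` = its `i`-th element (`choose`); or induction on `N`.
For `i < j ≤ N`: `σ i ≠ σ j` (`h (c (σ i)) < h (c (σ j))`).  Let `x ∈ K (σ i)`, `y ∈ K (σ j)` with `h y ≤ h x`.  The images `h '' K (σ i)`, `h '' K (σ j)` are order connected (images of connected sets) and disjoint (`hd`).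
`I = h '' K (σ i)` contains `u = h (c (σ i))`, `x' = h x`; `J` contains `v = h (c (σ j)) > u` and `y' = h y ≤ x'`.  If `v ≤ x'` then `v ∈ [u, x'] ⊆ I`, contradiction.  So `x' < v`, and `y' ≤ x' < v` gives `x' ∈ [y', v] ⊆ J`, contradiction.
-/

set_option autoImplicit false
set_option linter.unusedSectionVars false

namespace Pool.Agent.Work.MP_e7996b_gt.CH

open Set Topology Filter TN

theorem order {X : Type*} [TopologicalSpace X] {N : ℕ} {K : ℕ → Set X} {h : X → ℝ} (hh : Continuous h)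
    (hK : ∀ i ≤ N, IsCont (K i))
    (hd : ∀ i ≤ N, ∀ j ≤ N, i ≠ j → ∀ x ∈ K i, ∀ y ∈ K j, h x ≠ h y) :
    ∃ σ : ℕ → ℕ, (∀ i ≤ N, σ i ≤ N) ∧ ∀ i j, i < j → j ≤ N → ∀ x ∈ K (σ i), ∀ y ∈ K (σ j), h x < h y := by
  classical
  have hne : Nonempty X := by
    obtain ⟨x, -⟩ := (hK 0 (Nat.zero_le _)).2.nonempty
    exact ⟨x⟩
  have hex : ∀ i, i ≤ N → ∃ x, x ∈ K i := fun i hi => (hK i hi).2.nonempty
  choose! c hc using hex
  have hinj : Set.InjOn (fun i => h (c i)) (Finset.range (N + 1) : Set ℕ) := by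
    intro i hi j hj hij
    rw [Finset.mem_coe, Finset.mem_range] at hi hj
    by_contra hne'
    exact hd i (by omega) j (by omega) hne' (c i) (hc i (by omega)) (c j) (hc j (by omega)) hij
  have hT : ((Finset.range (N + 1)).image (fun i => h (c i))).card = N + 1 := by
    rw [Finset.card_image_of_injOn hinj, Finset.card_range]
  have hmem : ∀ i : Fin (N + 1), ∃ j, j ≤ N ∧
      h (c j) = ((Finset.range (N + 1)).image (fun i => h (c i))).orderEmbOfFin hT i := by
    intro i
    obtain ⟨j, hj, hj2⟩ := Finset.mem_image.1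
      (Finset.orderEmbOfFin_mem ((Finset.range (N + 1)).image (fun i => h (c i))) hT i)
    rw [Finset.mem_range] at hj
    exact ⟨j, by omega, hj2⟩
  choose τ hτ1 hτ2 using hmem
  refine ⟨fun i => if hi : i < N + 1 then τ ⟨i, hi⟩ else 0, ?_, ?_⟩
  · intro i hi
    show (if hi : i < N + 1 then τ ⟨i, hi⟩ else 0) ≤ N
    rw [dif_pos (by omega)]
    exact hτ1 _
  · intro i j hij hjN x hx y hy
    have hx' : x ∈ K (τ ⟨i, by omega⟩) := by
      have h1 : (if hi : i < N + 1 then τ ⟨i, hi⟩ else 0) = τ ⟨i, by omega⟩ := dif_pos (by omega)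
      rw [← h1]
      exact hx
    have hy' : y ∈ K (τ ⟨j, by omega⟩) := by
      have h1 : (if hi : j < N + 1 then τ ⟨j, hi⟩ else 0) = τ ⟨j, by omega⟩ := dif_pos (by omega)
      rw [← h1]
      exact hy
    obtain ⟨a, ha⟩ : ∃ a, a = τ ⟨i, by omega⟩ := ⟨_, rfl⟩
    obtain ⟨b, hb⟩ : ∃ b, b = τ ⟨j, by omega⟩ := ⟨_, rfl⟩
    have huv : h (c a) < h (c b) := by
      rw [ha, hb, hτ2, hτ2]
      exact (Finset.orderEmbOfFin _ hT).strictMono (by
        rw [Fin.lt_def]
        exact hij)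
    rw [← ha] at hx'
    rw [← hb] at hy'
    have haN : a ≤ N := by rw [ha]; exact hτ1 _
    have hbN : b ≤ N := by rw [hb]; exact hτ1 _
    have hab : a ≠ b := fun e => by
      rw [e] at huv
      exact lt_irrefl _ huv
    have hI : (h '' K a).OrdConnected :=
      ((hK a haN).2.isPreconnected.image h hh.continuousOn).ordConnected
    have hJ : (h '' K b).OrdConnected :=
      ((hK b hbN).2.isPreconnected.image h hh.continuousOn).ordConnected
    by_contra hcon
    push Not at hcon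
    rcases le_or_gt (h (c b)) (h x) with h1 | h1
    · obtain ⟨z, hz, hz2⟩ := hI.out ⟨c a, hc a haN, rfl⟩ ⟨x, hx', rfl⟩
        (show h (c b) ∈ Icc (h (c a)) (h x) from ⟨huv.le, h1⟩)
      exact hd a haN b hbN hab z hz (c b) (hc b hbN) hz2
    · obtain ⟨z, hz, hz2⟩ := hJ.out ⟨y, hy', rfl⟩ ⟨c b, hc b hbN, rfl⟩
        (show h x ∈ Icc (h y) (h (c b)) from ⟨hcon, h1.le⟩)
      exact hd a haN b hbN hab x hx' z hz hz2.symm

end Pool.Agent.Work.MP_e7996b_gt.CH
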