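import Pool.Agent.Work.MP_e7996b_gt.CH.Defs

/-!
# CH/Tight (size M): tight alternating sequences

PROOF.  `S` = the set of all `x : ℕ → X` with `x i ∈ Y` for all `i`, `h (x i) ≤ h (x (i+1))` for `i < N`, `g (x i) ≤ p` for even `i ≤ N`, `q ≤ g (x i)` for odd `i ≤ N`: closed in the compact set `Set.univ.pi (fun _ => Y)` (`isCompact_univ_pi`), nonempty (`fun i => x0 (min i N)`).
The function `Φ x = ∑ i ∈ range (N + 1), (-1)^(i+1) * g (x i)` is continuous; let `x` be a maximum point on `S` (`IsCompact.exists_isMaxOn`).  Tightness: let `1 ≤ i < N`, `y ∈ Y`, `h (x (i-1)) ≤ h y ≤ h (x (i+1))`.  If `i` is odd and `g y > g (x i)` then `Function.update x i y ∈ S`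
(`g y > g (x i) ≥ q`, the monotonicity conditions at `i - 1`, `i` are the two assumptions on `h y`) and `Φ` is larger by `g y - g (x i) > 0`, contradiction.  If `i` is even and `g y < g (x i)` the same with `-(g y - g (x i)) > 0`.
-/

set_option autoImplicit false
set_option linter.unusedSectionVars false

namespace Pool.Agent.Work.MP_e7996b_gt.CH

open Set Topology Filter TN

theorem tight {X : Type*} [MetricSpace X] {Y : Set X} (hY : IsCompact Y) {g h : X → ℝ} (hg : Continuous g)
    (hh : Continuous h) {p q : ℝ} {N : ℕ} {x0 : ℕ → X} (hx : ∀ i ≤ N, x0 i ∈ Y)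
    (hm : ∀ i < N, h (x0 i) ≤ h (x0 (i + 1))) (he : ∀ i ≤ N, Even i → g (x0 i) ≤ p)
    (ho : ∀ i ≤ N, Odd i → q ≤ g (x0 i)) :
    ∃ x : ℕ → X, (∀ i ≤ N, x i ∈ Y) ∧ (∀ i < N, h (x i) ≤ h (x (i + 1))) ∧
      (∀ i ≤ N, Even i → g (x i) ≤ p) ∧ (∀ i ≤ N, Odd i → q ≤ g (x i)) ∧
      ∀ i, 1 ≤ i → i < N → ∀ y ∈ Y, h (x (i - 1)) ≤ h y → h y ≤ h (x (i + 1)) →
        (Odd i → g y ≤ g (x i)) ∧ (Even i → g (x i) ≤ g y) := by
  have hSc : IsCompact (Set.univ.pi (fun _ : ℕ => Y)) := isCompact_univ_pi fun _ => hY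
  obtain ⟨S, hS⟩ : ∃ S : Set (ℕ → X), S = {x | (∀ i, x i ∈ Y) ∧ (∀ i < N, h (x i) ≤ h (x (i + 1))) ∧
      (∀ i ≤ N, Even i → g (x i) ≤ p) ∧ (∀ i ≤ N, Odd i → q ≤ g (x i))} := ⟨_, rfl⟩
  have hmem : ∀ x, x ∈ S ↔ ((∀ i, x i ∈ Y) ∧ (∀ i < N, h (x i) ≤ h (x (i + 1))) ∧
      (∀ i ≤ N, Even i → g (x i) ≤ p) ∧ (∀ i ≤ N, Odd i → q ≤ g (x i))) := by
    intro x
    rw [hS]
    rfl
  have hScl : IsClosed S := by
    have e : S = (Set.univ.pi (fun _ : ℕ => Y)) ∩ ((⋂ i, ⋂ (_ : i < N), {x : ℕ → X | h (x i) ≤ h (x (i + 1))}) ∩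
        ((⋂ i, ⋂ (_ : i ≤ N), ⋂ (_ : Even i), {x : ℕ → X | g (x i) ≤ p}) ∩
        (⋂ i, ⋂ (_ : i ≤ N), ⋂ (_ : Odd i), {x : ℕ → X | q ≤ g (x i)}))) := by
      ext x
      rw [hmem]
      simp only [mem_inter_iff, mem_iInter, mem_setOf_eq, Set.mem_pi, mem_univ, true_imp_iff]
    rw [e]
    refine hSc.isClosed.inter (IsClosed.inter ?_ (IsClosed.inter ?_ ?_))
    · refine isClosed_iInter fun i => isClosed_iInter fun _ => ?_
      exact isClosed_le (hh.comp (continuous_apply i)) (hh.comp (continuous_apply (i + 1)))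
    · refine isClosed_iInter fun i => isClosed_iInter fun _ => isClosed_iInter fun _ => ?_
      exact isClosed_le (hg.comp (continuous_apply i)) continuous_const
    · refine isClosed_iInter fun i => isClosed_iInter fun _ => isClosed_iInter fun _ => ?_
      exact isClosed_le continuous_const (hg.comp (continuous_apply i))
  have hSsub : S ⊆ Set.univ.pi (fun _ : ℕ => Y) := fun x hx i _ => ((hmem x).1 hx).1 i
  have hScomp : IsCompact S := hSc.of_isClosed_subset hScl hSsub
  have hSne : S.Nonempty := by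
    refine ⟨fun i => x0 (min i N), (hmem _).2 ⟨fun i => hx _ (min_le_right _ _), ?_, ?_, ?_⟩⟩
    · intro i hi
      have e1 : min i N = i := min_eq_left hi.le
      have e2 : min (i + 1) N = i + 1 := min_eq_left hi
      show h (x0 (min i N)) ≤ h (x0 (min (i + 1) N))
      rw [e1, e2]
      exact hm i hi
    · intro i hi he'
      have e1 : min i N = i := min_eq_left hi
      show g (x0 (min i N)) ≤ p
      rw [e1]
      exact he i hi he'
    · intro i hi ho'
      have e1 : min i N = i := min_eq_left hi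
      show q ≤ g (x0 (min i N))
      rw [e1]
      exact ho i hi ho'
  obtain ⟨Φ, hΦ⟩ : ∃ Φ : (ℕ → X) → ℝ, Φ = fun x => ∑ i ∈ Finset.range (N + 1), (-1) ^ (i + 1) * g (x i) := ⟨_, rfl⟩
  have hΦc : Continuous Φ := by
    rw [hΦ]
    exact continuous_finset_sum _ fun i _ => continuous_const.mul (hg.comp (continuous_apply i))
  obtain ⟨x, hxS, hxmax⟩ := hScomp.exists_isMaxOn hSne hΦc.continuousOn
  have hx' := (hmem x).1 hxS
  have key : ∀ i ≤ N, ∀ y, Function.update x i y ∈ S → (-1) ^ (i + 1) * g y ≤ (-1) ^ (i + 1) * g (x i) := by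
    intro i hi y hy
    have h1 : Φ (Function.update x i y) ≤ Φ x := hxmax hy
    rw [hΦ] at h1
    have hi' : i ∈ Finset.range (N + 1) := Finset.mem_range.2 (Nat.lt_succ_of_le hi)
    change ∑ j ∈ Finset.range (N + 1), (-1 : ℝ) ^ (j + 1) * g (Function.update x i y j) ≤
      ∑ j ∈ Finset.range (N + 1), (-1 : ℝ) ^ (j + 1) * g (x j) at h1
    rw [← Finset.add_sum_erase _ _ hi', ← Finset.add_sum_erase _ _ hi'] at h1
    have h2 : ∑ j ∈ (Finset.range (N + 1)).erase i, (-1 : ℝ) ^ (j + 1) * g (Function.update x i y j) =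
        ∑ j ∈ (Finset.range (N + 1)).erase i, (-1 : ℝ) ^ (j + 1) * g (x j) := by
      refine Finset.sum_congr rfl fun j hj => ?_
      rw [Function.update_of_ne (Finset.ne_of_mem_erase hj)]
    rw [h2, Function.update_self] at h1
    linarith
  refine ⟨x, fun i _ => hx'.1 i, hx'.2.1, hx'.2.2.1, hx'.2.2.2, ?_⟩
  intro i h1i hiN y hy hl hr
  have hupd : (Even i → g y ≤ p) → (Odd i → q ≤ g y) → Function.update x i y ∈ S := by
    intro hev hod
    refine (hmem _).2 ⟨?_, ?_, ?_, ?_⟩
    · intro j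
      by_cases hji : j = i
      · rw [hji, Function.update_self]
        exact hy
      · rw [Function.update_of_ne hji]
        exact hx'.1 j
    · intro j hj
      by_cases hji : j = i
      · have hne : j + 1 ≠ i := by omega
        rw [Function.update_of_ne hne, hji, Function.update_self]
        exact hr
      · by_cases hji' : j + 1 = i
        · rw [Function.update_of_ne hji, hji', Function.update_self]
          have : j = i - 1 := by omega
          rw [this]
          exact hl
        · rw [Function.update_of_ne hji, Function.update_of_ne hji']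
          exact hx'.2.1 j hj
    · intro j hj hj'
      by_cases hji : j = i
      · subst hji
        rw [Function.update_self]
        exact hev hj'
      · rw [Function.update_of_ne hji]
        exact hx'.2.2.1 j hj hj'
    · intro j hj hj'
      by_cases hji : j = i
      · subst hji
        rw [Function.update_self]
        exact hod hj'
      · rw [Function.update_of_ne hji]
        exact hx'.2.2.2 j hj hj'
  constructor
  · intro hodd
    by_contra hlt
    rw [not_le] at hlt
    have h1 := key i hiN.le y (hupd (fun hev => absurd hev (Nat.not_even_iff_odd.2 hodd))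
      (fun _ => (hx'.2.2.2 i hiN.le hodd).trans hlt.le))
    have h2 : (-1 : ℝ) ^ (i + 1) = 1 := Even.neg_one_pow hodd.add_one
    rw [h2] at h1
    linarith
  · intro heven
    by_contra hlt
    rw [not_le] at hlt
    have h1 := key i hiN.le y (hupd (fun _ => hlt.le.trans (hx'.2.2.1 i hiN.le heven))
      (fun hod => absurd heven (Nat.not_even_iff_odd.2 hod)))
    have h2 : (-1 : ℝ) ^ (i + 1) = -1 := Odd.neg_one_pow heven.add_one
    rw [h2] at h1
    linarith

end Pool.Agent.Work.MP_e7996b_gt.CH
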