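import Pool.Agent.Work.MP_e7996b_gt.CH.Ext
import Pool.Agent.Work.MP_e7996b_gt.CH.Comb
import Pool.Agent.Work.MP_e7996b_gt.CH.Tight
import Pool.Agent.Work.MP_e7996b_gt.CH.Block
import Pool.Agent.Work.MP_e7996b_gt.CH.Order

/-!
# CH/Fin1 (size M): contradiction from many disjoint crossings

PROOF.  `η1 = min (η / 2) ((q - p - η) / 4) > 0`, `η2 = η / 2`: `η1 + η2 ≤ η`, `p + η + 2 η1 < q`.  `R` = a bound of `|g|` on the compact space; `N` from `comb` with `R`, `η2`.
`g` is uniformly continuous: `δ2 > 0` with `dist x y < δ2 → |g x - g y| ≤ η1`.  The continua `K 0, ..., K N` are compact and pairwise disjoint: there is `d > 0` with `d ≤ dist x y` for `x ∈ K i`, `y ∈ K j`, `i ≠ j ≤ N` (`IsCompact`/`Metric` separation of two disjoint compact sets, minimum over finitely many pairs).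
`h` from `exists_fine` with `ε = min d δ2`: `h x = h y` (`x, y ∈ Y`) implies `|g x - g y| ≤ η1`, and `h x ≠ h y` for `x ∈ K i`, `y ∈ K j`, `i ≠ j`.  `order` gives `σ`.  `x0 i = u (σ i)` for even `i`, `v (σ i)` for odd `i`.  `tight` gives `x`.
`G i = (-1)^(i+1) * g (x i)` (`= g (x i)` for odd, `- g (x i)` for even `i`), `comb` gives `i`, `1 ≤ i`, `i + 2 ≤ N`.
`i` odd: `block` with `x (i-1), x i, x (i+1), x (i+2)`: `c1` is `G i ≤ G (i+2) + η2`, `c2` is `G (i+1) ≤ G (i-1) + η2`; `tight1` is tightness at `i` (`i < N`), `tight2` at `i + 1` (`(i+1) - 1 = i`, `i + 1 < N`).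
`i` even: `block` with `-g`, `p' = -q`, `q' = -p` and the same four points (`x (i-1)` has `q ≤ g`, so `-g ≤ -q`); all hypotheses are symmetric under `g ↦ -g`.  `hfar` of `block`: `|g x - q| = η1 ≤ η`, `|g y - p| = η1 ≤ η` (with `dist_comm` for even `i`).
-/

set_option autoImplicit false
set_option linter.unusedSectionVars false

namespace Pool.Agent.Work.MP_e7996b_gt.CH

open Set Topology Filter TN

private theorem exists_lb {α : Type*} (s : Finset α) (D : α → ℝ) (hD : ∀ t ∈ s, 0 < D t) :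
    ∃ d > 0, ∀ t ∈ s, d ≤ D t := by
  classical
  induction s using Finset.induction_on with
  | empty => exact ⟨1, one_pos, fun t ht => absurd ht (Finset.notMem_empty t)⟩
  | insert a s ha ih =>
    obtain ⟨d, hd, h⟩ := ih (fun t ht => hD t (Finset.mem_insert_of_mem ht))
    refine ⟨min d (D a), lt_min hd (hD a (Finset.mem_insert_self a s)), fun t ht => ?_⟩
    rcases Finset.mem_insert.1 ht with h1 | h1
    · subst h1
      exact min_le_right _ _
    · exact (min_le_left _ _).trans (h t h1)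

private theorem sep_two {X : Type*} [MetricSpace X] {A B : Set X} (hA : IsCompact A) (hB : IsCompact B)
    (hd : Disjoint A B) : ∃ d > 0, ∀ x ∈ A, ∀ y ∈ B, d ≤ dist x y := by
  obtain ⟨d, hd0, hdis⟩ := hd.exists_thickenings hA hB.isClosed
  refine ⟨d, hd0, fun x hx y hy => ?_⟩
  by_contra hlt
  push Not at hlt
  have hy1 : y ∈ Metric.thickening d A := by
    rw [Metric.mem_thickening_iff]
    exact ⟨x, hx, by rwa [dist_comm]⟩
  exact Set.disjoint_left.1 hdis hy1 (Metric.self_subset_thickening hd0 B hy)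

private theorem sep_all {X : Type*} [MetricSpace X] {K : ℕ → Set X} (hK : ∀ n, IsCompact (K n))
    (hd : ∀ m n, m ≠ n → Disjoint (K m) (K n)) (N : ℕ) :
    ∃ d > 0, ∀ i ≤ N, ∀ j ≤ N, i ≠ j → ∀ x ∈ K i, ∀ y ∈ K j, d ≤ dist x y := by
  classical
  have h : ∀ t : ℕ × ℕ, ∃ d > 0, t.1 ≠ t.2 → ∀ x ∈ K t.1, ∀ y ∈ K t.2, d ≤ dist x y := by
    intro t
    by_cases ht : t.1 = t.2
    · exact ⟨1, one_pos, fun h => absurd ht h⟩
    · obtain ⟨d, hd0, h1⟩ := sep_two (hK t.1) (hK t.2) (hd t.1 t.2 ht)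
      exact ⟨d, hd0, fun _ => h1⟩
  choose D hD0 hD using h
  obtain ⟨d, hd0, h1⟩ := exists_lb (Finset.range (N + 1) ×ˢ Finset.range (N + 1)) D
    (fun t _ => hD0 t)
  refine ⟨d, hd0, fun i hi j hj hij x hx y hy => ?_⟩
  exact (h1 (i, j) (Finset.mem_product.2 ⟨Finset.mem_range.2 (by omega),
    Finset.mem_range.2 (by omega)⟩)).trans (hD (i, j) hij x hx y hy)

theorem fin1 {X : Type*} [MetricSpace X] [CompactSpace X] {ε δ : ℝ} (hT : Trap X ε δ) {Y : Set X}
    (hY : IsCont Y) (hch : Chainable Y) {g : X → ℝ} (hg : Continuous g) {η p q : ℝ} (hη : 0 < η)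
    (hpq : p + η < q) (hnear : ∀ x ∈ Y, ∀ y ∈ Y, |g x - g y| ≤ η → dist x y < δ)
    (hfar : ∀ x ∈ Y, ∀ y ∈ Y, |g x - q| ≤ η → |g y - p| ≤ η → ε ≤ dist x y) {K : ℕ → Set X}
    (hK : ∀ n, IsCont (K n) ∧ K n ⊆ Y) (hd : ∀ m n, m ≠ n → Disjoint (K m) (K n)) {u v : ℕ → X}
    (hu : ∀ n, u n ∈ K n) (hv : ∀ n, v n ∈ K n) (hgu : ∀ n, g (u n) ≤ p) (hgv : ∀ n, q ≤ g (v n)) :
    False := by
  classical
  set η1 : ℝ := min (η / 2) ((q - p - η) / 4) with hη1d
  set η2 : ℝ := η / 2 with hη2d
  have hη1 : 0 < η1 := lt_min (by linarith) (by linarith)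
  have hη1a : η1 ≤ η / 2 := min_le_left _ _
  have hη1b : η1 ≤ (q - p - η) / 4 := min_le_right _ _
  have hη2 : 0 ≤ η2 := by rw [hη2d]; linarith
  have hsum : η1 + η2 ≤ η := by rw [hη2d]; linarith
  have hpq' : p + η + 2 * η1 < q := by linarith
  obtain ⟨R, hR⟩ := (isCompact_univ.image hg).isBounded.exists_norm_le
  have hR' : ∀ x, |g x| ≤ R := fun x => hR (g x) ⟨x, Set.mem_univ x, rfl⟩
  obtain ⟨N, hN⟩ := comb (R := R) (η := η2) (by rw [hη2d]; linarith)
  obtain ⟨δ2, hδ2, huc⟩ := Metric.uniformContinuous_iff.1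
    (CompactSpace.uniformContinuous_of_continuous hg) η1 hη1
  obtain ⟨d, hd0, hsep⟩ := sep_all (fun n => (hK n).1.1) hd N
  obtain ⟨h, hh, hfine⟩ := exists_fine hY.1.isClosed hch (lt_min hd0 hδ2)
  have hfib : ∀ x ∈ Y, ∀ y ∈ Y, h x = h y → |g x - g y| ≤ η1 := by
    intro x hx y hy hxy
    have h1 := huc ((hfine x hx y hy hxy).trans_le (min_le_right _ _))
    rw [Real.dist_eq] at h1
    exact h1.le
  obtain ⟨σ, hσN, hσ⟩ := order (N := N) (K := K) hh (fun i _ => (hK i).1) (by
    intro i hi j hj hij x hx y hy hxy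
    have h1 := (hfine x ((hK i).2 hx) y ((hK j).2 hy) hxy).trans_le (min_le_left _ _)
    exact absurd (hsep i hi j hj hij x hx y hy) (not_le.2 h1))
  have hx0 : ∀ i, (if Even i then u (σ i) else v (σ i)) ∈ K (σ i) := by
    intro i
    split_ifs
    · exact hu _
    · exact hv _
  obtain ⟨x, hxY, hxm, hxe, hxo, hxt⟩ := tight (Y := Y) hY.1 hg hh (p := p) (q := q) (N := N)
    (x0 := fun i => if Even i then u (σ i) else v (σ i))
    (fun i _ => (hK (σ i)).2 (hx0 i))
    (fun i hi => (hσ i (i + 1) (Nat.lt_succ_self i) hi _ (hx0 i) _ (hx0 (i + 1))).le)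
    (fun i _ hi => by
      show g (if Even i then u (σ i) else v (σ i)) ≤ p
      rw [if_pos hi]
      exact hgu _)
    (fun i _ hi => by
      show q ≤ g (if Even i then u (σ i) else v (σ i))
      rw [if_neg (Nat.not_even_iff_odd.2 hi)]
      exact hgv _)
  obtain ⟨i, hi1, hi2, hc1, hc2⟩ := hN (fun i => if Even i then - g (x i) else g (x i)) (by
    intro i _
    show |if Even i then - g (x i) else g (x i)| ≤ R
    split_ifs
    · rw [abs_neg]
      exact hR' _
    · exact hR' _)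
  have m0 : h (x (i - 1)) ≤ h (x i) := by
    have := hxm (i - 1) (by omega)
    have e : i - 1 + 1 = i := by omega
    rwa [e] at this
  have m1 : h (x i) ≤ h (x (i + 1)) := hxm i (by omega)
  have m2 : h (x (i + 1)) ≤ h (x (i + 2)) := hxm (i + 1) (by omega)
  have t1 := hxt i hi1 (by omega)
  have t2 := hxt (i + 1) (by omega) (by omega)
  rw [Nat.add_sub_cancel] at t2
  rcases Nat.even_or_odd i with hev | hodd
  · have o0 : Odd (i - 1) := by
      obtain ⟨k, hk⟩ := hev
      exact ⟨k - 1, by omega⟩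
    have o1 : Odd (i + 1) := hev.add_one
    have e2 : Even (i + 2) := by
      obtain ⟨k, hk⟩ := hev
      exact ⟨k + 1, by omega⟩
    rw [if_pos hev, if_pos e2] at hc1
    rw [if_neg (Nat.not_even_iff_odd.2 o1), if_neg (Nat.not_even_iff_odd.2 o0)] at hc2
    refine block hT hY (g := fun x => - g x) (h := h) hg.neg hh (p := -q) (q := -p) hη hη1 hη2 hsum
      (by linarith) ?_ ?_ ?_ (hxY (i - 1) (by omega)) (hxY i (by omega)) (hxY (i + 1) (by omega))
      (hxY (i + 2) hi2) m0 m1 m2 ?_ ?_ ?_ ?_ ?_ ?_ ?_ ?_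
    · intro a ha b hb hab
      refine hnear a ha b hb ?_
      have e : - g a - - g b = -(g a - g b) := by ring
      rwa [e, abs_neg] at hab
    · intro a ha b hb hab
      have e : - g a - - g b = -(g a - g b) := by ring
      rw [e, abs_neg]
      exact hfib a ha b hb hab
    · intro a ha b hb hga hgb
      rw [dist_comm]
      refine hfar b hb a ha ?_ ?_
      · have e : g b - q = - η1 := by linarith
        rw [e, abs_neg, abs_of_pos hη1]
        linarith
      · have e : g a - p = η1 := by linarith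
        rw [e, abs_of_pos hη1]
        linarith
    · have := hxo (i - 1) (by omega) o0
      linarith
    · have := hxe i (by omega) hev
      linarith
    · have := hxo (i + 1) (by omega) o1
      linarith
    · have := hxe (i + 2) hi2 e2
      linarith
    · intro y hy h1 h2
      have := (t1 y hy h1 h2).2 hev
      linarith
    · intro y hy h1 h2
      have := (t2 y hy h1 h2).1 o1
      linarith
    · exact hc1
    · linarith
  · have e0 : Even (i - 1) := by
      obtain ⟨k, hk⟩ := hodd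
      exact ⟨k, by omega⟩
    have e1 : Even (i + 1) := hodd.add_one
    have o2 : Odd (i + 2) := by
      obtain ⟨k, hk⟩ := hodd
      exact ⟨k + 1, by omega⟩
    rw [if_neg (Nat.not_even_iff_odd.2 hodd), if_neg (Nat.not_even_iff_odd.2 o2)] at hc1
    rw [if_pos e1, if_pos e0] at hc2
    refine block hT hY (g := g) (h := h) hg hh (p := p) (q := q) hη hη1 hη2 hsum
      hpq' hnear hfib ?_ (hxY (i - 1) (by omega)) (hxY i (by omega)) (hxY (i + 1) (by omega))
      (hxY (i + 2) hi2) m0 m1 m2 (hxe (i - 1) (by omega) e0) (hxo i (by omega) hodd)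
      (hxe (i + 1) (by omega) e1) (hxo (i + 2) hi2 o2) ?_ ?_ hc1 (by linarith)
    · intro a ha b hb hga hgb
      refine hfar a ha b hb ?_ ?_
      · have e : g a - q = - η1 := by linarith
        rw [e, abs_neg, abs_of_pos hη1]
        linarith
      · have e : g b - p = η1 := by linarith
        rw [e, abs_of_pos hη1]
        linarith
    · intro y hy h1 h2
      exact (t1 y hy h1 h2).1 hodd
    · intro y hy h1 h2
      exact (t2 y hy h1 h2).2 e1

end Pool.Agent.Work.MP_e7996b_gt.CH
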