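import Pool.Agent.Work.MP_e7996b_gt.CH.Defs

/-!
# CH/Levels (size S-M): the two levels

PROOF.  `H = Y ∩ closedBall v ρ`, `Lo = Y ∩ closedBall u ρ`, compact.  The set `g '' H ∩ [g u, ∞)` is compact and contains `g v`; let `q` be its least element, `q = g h0`, `h0 ∈ H` (`IsCompact.exists_isLeast`).  The set `g '' Lo ∩ (-∞, q]` is compact and contains `g u` (`g u ≤ q`); let `p` be its greatest element, `p = g l0`, `l0 ∈ Lo`.
`p ≤ q`, and `|g h0 - g l0| > η` by `hsep`, so `p + η < q`.  If `l ∈ Lo` and `g l < q` then `g l ≤ p`.  If `x ∈ H` and `g u ≤ g x` then `q ≤ g x`.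
-/

set_option autoImplicit false
set_option linter.unusedSectionVars false

namespace Pool.Agent.Work.MP_e7996b_gt.CH

open Set Topology Filter TN

theorem levels {X : Type*} [MetricSpace X] [CompactSpace X] {Y : Set X} (hY : IsCompact Y) {g : X → ℝ}
    (hg : Continuous g) {u v : X} (hu : u ∈ Y) (hv : v ∈ Y) {ρ η : ℝ} (hρ : 0 ≤ ρ) (huv : g u ≤ g v)
    (hsep : ∀ x ∈ Y, ∀ y ∈ Y, dist x v ≤ ρ → dist y u ≤ ρ → η < |g x - g y|) :
    ∃ p q : ℝ, p + η < q ∧ g u ≤ p ∧ q ≤ g v ∧ (∃ l ∈ Y, dist l u ≤ ρ ∧ g l = p) ∧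
      (∃ x ∈ Y, dist x v ≤ ρ ∧ g x = q) ∧ (∀ l ∈ Y, dist l u ≤ ρ → g l < q → g l ≤ p) ∧
      ∀ x ∈ Y, dist x v ≤ ρ → g u ≤ g x → q ≤ g x := by
  have hdv : Continuous fun x : X => dist x v := continuous_id.dist continuous_const
  have hdu : Continuous fun x : X => dist x u := continuous_id.dist continuous_const
  have hSH : IsCompact (Y ∩ ({x | dist x v ≤ ρ} ∩ {x | g u ≤ g x})) :=
    hY.inter_right ((isClosed_le hdv continuous_const).inter (isClosed_le continuous_const hg))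
  obtain ⟨h0, ⟨h0Y, h0d, h0g⟩, h0min⟩ := hSH.exists_isMinOn
    ⟨v, hv, by show dist v v ≤ ρ; rw [dist_self]; exact hρ, huv⟩ hg.continuousOn
  have h0d' : dist h0 v ≤ ρ := h0d
  have h0g' : g u ≤ g h0 := h0g
  have hqm : ∀ x ∈ Y, dist x v ≤ ρ → g u ≤ g x → g h0 ≤ g x := fun x hx h1 h2 =>
    h0min ⟨hx, h1, h2⟩
  have hSL : IsCompact (Y ∩ ({x | dist x u ≤ ρ} ∩ {x | g x ≤ g h0})) :=
    hY.inter_right ((isClosed_le hdu continuous_const).inter (isClosed_le hg continuous_const))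
  obtain ⟨l0, ⟨l0Y, l0d, l0g⟩, l0max⟩ := hSL.exists_isMaxOn
    ⟨u, hu, by show dist u u ≤ ρ; rw [dist_self]; exact hρ, h0g'⟩ hg.continuousOn
  have l0d' : dist l0 u ≤ ρ := l0d
  have l0g' : g l0 ≤ g h0 := l0g
  have hpm : ∀ x ∈ Y, dist x u ≤ ρ → g x ≤ g h0 → g x ≤ g l0 := fun x hx h1 h2 =>
    l0max ⟨hx, h1, h2⟩
  have h1 := hsep h0 h0Y l0 l0Y h0d' l0d'
  rw [abs_of_nonneg (by linarith)] at h1
  refine ⟨g l0, g h0, by linarith, hpm u hu (by rw [dist_self]; exact hρ) h0g',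
    hqm v hv (by rw [dist_self]; exact hρ) huv, ⟨l0, l0Y, l0d', rfl⟩, ⟨h0, h0Y, h0d', rfl⟩,
    fun l hl h2 h3 => hpm l hl h2 h3.le, hqm⟩

end Pool.Agent.Work.MP_e7996b_gt.CH
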