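import Pool.Agent.Work.MP_e7996b_gt.CH.Fin1
import Pool.Agent.Work.MP_e7996b_gt.CH.Levels

/-!
# CH/Fin2 (size M): choice of the coarse function and of the levels

PROOF.  `Trap X (e / 2) δ`.  `exists_fine` and `exists_tol` with `min δ (e / 12)`: `g`, `η > 0` with `|g x - g y| ≤ η → dist x y < min δ (e / 12)` on `Y`.  `g u0 ≤ g v0` or `g v0 ≤ g u0`; in the second case exchange the roles of `u` and `v` (everything is symmetric), so prove a private lemma for the first case.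
`ρ = e / 6`.  For `x, y ∈ Y`, `dist x v0 ≤ ρ`, `dist y u0 ≤ ρ`: `dist x y ≥ e - 2 ρ = 2 e / 3 > e / 12`, so `|g x - g y| > η`.  `levels` gives `p`, `q`.  `hfar` of `fin1`: if `|g x - q| ≤ η` then `dist x h0 < e / 12` for the point `h0` with `g h0 = q`, `dist h0 v0 ≤ ρ`;
`|g y - p| ≤ η` gives `dist y l0 < e / 12`; `dist x y ≥ dist v0 u0 - 2 ρ - e / 6 ≥ e / 2`.
`g u0 ≤ p < q ≤ g v0`.  Eventually `dist (u n) u0 ≤ ρ` and `g (u n) < q` (`g (u n) → g u0 ≤ p < q`), so `g (u n) ≤ p`; eventually `dist (v n) v0 ≤ ρ` and `g u0 ≤ g (v n)` (`g (v n) → g v0 ≥ q > g u0`), so `q ≤ g (v n)`.  Let `n0` be such that all this holds for `n ≥ n0`; apply `fin1` to `K (n0 + n)`, `u (n0 + n)`, `v (n0 + n)`.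
-/

set_option autoImplicit false
set_option linter.unusedSectionVars false

namespace Pool.Agent.Work.MP_e7996b_gt.CH

open Set Topology Filter TN

private theorem fin2_aux {X : Type*} [MetricSpace X] [CompactSpace X] {e δ : ℝ} (he : 0 < e)
    (hT : Trap X (e / 2) δ) {Y : Set X} (hY : IsCont Y) (hch : Chainable Y) {g : X → ℝ} (hg : Continuous g)
    {η : ℝ} (hη : 0 < η) (hfine : ∀ x ∈ Y, ∀ y ∈ Y, |g x - g y| ≤ η → dist x y < min δ (e / 12)) {K : ℕ → Set X}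
    (hK : ∀ n, IsCont (K n) ∧ K n ⊆ Y) (hd : ∀ m n, m ≠ n → Disjoint (K m) (K n)) {u v : ℕ → X}
    (hu : ∀ n, u n ∈ K n) (hv : ∀ n, v n ∈ K n) {u0 v0 : X} (hu0 : Tendsto u atTop (𝓝 u0))
    (hv0 : Tendsto v atTop (𝓝 v0)) (huv : e ≤ dist u0 v0) (hguv : g u0 ≤ g v0) : False := by
  have hYc : IsClosed Y := hY.1.isClosed
  have hu0Y : u0 ∈ Y := hYc.mem_of_tendsto hu0 (Eventually.of_forall fun n => (hK n).2 (hu n))
  have hv0Y : v0 ∈ Y := hYc.mem_of_tendsto hv0 (Eventually.of_forall fun n => (hK n).2 (hv n))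
  have hsep : ∀ x ∈ Y, ∀ y ∈ Y, dist x v0 ≤ e / 6 → dist y u0 ≤ e / 6 → η < |g x - g y| := by
    intro x hx y hy h1 h2
    by_contra hle
    rw [not_lt] at hle
    have h3 := (hfine x hx y hy hle).trans_le (min_le_right _ _)
    have h4 := dist_triangle4 u0 y x v0
    rw [dist_comm u0 y, dist_comm y x] at h4
    linarith
  obtain ⟨p, q, hpq, hup, hqv, ⟨l, hl, hlu, hlp⟩, ⟨h, hh, hhv, hhq⟩, hA, hB⟩ :=
    levels hY.1 hg hu0Y hv0Y (by positivity : (0 : ℝ) ≤ e / 6) hguv hsep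
  have hfar : ∀ x ∈ Y, ∀ y ∈ Y, |g x - q| ≤ η → |g y - p| ≤ η → e / 2 ≤ dist x y := by
    intro x hx y hy h1 h2
    rw [← hhq] at h1
    rw [← hlp] at h2
    have h3 := (hfine x hx h hh h1).trans_le (min_le_right _ _)
    have h4 := (hfine y hy l hl h2).trans_le (min_le_right _ _)
    have h5 := dist_triangle4 u0 l y x
    have h6 := dist_triangle4 u0 x h v0
    rw [dist_comm u0 l, dist_comm l y, dist_comm y x] at h5
    linarith
  have e1 : ∀ᶠ n in atTop, dist (u n) u0 ≤ e / 6 := by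
    have := (tendsto_iff_dist_tendsto_zero.1 hu0).eventually (gt_mem_nhds (by positivity : (0 : ℝ) < e / 6))
    exact this.mono fun n hn => hn.le
  have e2 : ∀ᶠ n in atTop, dist (v n) v0 ≤ e / 6 := by
    have := (tendsto_iff_dist_tendsto_zero.1 hv0).eventually (gt_mem_nhds (by positivity : (0 : ℝ) < e / 6))
    exact this.mono fun n hn => hn.le
  have e3 : ∀ᶠ n in atTop, g (u n) < q :=
    ((hg.tendsto u0).comp hu0).eventually (gt_mem_nhds (by linarith : g u0 < q))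
  have e4 : ∀ᶠ n in atTop, g u0 < g (v n) :=
    ((hg.tendsto v0).comp hv0).eventually (lt_mem_nhds (by linarith : g u0 < g v0))
  obtain ⟨n0, hn0⟩ := eventually_atTop.1 (e1.and (e2.and (e3.and e4)))
  refine fin1 hT hY hch hg hη hpq (fun x hx y hy hxy => (hfine x hx y hy hxy).trans_le (min_le_left _ _)) hfar
    (K := fun n => K (n0 + n)) (u := fun n => u (n0 + n)) (v := fun n => v (n0 + n)) (fun n => hK _)
    (fun m n hmn => hd _ _ fun h => hmn (by omega)) (fun n => hu _) (fun n => hv _) ?_ ?_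
  · intro n
    obtain ⟨h1, h2, h3, h4⟩ := hn0 (n0 + n) (by omega)
    exact hA _ ((hK _).2 (hu _)) h1 h3
  · intro n
    obtain ⟨h1, h2, h3, h4⟩ := hn0 (n0 + n) (by omega)
    exact hB _ ((hK _).2 (hv _)) h2 h4.le

theorem fin2 {X : Type*} [MetricSpace X] [CompactSpace X] (hT : ∀ ε > 0, ∃ δ > 0, Trap X ε δ) {Y : Set X}
    (hY : IsCont Y) (hch : Chainable Y) {e : ℝ} (he : 0 < e) {K : ℕ → Set X}
    (hK : ∀ n, IsCont (K n) ∧ K n ⊆ Y) (hd : ∀ m n, m ≠ n → Disjoint (K m) (K n)) {u v : ℕ → X}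
    (hu : ∀ n, u n ∈ K n) (hv : ∀ n, v n ∈ K n) {u0 v0 : X} (hu0 : Tendsto u atTop (𝓝 u0))
    (hv0 : Tendsto v atTop (𝓝 v0)) (huv : e ≤ dist u0 v0) : False := by
  obtain ⟨δ, hδ, hTr⟩ := hT (e / 2) (by positivity)
  obtain ⟨g, hg, hfib⟩ := exists_fine hY.1.isClosed hch (lt_min hδ (by positivity : (0 : ℝ) < e / 12))
  obtain ⟨η, hη, hfine⟩ := exists_tol hY.1.isClosed hg hfib
  rcases le_total (g u0) (g v0) with h | h
  · exact fin2_aux he hTr hY hch hg hη hfine hK hd hu hv hu0 hv0 huv h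
  · exact fin2_aux he hTr hY hch hg hη hfine hK hd hv hu hv0 hu0 (by rw [dist_comm]; exact huv) h

end Pool.Agent.Work.MP_e7996b_gt.CH
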