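import Pool.Agent.Work.MP_e7996b_gt.CH.Fin2

/-!
# CH/Fin3 (size S): chainable subcontinua are finitely Suslinian

PROOF.  Let `K` be as in the definition of `Susl`; choose `u n`, `v n ∈ K n` with `e ≤ dist (u n) (v n)`.  The space `X × X` is compact metric: a subsequence `(u (φ n), v (φ n))` converges to `(u0, v0)` (`CompactSpace.tendsto_subseq`), `e ≤ dist u0 v0`.  Apply `fin2` to `K ∘ φ` (pairwise disjoint because `φ` is injective).
-/

set_option autoImplicit false
set_option linter.unusedSectionVars false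

namespace Pool.Agent.Work.MP_e7996b_gt.CH

open Set Topology Filter TN

theorem susl_of {X : Type*} [MetricSpace X] [CompactSpace X] (hT : ∀ ε > 0, ∃ δ > 0, Trap X ε δ) {Y : Set X}
    (hY : IsCont Y) (hch : Chainable Y) : Susl Y := by
  rintro e he ⟨K, hK, hd, hdiam⟩
  choose u hu v hv huv using hdiam
  obtain ⟨z0, φ, hφ, hlim⟩ := CompactSpace.tendsto_subseq fun n => (u n, v n)
  have h1 : Tendsto (fun n => u (φ n)) atTop (𝓝 z0.1) := (continuous_fst.tendsto z0).comp hlim
  have h2 : Tendsto (fun n => v (φ n)) atTop (𝓝 z0.2) := (continuous_snd.tendsto z0).comp hlim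
  refine fin2 hT hY hch he (K := fun n => K (φ n)) (u := fun n => u (φ n)) (v := fun n => v (φ n))
    (fun n => hK _) (fun m n hmn => hd _ _ fun h => hmn (hφ.injective h)) (fun n => hu _) (fun n => hv _) h1 h2 ?_
  exact le_of_tendsto_of_tendsto tendsto_const_nhds (h1.dist h2) (Eventually.of_forall fun n => huv (φ n))

end Pool.Agent.Work.MP_e7996b_gt.CH
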