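import Pool.Agent.Work.MP_e7996b_gt.CH.Defs

/-!
# CH/Gate (size M): gates of irreducible continua

PROOF of `sep_of_irr`.  Let `U` be open, `w ∈ U`.  Put `Y' = (U \ {b0, b1})ᶜ`, closed, so compact, `b0, b1 ∈ Y'`, `w ∉ Y'` (`w ≠ b0, b1`).  `split` (TN/Gate) with `E0 = {b0}`, `E1 = {b1}`: if `Q ⊆ Y'` is closed connected and contains `b0`, `b1` then `Q` is a continuum, `Q ∩ B` is a continuum (`Unic`: `IsCont` of the intersection: compact, and connected by `hU`) contained in `B`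
and containing `b0`, `b1`, so `Q ∩ B = B ∋ w` by `hB.min`, but `w ∉ Y'`.  So `Y' = Y0 ∪ Y1`, disjoint closed, `b0 ∈ Y0`, `b1 ∈ Y1`.  Urysohn: `u : X → ℝ` continuous, `0` on `Y0`, `1` on `Y1`; `κ = 2 u - 1`.  A point `x ∉ U` lies in `Y'`.
PROOF of `exit_irr`.  If `w = a0` or `w = a1` use `hwM`; otherwise `sep_of_irr` and `hE`.
-/

set_option autoImplicit false
set_option linter.unusedSectionVars false

namespace Pool.Agent.Work.MP_e7996b_gt.CH

open Set Topology Filter TN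

theorem sep_of_irr {X : Type*} [MetricSpace X] [CompactSpace X] (hU : Unic X) {B : Set X} {b0 b1 w : X}
    (hB : Irr B b0 b1) (hw : w ∈ B) (h0 : w ≠ b0) (h1 : w ≠ b1) : Sep w b0 b1 := by
  have hU0 := hU
  clear hU
  intro U hU hwU
  have hY' : IsClosed (U \ {b0, b1})ᶜ := by
    rw [isClosed_compl_iff]
    exact hU.sdiff ((finite_singleton b1).insert b0).isClosed
  have hb0Y : b0 ∈ (U \ {b0, b1})ᶜ := fun h => h.2 (Or.inl rfl)
  have hb1Y : b1 ∈ (U \ {b0, b1})ᶜ := fun h => h.2 (Or.inr rfl)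
  have hwY : w ∉ (U \ {b0, b1})ᶜ := by
    intro h
    apply h
    refine ⟨hwU, ?_⟩
    rintro (h2 | h2)
    · exact h0 h2
    · exact h1 h2
  obtain ⟨Y0, Y1, hY0, hY1, hdis, hun, hE0, hE1⟩ := split (Y := (U \ {b0, b1})ᶜ) (E0 := {b0}) (E1 := {b1})
    hY'.isCompact isClosed_singleton isClosed_singleton (singleton_subset_iff.2 hb0Y)
    (singleton_subset_iff.2 hb1Y) (by
      rintro Q hQsub hQcl hQcon ⟨x, hxQ, hx⟩ ⟨y, hyQ, hy⟩
      rw [mem_singleton_iff] at hx hy
      subst hx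
      subst hy
      have hQB : IsCont (Q ∩ B) := ⟨hQcl.isCompact.inter_right hB.cont.1.isClosed,
        hU0 Q B ⟨hQcl.isCompact, hQcon⟩ hB.cont ⟨_, hxQ, hB.left⟩⟩
      have h2 : Q ∩ B = B := hB.min _ inter_subset_right hQB ⟨hxQ, hB.left⟩ ⟨hyQ, hB.right⟩
      rw [← h2] at hw
      exact hwY (hQsub hw.1))
  obtain ⟨u, hu0, hu1, -⟩ := exists_continuous_zero_one_of_isClosed hY0 hY1 hdis
  refine ⟨fun x => 2 * u x - 1, (continuous_const.mul u.continuous).sub continuous_const, ?_, ?_, ?_⟩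
  · intro x hx
    have hxY : x ∈ Y0 ∪ Y1 := by
      rw [hun]
      exact fun h => hx h.1
    rcases hxY with hxY | hxY
    · left
      have := hu0 hxY
      show 2 * u x - 1 = -1
      rw [this]
      simp
    · right
      have := hu1 hxY
      show 2 * u x - 1 = 1
      rw [this]
      simp
      norm_num
  · have := hu0 (hE0 rfl)
    show 2 * u b0 - 1 = -1
    rw [this]
    simp
  · have := hu1 (hE1 rfl)
    show 2 * u b1 - 1 = 1
    rw [this]
    simp
    norm_num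

theorem exit_irr {X : Type*} [MetricSpace X] [CompactSpace X] (hU : Unic X) {A M : Set X} {a0 a1 w : X}
    (hA : Irr A a0 a1) (hw : w ∈ A) (hwM : w ∈ M) (hE : Exit w A M) : a0 ∈ M ∨ a1 ∈ M := by
  by_cases h0 : w = a0
  · exact Or.inl (h0 ▸ hwM)
  by_cases h1 : w = a1
  · exact Or.inr (h1 ▸ hwM)
  exact hE a0 hA.left a1 hA.right (sep_of_irr hU hA hw h0 h1)

end Pool.Agent.Work.MP_e7996b_gt.CH
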