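import Pool.Agent.Work.MP_e7996b_gt.CH.Ord

/-!
# CH/Height (size M): a continuous injective function on `Y`

PROOF.  `X` is compact metric: let `s : ℕ → X` have dense range (`TopologicalSpace.exists_dense_seq`; `X` is nonempty because `Y` is).  `f w = ∑' n, (1/2)^n * Metric.infDist (s n) (DD Y y0 w)`; the terms are bounded by `(1/2)^n * D`, `D` a bound of the distances in `X` (`w ∈ DD w`), so the series converges absolutely.
CONTINUITY on `Y` at `w`: for `ε > 0` take `V` from `LCk` with `ε / 2`; for `w' ∈ Y ∩ ball w δ ⊆ V`: `dd_near` both ways; every point of `closure V` has distance `≤ ε` from `w` and from `w'`, which lie in `DD w`, `DD w'`; so `|infDist (s n) (DD w) - infDist (s n) (DD w')| ≤ ε` for all `n`, `|f w - f w'| ≤ 2 ε`.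
INJECTIVE: let `w ≠ w' ∈ Y`.  `dd_comp`: say `w ∈ DD w'`; then `DD w ⊆ DD w'` (`dd_trans`) and `w' ∉ DD w` (`dd_anti`).  All terms satisfy `infDist (s n) (DD w') ≤ infDist (s n) (DD w)` (`infDist_le_infDist_of_subset`), and strictly for some `n`: `DD w` is closed, `r = infDist w' (DD w) > 0`, take `dist (s n) w' < r / 2`:
`infDist (s n) (DD w') ≤ dist (s n) w' < r / 2 < infDist (s n) (DD w)`.  So `f w' < f w` (`tsum_lt_tsum`).  The other case is symmetric.
-/

set_option autoImplicit false
set_option linter.unusedSectionVars false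

namespace Pool.Agent.Work.MP_e7996b_gt.CH

open Set Topology Filter TN

private theorem half_sum (c : ℝ) : Summable (fun n : ℕ => (1 / 2 : ℝ) ^ n * c) :=
  (summable_geometric_two).mul_right c

theorem exists_height {X : Type*} [MetricSpace X] [CompactSpace X] {Y : Set X} {y0 y1 : X} (hY : Irr Y y0 y1)
    (hlc : LCk Y) : ∃ f : X → ℝ, ContinuousOn f Y ∧ InjOn f Y := by
  haveI : Nonempty X := ⟨y0⟩
  obtain ⟨s, hs⟩ := TopologicalSpace.exists_dense_seq X
  obtain ⟨D, hD⟩ : ∃ D : ℝ, ∀ x y : X, dist x y ≤ D :=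
    ⟨Metric.diam (univ : Set X), fun x y =>
      Metric.dist_le_diam_of_mem isCompact_univ.isBounded (mem_univ x) (mem_univ y)⟩
  have hD0 : 0 ≤ D := dist_nonneg.trans (hD y0 y0)
  have hle : ∀ p w, Metric.infDist p (DD Y y0 w) ≤ dist p w := fun p w =>
    Metric.infDist_le_dist_of_mem dd_self
  have hsum : ∀ w, Summable (fun n : ℕ => (1 / 2 : ℝ) ^ n * Metric.infDist (s n) (DD Y y0 w)) := by
    intro w
    refine Summable.of_nonneg_of_le (fun n => mul_nonneg (by positivity) Metric.infDist_nonneg)
      (fun n => mul_le_mul_of_nonneg_left ((hle _ _).trans (hD _ _)) (by positivity))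
      (half_sum D)
  refine ⟨fun w => ∑' n : ℕ, (1 / 2 : ℝ) ^ n * Metric.infDist (s n) (DD Y y0 w), ?_, ?_⟩
  · -- continuity
    rw [Metric.continuousOn_iff]
    intro w hw ε hε
    obtain ⟨V, hV, hVc, hwV, δ, hδ, hVδ⟩ := hlc w hw (ε / 8) (by positivity)
    refine ⟨δ, hδ, fun w' hw' hd => ?_⟩
    have hw'V : w' ∈ V := hVδ ⟨hw', by rw [Metric.mem_ball]; exact hd⟩
    have hVY : V ⊆ Y := fun x hx => (hV hx).1
    have hcl : ∀ z ∈ closure V, dist z w ≤ ε / 8 := by
      intro z hz
      have h1 : closure V ⊆ Metric.closedBall w (ε / 8) :=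
        closure_minimal (fun x hx => Metric.ball_subset_closedBall (hV hx).2)
          Metric.isClosed_closedBall
      exact Metric.mem_closedBall.1 (h1 hz)
    have hww' : dist w' w ≤ ε / 8 := hcl w' (subset_closure hw'V)
    have h1 := dd_near hY.cont (y0 := y0) hVc hVY hwV hw'V
    have h2 := dd_near hY.cont (y0 := y0) hVc hVY hw'V hwV
    have k1 : ∀ p, Metric.infDist p (DD Y y0 w) ≤ Metric.infDist p (DD Y y0 w') + ε / 4 := by
      intro p
      have h3 : Metric.infDist p (DD Y y0 w) - ε / 4 ≤ Metric.infDist p (DD Y y0 w') := by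
        rw [Metric.le_infDist ⟨w', dd_self⟩]
        intro z hz
        rcases h1 hz with h4 | h4
        · have h5 := Metric.infDist_le_dist_of_mem (x := p) h4
          linarith
        · have h5 := hle p w
          have h6 := hcl z h4
          have h7 := dist_triangle p z w
          linarith
      linarith
    have k2 : ∀ p, Metric.infDist p (DD Y y0 w') ≤ Metric.infDist p (DD Y y0 w) + ε / 4 := by
      intro p
      have h3 : Metric.infDist p (DD Y y0 w') - ε / 4 ≤ Metric.infDist p (DD Y y0 w) := by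
        rw [Metric.le_infDist ⟨w, dd_self⟩]
        intro z hz
        rcases h2 hz with h4 | h4
        · have h5 := Metric.infDist_le_dist_of_mem (x := p) h4
          linarith
        · have h5 := hle p w'
          have h6 := hcl z h4
          have h7 := dist_triangle p z w'
          have h8 := dist_triangle z w w'
          rw [dist_comm w w'] at h8
          linarith
      linarith
    have k3 : ∀ v v' : X, (∀ p, Metric.infDist p (DD Y y0 v) ≤
        Metric.infDist p (DD Y y0 v') + ε / 4) →
        (∑' n : ℕ, (1 / 2 : ℝ) ^ n * Metric.infDist (s n) (DD Y y0 v)) ≤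
        (∑' n : ℕ, (1 / 2 : ℝ) ^ n * Metric.infDist (s n) (DD Y y0 v')) + ε / 2 := by
      intro v v' h3
      have h4 : (∑' n : ℕ, (1 / 2 : ℝ) ^ n * Metric.infDist (s n) (DD Y y0 v)) ≤
          ∑' n : ℕ, ((1 / 2 : ℝ) ^ n * Metric.infDist (s n) (DD Y y0 v') +
            (1 / 2 : ℝ) ^ n * (ε / 4)) := by
        refine (hsum v).tsum_le_tsum (fun n => ?_) ((hsum v').add (half_sum (ε / 4)))
        rw [← mul_add]
        exact mul_le_mul_of_nonneg_left (h3 _) (by positivity)
      rw [(hsum v').tsum_add (half_sum (ε / 4)), tsum_mul_right, tsum_geometric_two] at h4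
      linarith
    rw [Real.dist_eq, abs_lt]
    have e1 := k3 w w' k1
    have e2 := k3 w' w k2
    constructor <;> linarith
  · -- injectivity
    have key : ∀ w ∈ Y, ∀ w' ∈ Y, w ≠ w' → w ∈ DD Y y0 w' →
        (∑' n : ℕ, (1 / 2 : ℝ) ^ n * Metric.infDist (s n) (DD Y y0 w')) <
          ∑' n : ℕ, (1 / 2 : ℝ) ^ n * Metric.infDist (s n) (DD Y y0 w) := by
      intro w hw w' hw' hne h
      have hsub := dd_trans h
      have hn : w' ∉ DD Y y0 w := fun h' => hne (dd_anti hY hlc hw hw' h h')
      have hr : 0 < Metric.infDist w' (DD Y y0 w) :=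
        (dd_closed.notMem_iff_infDist_pos ⟨w, dd_self⟩).1 hn
      obtain ⟨n, hn2⟩ := hs.exists_dist_lt w' (half_pos hr)
      refine (hsum w').tsum_lt_tsum (i := n) (fun m => ?_) ?_ (hsum w)
      · exact mul_le_mul_of_nonneg_left
          (Metric.infDist_le_infDist_of_subset hsub ⟨w, dd_self⟩) (by positivity)
      · refine mul_lt_mul_of_pos_left ?_ (by positivity)
        have h1 := hle (s n) w'
        have h2 : Metric.infDist w' (DD Y y0 w) ≤
            Metric.infDist (s n) (DD Y y0 w) + dist w' (s n) := Metric.infDist_le_infDist_add_dist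
        rw [dist_comm] at h1
        linarith
    intro w hw w' hw' he
    by_contra hne
    have he' : (∑' n : ℕ, (1 / 2 : ℝ) ^ n * Metric.infDist (s n) (DD Y y0 w)) =
          ∑' n : ℕ, (1 / 2 : ℝ) ^ n * Metric.infDist (s n) (DD Y y0 w') := he
    rcases dd_comp hY hlc hw hw' with h | h
    · have h1 := key w hw w' hw' hne h
      linarith
    · have h1 := key w' hw' w hw (Ne.symm hne) h
      linarith

end Pool.Agent.Work.MP_e7996b_gt.CH
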