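import Pool.Agent.Work.MP_e7996b_gt.CH.Defs

/-!
# CH/Incr (size M): the increment of the logarithm does not depend on the parameter

PROOF (model: `exists_log_family` in Work/MP_e7996b_gt/Log).  `D = {c | ∃ g, ContinuousOn g B ∧ (∀ y ∈ B, Θ (y, c) = exp (g y)) ∧ g b1 - g b0 = ga b1 - ga b0}`.  For every `c`, for all `c'` near `c`: `Θ (y, c') / Θ (y, c) ∈ Complex.slitPlane` for all `y ∈ B` (`B` compact: work on the subtype `↥B`, where `Θ` becomes a continuous function on `↥B × P`,
and use `isCompact_univ.eventually_forall_of_forall_eventually` as in the model).  If `g` works for `c` then `g + log (Θ (y, c') / Θ (y, c))` works for `c'` (at `b0`, `b1` the quotient is `(-1)/(-1) = 1`, its logarithm is `0`), and vice versa; so `D` is clopen, `a ∈ D`, `P` connected: `b ∈ D`.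
Then `gb - g` is continuous on the connected set `B` with `exp = 1`: constant (`exp_one_const`), so the increments of `gb` and `g` agree.
-/

set_option autoImplicit false
set_option linter.unusedSectionVars false

namespace Pool.Agent.Work.MP_e7996b_gt.CH

open Set Topology Filter TN

theorem incr_eq {X P : Type*} [TopologicalSpace X] [TopologicalSpace P] [PreconnectedSpace P] {B : Set X}
    (hB : IsCont B) {Θ : X × P → ℂ} (hΘ : ContinuousOn Θ (B ×ˢ (univ : Set P)))
    (h0 : ∀ z ∈ B ×ˢ (univ : Set P), Θ z ≠ 0) {b0 b1 : X} (hb0 : b0 ∈ B) (hb1 : b1 ∈ B)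
    (e0 : ∀ c, Θ (b0, c) = -1) (e1 : ∀ c, Θ (b1, c) = -1) {a b : P} {ga gb : X → ℂ}
    (hga : ContinuousOn ga B) (ha : ∀ y ∈ B, Θ (y, a) = Complex.exp (ga y))
    (hgb : ContinuousOn gb B) (hb : ∀ y ∈ B, Θ (y, b) = Complex.exp (gb y)) :
    ga b1 - ga b0 = gb b1 - gb b0 := by
  have cB : CompactSpace B := isCompact_iff_compactSpace.1 hB.1
  have pB : ConnectedSpace B := isConnected_iff_connectedSpace.1 hB.2
  obtain ⟨Φ, hΦdef⟩ : ∃ Φ : B × P → ℂ, Φ = fun z => Θ (z.1.1, z.2) := ⟨_, rfl⟩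
  have hΦ : Continuous Φ := by
    rw [hΦdef]
    exact hΘ.comp_continuous ((continuous_subtype_val.comp continuous_fst).prodMk continuous_snd)
      fun z => ⟨z.1.2, mem_univ _⟩
  have hΦ0 : ∀ z, Φ z ≠ 0 := by
    intro z
    rw [hΦdef]
    exact h0 _ ⟨z.1.2, mem_univ _⟩
  obtain ⟨β0, hβ0⟩ : ∃ β0 : B, β0.1 = b0 := ⟨⟨b0, hb0⟩, rfl⟩
  obtain ⟨β1, hβ1⟩ : ∃ β1 : B, β1.1 = b1 := ⟨⟨b1, hb1⟩, rfl⟩
  have f0 : ∀ c, Φ (β0, c) = -1 := by
    intro c
    rw [hΦdef]
    show Θ (β0.1, c) = -1
    rw [hβ0]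
    exact e0 c
  have f1 : ∀ c, Φ (β1, c) = -1 := by
    intro c
    rw [hΦdef]
    show Θ (β1.1, c) = -1
    rw [hβ1]
    exact e1 c
  have key : ∀ c, ∀ᶠ c' in 𝓝 c, ∀ x ∈ (univ : Set B), Φ (x, c') / Φ (x, c) ∈ Complex.slitPlane := by
    intro c
    refine isCompact_univ.eventually_forall_of_forall_eventually fun x _ => ?_
    have hc : Continuous fun z : P × B => Φ (z.2, z.1) / Φ (z.2, c) :=
      (hΦ.comp (continuous_snd.prodMk continuous_fst)).div
        (hΦ.comp (continuous_snd.prodMk continuous_const)) fun z => hΦ0 _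
    refine hc.continuousAt.eventually_mem (Complex.isOpen_slitPlane.mem_nhds ?_)
    show Φ (x, c) / Φ (x, c) ∈ _
    rw [div_self (hΦ0 _)]
    exact Complex.one_mem_slitPlane
  have hl0 : ∀ c c', Complex.log (Φ (β0, c') / Φ (β0, c)) = 0 := by
    intro c c'
    rw [f0, f0]
    norm_num
  have hl1 : ∀ c c', Complex.log (Φ (β1, c') / Φ (β1, c)) = 0 := by
    intro c c'
    rw [f1, f1]
    norm_num
  have hcl : IsClopen {c : P | ∃ g' : B → ℂ, Continuous g' ∧ (∀ x, Φ (x, c) = Complex.exp (g' x)) ∧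
      g' β1 - g' β0 = ga b1 - ga b0} := by
    have hx : ∀ c, Continuous fun x : B => Φ (x, c) := fun c =>
      hΦ.comp (continuous_id.prodMk continuous_const)
    constructor
    · rw [← isOpen_compl_iff, isOpen_iff_mem_nhds]
      intro c hc
      filter_upwards [key c] with c' hc' hD
      apply hc
      obtain ⟨g', hg', h1, h2⟩ := hD
      refine ⟨fun x => g' x - Complex.log (Φ (x, c') / Φ (x, c)), hg'.sub ?_, fun x => ?_, ?_⟩
      · exact ((hx c').div (hx c) fun x => hΦ0 _).clog fun x => hc' x trivial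
      · rw [Complex.exp_sub, Complex.exp_log (div_ne_zero (hΦ0 _) (hΦ0 _)), ← h1]
        have h2 := hΦ0 (x, c')
        have h3 := hΦ0 (x, c)
        field_simp
      · show (g' β1 - Complex.log (Φ (β1, c') / Φ (β1, c))) - (g' β0 - Complex.log (Φ (β0, c') / Φ (β0, c))) = _
        rw [hl0, hl1, sub_zero, sub_zero]
        exact h2
    · rw [isOpen_iff_mem_nhds]
      intro c hc
      filter_upwards [key c] with c' hc'
      obtain ⟨g', hg', h1, h2⟩ := hc
      refine ⟨fun x => g' x + Complex.log (Φ (x, c') / Φ (x, c)), hg'.add ?_, fun x => ?_, ?_⟩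
      · exact ((hx c').div (hx c) fun x => hΦ0 _).clog fun x => hc' x trivial
      · rw [Complex.exp_add, Complex.exp_log (div_ne_zero (hΦ0 _) (hΦ0 _)), ← h1]
        have h2 := hΦ0 (x, c')
        have h3 := hΦ0 (x, c)
        field_simp
      · show (g' β1 + Complex.log (Φ (β1, c') / Φ (β1, c))) - (g' β0 + Complex.log (Φ (β0, c') / Φ (β0, c))) = _
        rw [hl0, hl1, add_zero, add_zero]
        exact h2
  have hun := hcl.eq_univ ⟨a, fun x => ga x.1, hga.comp_continuous continuous_subtype_val fun x => x.2, by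
    intro x
    rw [hΦdef]
    exact ha x.1 x.2, by
    show ga β1.1 - ga β0.1 = ga b1 - ga b0
    rw [hβ0, hβ1]⟩
  have hbm : b ∈ {c : P | ∃ g' : B → ℂ, Continuous g' ∧ (∀ x, Φ (x, c) = Complex.exp (g' x)) ∧
      g' β1 - g' β0 = ga b1 - ga b0} := by
    rw [hun]
    trivial
  obtain ⟨g, hg, h1, h2⟩ := hbm
  have hgb' : Continuous fun x : B => gb x.1 := hgb.comp_continuous continuous_subtype_val fun x => x.2
  have hconst : ∀ x y : B, gb x.1 - g x = gb y.1 - g y := by
    intro x y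
    refine exp_one_const (h := fun x : B => gb x.1 - g x) isPreconnected_univ (hgb'.sub hg).continuousOn
      (fun z _ => ?_) (mem_univ x) (mem_univ y)
    have h3 := h1 z
    rw [hΦdef] at h3
    change Θ (z.1, b) = Complex.exp (g z) at h3
    rw [hb z.1 z.2] at h3
    rw [Complex.exp_sub, h3, div_self (Complex.exp_ne_zero _)]
  have h4 := hconst β1 β0
  rw [hβ0, hβ1] at h4
  linear_combination -h4 - h2

end Pool.Agent.Work.MP_e7996b_gt.CH
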