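import Pool.Agent.Work.MP_e7996b_gt.CH.Defs

/-!
# CH/Ind1 (size M): proper subcontinua of an indecomposable continuum have empty interior

PROOF.  Suppose `U ∩ Y ⊆ K`, `U ∩ Y` nonempty, `U` open.  `R = Y \ K` is nonempty.
CASE 1: `R` is preconnected.  `M = closure R` is a continuum contained in `Y`, and `M ∩ U = ∅` (`R ∩ U = ∅`), so `M ≠ Y`.  `K ∪ M = Y`, contradiction to indecomposability.
CASE 2: `R` is not preconnected: there are open sets `O1`, `O2` (in `X`) with `R ⊆ O1 ∪ O2`, `R ∩ O1`, `R ∩ O2` nonempty, `R ∩ (O1 ∩ O2) = ∅`.  `P = R ∩ O1`, `Q = R ∩ O2`.  `K ∪ P` is closed: it is `Y \ (O2 \ K)`, and `O2 \ K` is open (`K` closed).  It is connected: let `K ∪ P = S ∪ T` with disjoint closed `S`, `T`, `K ⊆ S` (`K` connected), `T` nonempty; `T ⊆ P`.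
Then `Y = T ∪ (S ∪ (K ∪ Q))` with `T` closed, `S ∪ (K ∪ Q)` closed, disjoint (`T ⊆ P`, `P ∩ (K ∪ Q) = ∅`), both nonempty: contradiction to the connectedness of `Y`.  In the same way `K ∪ Q` is a continuum.  `(K ∪ P) ∪ (K ∪ Q) = Y`, but `K ∪ P ≠ Y`, `K ∪ Q ≠ Y`: contradiction.
-/

set_option autoImplicit false
set_option linter.unusedSectionVars false

namespace Pool.Agent.Work.MP_e7996b_gt.CH

open Set Topology Filter TN

private theorem cl_aux {X : Type*} [TopologicalSpace X] {Y K O1 O2 : Set X} (hYc : IsClosed Y)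
    (hKc : IsClosed K) (hKY : K ⊆ Y) (h2 : IsOpen O2) (hc : Y \ K ⊆ O1 ∪ O2)
    (hd : ∀ x ∈ Y \ K, x ∈ O1 → x ∈ O2 → False) : IsClosed (K ∪ ((Y \ K) ∩ O1)) := by
  have he : K ∪ ((Y \ K) ∩ O1) = Y ∩ (O2 ∩ Kᶜ)ᶜ := by
    ext x
    constructor
    · rintro (h | ⟨⟨h1, h3⟩, h4⟩)
      · exact ⟨hKY h, fun h' => h'.2 h⟩
      · exact ⟨h1, fun h' => hd x ⟨h1, h3⟩ h4 h'.1⟩
    · rintro ⟨h1, h3⟩
      by_cases hx : x ∈ K
      · exact Or.inl hx
      · right
        rcases hc ⟨h1, hx⟩ with h4 | h4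
        · exact ⟨⟨h1, hx⟩, h4⟩
        · exact absurd ⟨h4, hx⟩ h3
  rw [he]
  exact hYc.inter (h2.inter hKc.isOpen_compl).isClosed_compl

private theorem half_aux {X : Type*} [TopologicalSpace X] {Y K P Q u v : Set X}
    (hY : IsPreconnected Y) (hKne : K.Nonempty) (hPc : IsClosed (K ∪ P)) (hQc : IsClosed (K ∪ Q))
    (hKY : K ⊆ Y) (hPY : P ⊆ Y) (hcov : Y ⊆ K ∪ P ∪ (K ∪ Q)) (hPQ : ∀ x ∈ P, x ∈ Q → False)
    (hPK : ∀ x ∈ P, x ∉ K) (hu : IsClosed u) (hv : IsClosed v) (huv : K ∪ P ⊆ u ∪ v)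
    (hd : (K ∪ P) ∩ (u ∩ v) = ∅) (hK : K ⊆ u) : K ∪ P ⊆ u := by
  have hdis : ∀ x ∈ K ∪ P, x ∈ u → x ∈ v → False := by
    intro x h1 h2 h3
    have h4 : x ∈ (K ∪ P) ∩ (u ∩ v) := ⟨h1, h2, h3⟩
    rw [hd] at h4
    exact h4
  have h1 := (isPreconnected_iff_subset_of_disjoint_closed.1 hY) ((K ∪ P) ∩ v)
    (((K ∪ P) ∩ u) ∪ (K ∪ Q)) (hPc.inter hv) ((hPc.inter hu).union hQc) (by
      intro x hx
      rcases hcov hx with h2 | h2
      · rcases huv h2 with h3 | h3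
        · exact Or.inr (Or.inl ⟨h2, h3⟩)
        · exact Or.inl ⟨h2, h3⟩
      · exact Or.inr (Or.inr h2)) (by
      rw [eq_empty_iff_forall_notMem]
      rintro x ⟨-, ⟨h2, h3⟩, h4⟩
      rcases h4 with h4 | h4 | h4
      · exact hdis x h2 h4.2 h3
      · exact hdis x h2 (hK h4) h3
      · rcases h2 with h5 | h5
        · exact hdis x (Or.inl h5) (hK h5) h3
        · exact hPQ x h5 h4)
  rcases h1 with h1 | h1
  · obtain ⟨k, hk⟩ := hKne
    exact absurd ((h1 (hKY hk)).2) (fun h => hdis k (Or.inl hk) (hK hk) h)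
  · intro x hx
    rcases huv hx with h2 | h2
    · exact h2
    · exfalso
      rcases hx with h3 | h3
      · exact hdis x (Or.inl h3) (hK h3) h2
      · rcases h1 (hPY h3) with h6 | h6 | h6
        · exact hdis x (Or.inr h3) h6.2 h2
        · exact hPK x h3 h6
        · exact hPQ x h3 h6

private theorem cont_aux {X : Type*} [MetricSpace X] {Y K O1 O2 : Set X} (hY : IsCont Y)
    (hK : IsCont K) (hKY : K ⊆ Y) (h1 : IsOpen O1) (h2 : IsOpen O2) (hc : Y \ K ⊆ O1 ∪ O2)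
    (hd : ∀ x ∈ Y \ K, x ∈ O1 → x ∈ O2 → False) : IsCont (K ∪ ((Y \ K) ∩ O1)) := by
  have hP : IsClosed (K ∪ ((Y \ K) ∩ O1)) :=
    cl_aux hY.1.isClosed hK.1.isClosed hKY h2 hc hd
  have hQ : IsClosed (K ∪ ((Y \ K) ∩ O2)) :=
    cl_aux hY.1.isClosed hK.1.isClosed hKY h1 (by rw [union_comm]; exact hc)
      (fun x hx h3 h4 => hd x hx h4 h3)
  have hPY : K ∪ ((Y \ K) ∩ O1) ⊆ Y := by
    rintro x (h | h)
    · exact hKY h
    · exact h.1.1
  have hcov : Y ⊆ K ∪ ((Y \ K) ∩ O1) ∪ (K ∪ ((Y \ K) ∩ O2)) := by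
    intro x hx
    by_cases hxK : x ∈ K
    · exact Or.inl (Or.inl hxK)
    · rcases hc ⟨hx, hxK⟩ with h | h
      · exact Or.inl (Or.inr ⟨⟨hx, hxK⟩, h⟩)
      · exact Or.inr (Or.inr ⟨⟨hx, hxK⟩, h⟩)
  have hne : K.Nonempty := hK.2.nonempty
  refine ⟨hY.1.of_isClosed_subset hP hPY, ⟨hne.mono subset_union_left, ?_⟩⟩
  rw [isPreconnected_iff_subset_of_disjoint_closed]
  intro u v hu hv huv hdv
  have hdis : K ∩ (u ∩ v) = ∅ := by
    rw [eq_empty_iff_forall_notMem] at hdv ⊢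
    rintro x ⟨h3, h4⟩
    exact hdv x ⟨Or.inl h3, h4⟩
  have hPQ : ∀ x ∈ (Y \ K) ∩ O1, x ∈ (Y \ K) ∩ O2 → False := fun x h3 h4 => hd x h3.1 h3.2 h4.2
  have hPK : ∀ x ∈ (Y \ K) ∩ O1, x ∉ K := fun x h3 => h3.1.2
  rcases (isPreconnected_iff_subset_of_disjoint_closed.1 hK.2.isPreconnected) u v hu hv
    (subset_union_left.trans huv) hdis with h3 | h3
  · left
    exact half_aux hY.2.isPreconnected hne hP hQ hKY (fun x hx => hx.1.1) hcov hPQ hPK hu hv huv
      hdv h3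
  · right
    refine half_aux hY.2.isPreconnected hne hP hQ hKY (fun x hx => hx.1.1) hcov hPQ hPK hv hu
      (by rw [union_comm v u]; exact huv) (by rw [inter_comm v u]; exact hdv) h3

theorem ind_interior {X : Type*} [MetricSpace X] [CompactSpace X] {Y : Set X} (hY : Indecomposable Y)
    {K : Set X} (hK : IsCont K) (hKY : K ⊆ Y) (hne : K ≠ Y) {U : Set X} (hU : IsOpen U)
    (hUY : (U ∩ Y).Nonempty) : ¬ U ∩ Y ⊆ K := by
  intro hsub
  obtain ⟨hYc, hYi⟩ := hY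
  have hRne : (Y \ K).Nonempty := by
    by_contra h
    rw [not_nonempty_iff_eq_empty, sdiff_eq_empty] at h
    exact hne (Subset.antisymm hKY h)
  by_cases hR : IsPreconnected (Y \ K)
  · have hMY : closure (Y \ K) ⊆ Y := closure_minimal sdiff_subset hYc.1.isClosed
    have hM : IsCont (closure (Y \ K)) :=
      ⟨isClosed_closure.isCompact, hRne.closure, hR.closure⟩
    have hun : K ∪ closure (Y \ K) = Y := by
      apply Subset.antisymm (union_subset hKY hMY)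
      intro x hx
      by_cases h : x ∈ K
      · exact Or.inl h
      · exact Or.inr (subset_closure ⟨hx, h⟩)
    rcases hYi K _ hK hM hun with h | h
    · exact hne h
    · obtain ⟨x, hxU, hxY⟩ := hUY
      rw [← h] at hxY
      obtain ⟨z, hzU, hzR⟩ := mem_closure_iff.1 hxY U hU hxU
      exact hzR.2 (hsub ⟨hzU, hzR.1⟩)
  · unfold IsPreconnected at hR
    push Not at hR
    obtain ⟨O1, O2, h1, h2, hc, hn1, hn2, hd⟩ := hR
    have hd' : ∀ x ∈ Y \ K, x ∈ O1 → x ∈ O2 → False := by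
      intro x hx h3 h4
      have h5 : x ∈ (Y \ K) ∩ (O1 ∩ O2) := ⟨hx, h3, h4⟩
      rw [hd] at h5
      exact h5
    have hA := cont_aux hYc hK hKY h1 h2 hc hd'
    have hB := cont_aux hYc hK hKY h2 h1 (by rw [union_comm]; exact hc)
      (fun x hx h3 h4 => hd' x hx h4 h3)
    have hun : (K ∪ ((Y \ K) ∩ O1)) ∪ (K ∪ ((Y \ K) ∩ O2)) = Y := by
      apply Subset.antisymm
      · rintro x ((h | h) | (h | h))
        · exact hKY h
        · exact h.1.1
        · exact hKY h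
        · exact h.1.1
      · intro x hx
        by_cases hxK : x ∈ K
        · exact Or.inl (Or.inl hxK)
        · rcases hc ⟨hx, hxK⟩ with h | h
          · exact Or.inl (Or.inr ⟨⟨hx, hxK⟩, h⟩)
          · exact Or.inr (Or.inr ⟨⟨hx, hxK⟩, h⟩)
    rcases hYi _ _ hA hB hun with h | h
    · obtain ⟨x, hx, hx2⟩ := hn2
      have h3 : x ∈ K ∪ ((Y \ K) ∩ O1) := by
        rw [h]
        exact hx.1
      rcases h3 with h4 | h4
      · exact hx.2 h4
      · exact hd' x hx h4.2 hx2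
    · obtain ⟨x, hx, hx1⟩ := hn1
      have h3 : x ∈ K ∪ ((Y \ K) ∩ O2) := by
        rw [h]
        exact hx.1
      rcases h3 with h4 | h4
      · exact hx.2 h4
      · exact hd' x hx hx1 h4.2

end Pool.Agent.Work.MP_e7996b_gt.CH
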