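import Pool.Agent.Work.MP_e7996b_gt.CH.Ind1

/-!
# CH/Ind2 (size M): three points in different composants

For `x ∈ Y` let `κ x` = the set of all `y ∈ Y` such that some continuum `K ⊆ Y`, `K ≠ Y` contains `x` and `y`.  If `y ∈ Y \ κ x` then `Irr Y x y`.
`κ x` is contained in a countable union of closed sets with empty interior in `Y`: let `(U n)` be a countable basis of `X` (second countable).  If `K ⊆ Y`, `K ≠ Y` is a continuum containing `x`, `y`, there is `n` with `U n ∩ Y ≠ ∅`, `U n ∩ K = ∅` (`Y \ K` nonempty, relatively open), and `K ⊆ C n = connectedComponentIn (Y \ U n) x`, a continuum (compact), `C n ≠ Y`;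
its interior relative to `Y` is empty by `ind_interior`.  (For `n` with `x ∈ U n` or `U n ∩ Y = ∅` put `C n = ∅`.)
BAIRE: the compact space `↥Y` is a Baire space (nonempty), so it is not a countable union of closed sets with empty interior (`nonempty_interior_of_iUnion_of_closed`).  So there is `y0 ∈ Y \ κ w`, and (using the two countable families for `w` and for `y0` together) `y1 ∈ Y \ (κ w ∪ κ y0)`.
-/

set_option autoImplicit false
set_option linter.unusedSectionVars false

namespace Pool.Agent.Work.MP_e7996b_gt.CH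

open Set Topology Filter TN

private theorem baire_aux {X ι : Type*} [MetricSpace X] [Countable ι] {Y : Set X} (hY : IsCompact Y)
    (hne : Y.Nonempty) {D : ι → Set X} (hc : ∀ i, IsClosed (D i))
    (hi : ∀ i, ∀ V : Set X, IsOpen V → (V ∩ Y).Nonempty → ¬ V ∩ Y ⊆ D i) :
    ∃ y ∈ Y, ∀ i, y ∉ D i := by
  by_contra hcon
  push Not at hcon
  haveI : CompactSpace Y := isCompact_iff_compactSpace.1 hY
  haveI : Nonempty Y := hne.to_subtype
  have h1 : ∀ i, IsClosed ((fun y : Y => (y : X)) ⁻¹' (D i)) := fun i =>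
    (hc i).preimage continuous_subtype_val
  have h2 : ⋃ i, ((fun y : Y => (y : X)) ⁻¹' (D i)) = univ := by
    rw [eq_univ_iff_forall]
    intro y
    obtain ⟨i, hi⟩ := hcon y y.2
    exact mem_iUnion.2 ⟨i, hi⟩
  obtain ⟨i, y, hy⟩ := nonempty_interior_of_iUnion_of_closed h1 h2
  obtain ⟨W, hW1, hW2, hW3⟩ := mem_interior.1 hy
  obtain ⟨V, hV, rfl⟩ := isOpen_induced_iff.1 hW2
  refine hi i V hV ⟨y, hW3, y.2⟩ ?_
  rintro z ⟨hz, hzY⟩
  exact hW1 (show (⟨z, hzY⟩ : Y) ∈ _ from hz)

private theorem fam_aux {X : Type*} [MetricSpace X] [CompactSpace X] {Y : Set X}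
    (hY : Indecomposable Y) {x : X} (hx : x ∈ Y) :
    ∃ D : TopologicalSpace.countableBasis X → Set X, (∀ i, IsClosed (D i)) ∧
      (∀ i, ∀ V : Set X, IsOpen V → (V ∩ Y).Nonempty → ¬ V ∩ Y ⊆ D i) ∧
      ∀ y ∈ Y, (∀ i, y ∉ D i) → Irr Y x y := by
  classical
  refine ⟨fun U => if ((U : Set X) ∩ Y).Nonempty ∧ x ∉ (U : Set X) then
    closure (connectedComponentIn (Y \ (U : Set X)) x) else ∅, ?_, ?_, ?_⟩
  · intro U
    beta_reduce
    split_ifs
    · exact isClosed_closure
    · exact isClosed_empty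
  · intro U V hV hVY
    have hUo : IsOpen (U : Set X) := TopologicalSpace.isOpen_of_mem_countableBasis U.2
    beta_reduce
    split_ifs with h
    · obtain ⟨h1, h2⟩ := h
      have hcl : IsClosed (Y \ (U : Set X)) := hY.1.1.isClosed.sdiff hUo
      have hsub : closure (connectedComponentIn (Y \ (U : Set X)) x) ⊆ Y \ (U : Set X) :=
        closure_minimal (connectedComponentIn_subset _ _) hcl
      have hcon : IsConnected (connectedComponentIn (Y \ (U : Set X)) x) :=
        isConnected_connectedComponentIn_iff.2 ⟨hx, h2⟩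
      refine ind_interior hY ⟨isClosed_closure.isCompact, hcon.closure⟩
        (hsub.trans sdiff_subset) ?_ hV hVY
      intro he
      obtain ⟨z, hzU, hzY⟩ := h1
      rw [← he] at hzY
      exact (hsub hzY).2 hzU
    · intro h1
      obtain ⟨z, hz⟩ := hVY
      exact h1 hz
  · intro y hy hyD
    refine ⟨hY.1, hx, hy, fun K hKY hK hxK hyK => ?_⟩
    by_contra hne
    have hR : ∃ z ∈ Y, z ∉ K := by
      by_contra h
      push Not at h
      exact hne (Subset.antisymm hKY h)
    obtain ⟨z, hzY, hzK⟩ := hR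
    obtain ⟨U, hU, hzU, hUK⟩ := (TopologicalSpace.isBasis_countableBasis X).exists_subset_of_mem_open
      (show z ∈ Kᶜ from hzK) hK.1.isClosed.isOpen_compl
    refine hyD ⟨U, hU⟩ ?_
    have hxU : x ∉ U := fun h => hUK h hxK
    have h1 : ((U : Set X) ∩ Y).Nonempty ∧ x ∉ (U : Set X) := ⟨⟨z, hzU, hzY⟩, hxU⟩
    show y ∈ (if ((U : Set X) ∩ Y).Nonempty ∧ x ∉ (U : Set X) then
      closure (connectedComponentIn (Y \ (U : Set X)) x) else ∅)
    rw [if_pos h1]
    apply subset_closure
    exact hK.2.isPreconnected.subset_connectedComponentIn hxK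
      (show K ⊆ Y \ U from fun k hk => ⟨hKY hk, fun h => hUK h hk⟩) hyK

theorem exists_three {X : Type*} [MetricSpace X] [CompactSpace X] {Y : Set X} (hY : Indecomposable Y)
    {w : X} (hw : w ∈ Y) : ∃ y0 y1, Irr Y y0 y1 ∧ Irr Y w y0 ∧ Irr Y w y1 := by
  haveI : Countable (TopologicalSpace.countableBasis X) :=
    (TopologicalSpace.countable_countableBasis X).to_subtype
  obtain ⟨D, hD1, hD2, hD3⟩ := fam_aux hY hw
  obtain ⟨y0, hy0, hy0D⟩ := baire_aux hY.1.1 ⟨w, hw⟩ hD1 hD2
  obtain ⟨D', hD1', hD2', hD3'⟩ := fam_aux hY hy0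
  obtain ⟨y1, hy1, hy1D⟩ := baire_aux (ι := TopologicalSpace.countableBasis X ⊕
    TopologicalSpace.countableBasis X) (D := Sum.elim D D') hY.1.1 ⟨w, hw⟩
    (by rintro (i | i); exacts [hD1 i, hD1' i]) (by rintro (i | i); exacts [hD2 i, hD2' i])
  exact ⟨y0, y1, hD3' y1 hy1 fun i => hy1D (Sum.inr i), hD3 y0 hy0 hy0D,
    hD3 y1 hy1 fun i => hy1D (Sum.inl i)⟩

end Pool.Agent.Work.MP_e7996b_gt.CH
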