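import Pool.Agent.Work.MP_e7996b_gt.CH.Ind2
import Pool.Agent.Work.MP_e7996b_gt.CH.Gate

/-!
# CH/Ind3 (size S): indecomposable subcontinua

PROOF of `ind_exit`.  Suppose `M ≠ Y`.  `exists_three` gives `y0`, `y1`.  `w ≠ y0`: otherwise `Irr Y w w` and the continuum `{w}` would be `Y`, but `Y` is nontrivial; similarly `w ≠ y1`.  `sep_of_irr`: `Sep w y0 y1`, so `y0 ∈ M` or `y1 ∈ M`; `M` is a continuum in `Y` containing `w` and `y0` (or `y1`): `M = Y` by `Irr.min`, contradiction.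
PROOF of `ind_semispan`.  `hE (dist w w')` gives `δ`, and for `A = B = Y` a continuum `L`; `Prod.fst '' L`, `Prod.snd '' L` are continua contained in `Y` containing `w`, resp. `w'`; `ind_exit`.  For `z ∈ L`: `δ ≤ dist z.1 z.2`, so `z.1 ≠ z.2`.
-/

set_option autoImplicit false
set_option linter.unusedSectionVars false

namespace Pool.Agent.Work.MP_e7996b_gt.CH

open Set Topology Filter TN

theorem ind_exit {X : Type*} [MetricSpace X] [CompactSpace X] (hU : Unic X) {Y : Set X}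
    (hY : Indecomposable Y) (hnt : Y.Nontrivial) {w : X} (hw : w ∈ Y) {M : Set X} (hM : IsCont M)
    (hMY : M ⊆ Y) (hwM : w ∈ M) (hE : Exit w Y M) : M = Y := by
  obtain ⟨y0, y1, h01, h0, h1⟩ := exists_three hY hw
  have hne : ∀ y, Irr Y w y → w ≠ y := by
    rintro y h rfl
    have h2 := h.min {w} (singleton_subset_iff.2 hw) ⟨isCompact_singleton, isConnected_singleton⟩
      rfl rfl
    rw [← h2] at hnt
    exact not_nontrivial_singleton hnt
  have hs := sep_of_irr hU h01 hw (hne y0 h0) (hne y1 h1)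
  rcases hE y0 h0.right y1 h1.right hs with h | h
  · exact h0.min M hMY hM hwM h
  · exact h1.min M hMY hM hwM h

theorem ind_semispan {X : Type*} [MetricSpace X] [CompactSpace X] (hU : Unic X) (hE : CEsc X) {Y : Set X}
    (hY : Indecomposable Y) (hnt : Y.Nontrivial) {w w' : X} (hw : w ∈ Y) (hw' : w' ∈ Y) (hne : w ≠ w') :
    ∃ L : Set (X × X), IsCont L ∧ L ⊆ Y ×ˢ Y ∧ (w, w') ∈ L ∧ (∀ z ∈ L, z.1 ≠ z.2) ∧
      (Prod.fst '' L = Y ∨ Prod.snd '' L = Y) := by
  obtain ⟨δ, hδ, h⟩ := hE (dist w w') (dist_pos.2 hne)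
  obtain ⟨L, hL, hLs, hwL, hLd, hLe⟩ := h Y Y w w' hY.1 hY.1 hw hw' le_rfl
  refine ⟨L, hL, hLs, hwL, fun z hz he => ?_, ?_⟩
  · have h1 := hLd z hz
    rw [he, dist_self] at h1
    linarith
  · rcases hLe with h1 | h1
    · left
      refine ind_exit hU hY hnt hw ⟨hL.1.image continuous_fst,
        hL.2.image _ continuous_fst.continuousOn⟩ ?_ ⟨_, hwL, rfl⟩ h1
      rintro _ ⟨z, hz, rfl⟩
      exact (hLs hz).1
    · right
      refine ind_exit hU hY hnt hw' ⟨hL.1.image continuous_snd,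
        hL.2.image _ continuous_snd.continuousOn⟩ ?_ ⟨_, hwL, rfl⟩ h1
      rintro _ ⟨z, hz, rfl⟩
      exact (hLs hz).2

end Pool.Agent.Work.MP_e7996b_gt.CH
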