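import Pool.Agent.Work.MP_e7996b_gt.CH.Defs

/-!
# CH/IrrEx (size M): irreducible subcontinua exist

PROOF.  Zorn (`zorn_superset_nonempty` or `zorn_superset`) on the set of all `K ⊆ B` with `IsCont K`, `b0 ∈ K`, `b1 ∈ K`.  The intersection of a nonempty chain of such sets is compact, contains `b0`, `b1`, and is connected: `IsPreconnected` of a directed intersection of compact connected sets in a Hausdorff space
(`IsPreconnected.sInter_of_directed...`; Mathlib may have it; otherwise: if the intersection `K∞ = P ∪ Q` with disjoint nonempty closed sets, take disjoint open `U ⊇ P`, `V ⊇ Q`; the compact sets `K \ (U ∪ V)` are nested with empty intersection, so some `K` of the chain is contained in `U ∪ V` and meets both (it contains `K∞`), contradiction).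
-/

set_option autoImplicit false
set_option linter.unusedSectionVars false

namespace Pool.Agent.Work.MP_e7996b_gt.CH

open Set Topology Filter TN

private theorem irrex_preconn {X : Type*} [MetricSpace X] {c : Set (Set X)} (hc : IsChain (· ⊆ ·) c)
    (hne : c.Nonempty) (hK : ∀ K ∈ c, IsCompact K ∧ IsPreconnected K) : IsPreconnected (⋂₀ c) := by
  haveI : Nonempty c := hne.to_subtype
  have hcomp : IsCompact (⋂₀ c) := by
    obtain ⟨K, hKc⟩ := hne
    exact (hK K hKc).1.of_isClosed_subset (isClosed_sInter fun L hL => (hK L hL).1.isClosed)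
      (sInter_subset_of_mem hKc)
  rw [isPreconnected_closed_iff]
  intro t t' ht ht' hsub h1 h2
  by_contra hcon
  rw [not_nonempty_iff_eq_empty] at hcon
  have hd : Disjoint (⋂₀ c ∩ t) (⋂₀ c ∩ t') := by
    rw [Set.disjoint_left]
    rintro x ⟨hx, hxt⟩ ⟨_, hxt'⟩
    have : x ∈ (⋂₀ c ∩ (t ∩ t')) := ⟨hx, hxt, hxt'⟩
    rw [hcon] at this
    exact this
  obtain ⟨U, V, hU, hV, hIU, hIV, hUV⟩ :=
    SeparatedNhds.of_isCompact_isCompact (hcomp.inter_right ht) (hcomp.inter_right ht') hd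
  have hdir : Directed (· ⊇ ·) (fun K : c => (K : Set X)) := by
    intro K L
    rcases hc.total K.2 L.2 with h | h
    · exact ⟨K, subset_rfl, h⟩
    · exact ⟨L, h, subset_rfl⟩
  obtain ⟨K, hKU⟩ := exists_subset_nhds_of_isCompact (V := fun K : c => (K : Set X)) hdir
    (fun K => (hK K K.2).1) (U := U ∪ V) (by
      intro x hx
      rw [mem_iInter] at hx
      have hxI : x ∈ ⋂₀ c := fun L hL => hx ⟨L, hL⟩
      apply (hU.union hV).mem_nhds
      rcases hsub hxI with h | h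
      · exact Or.inl (hIU ⟨hxI, h⟩)
      · exact Or.inr (hIV ⟨hxI, h⟩))
  obtain ⟨x, hxI, hxt⟩ := h1
  obtain ⟨y, hyI, hyt⟩ := h2
  obtain ⟨z, _, hzU, hzV⟩ := (hK K K.2).2 U V hU hV hKU ⟨x, hxI K K.2, hIU ⟨hxI, hxt⟩⟩
    ⟨y, hyI K K.2, hIV ⟨hyI, hyt⟩⟩
  exact Set.disjoint_left.1 hUV hzU hzV

theorem exists_irr {X : Type*} [MetricSpace X] {B : Set X} (hB : IsCont B) {b0 b1 : X} (h0 : b0 ∈ B)
    (h1 : b1 ∈ B) : ∃ A ⊆ B, Irr A b0 b1 := by
  obtain ⟨A, hAB, hA⟩ := zorn_superset_nonempty {K : Set X | IsCont K ∧ b0 ∈ K ∧ b1 ∈ K} (by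
    intro c hc hchain hne
    have hb0 : b0 ∈ ⋂₀ c := fun K hK => (hc hK).2.1
    have hb1 : b1 ∈ ⋂₀ c := fun K hK => (hc hK).2.2
    refine ⟨⋂₀ c, ⟨⟨?_, ⟨⟨b0, hb0⟩, ?_⟩⟩, hb0, hb1⟩, fun K hK => sInter_subset_of_mem hK⟩
    · obtain ⟨K, hKc⟩ := hne
      exact (hc hKc).1.1.of_isClosed_subset (isClosed_sInter fun L hL => (hc hL).1.1.isClosed)
        (sInter_subset_of_mem hKc)
    · exact irrex_preconn hchain hne fun K hK => ⟨(hc hK).1.1, (hc hK).1.2.isPreconnected⟩)
    B ⟨hB, h0, h1⟩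
  refine ⟨A, hAB, hA.prop.1, hA.prop.2.1, hA.prop.2.2, ?_⟩
  intro K hK hcont hk0 hk1
  exact Subset.antisymm hK (hA.le_of_le ⟨hcont, hk0, hk1⟩ hK)

end Pool.Agent.Work.MP_e7996b_gt.CH
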