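import Pool.Agent.Work.MP_e7996b_gt.CH.Bump

/-!
# CH/Loc (size M): finitely Suslinian continua are connected im kleinen

PROOF.  Let `x ∈ Y`, `ε > 0`, `r = ε / 2`.  If `dist y x ≤ r` for all `y ∈ Y` take `V = Y`, `δ = 1`.  Otherwise `bump` applies (with `x0 = x`) to every `z ∈ Y` with `dist z x ≤ r`.  Put `C z = connectedComponentIn (Y ∩ closedBall x r) z` (compact: component of a compact set; connected).
The set `𝒞 = {C z | z ∈ Y, dist z x ≤ r / 2}` is finite: otherwise take an injective sequence in it (`Set.Infinite.natEmbedding`); its members are pairwise disjoint (two components are equal or disjoint), are subcontinua of `Y` and contain two points `z` (`dist z x ≤ r / 2`) and `y` (`dist y x = r`) of distance `≥ r / 2`: contradiction to `Susl` with `e = r / 2`.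
`V = C x`.  The union `D` of the finitely many members of `𝒞` different from `C x` is closed and does not contain `x` (a component containing `x` is `C x`).  Take `δ ≤ r / 2` with `ball x δ ∩ D = ∅`: for `z ∈ Y ∩ ball x δ`, `C z ∈ 𝒞`, `z ∈ C z`, so `C z = C x` and `z ∈ V`.
-/

set_option autoImplicit false
set_option linter.unusedSectionVars false

namespace Pool.Agent.Work.MP_e7996b_gt.CH

open Set Topology Filter TN

private theorem comp_closed {X : Type*} [TopologicalSpace X] {F : Set X} (hF : IsClosed F) {z : X}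
    (hz : z ∈ F) : IsClosed (connectedComponentIn F z) :=
  isClosed_of_closure_subset (isPreconnected_connectedComponentIn.closure.subset_connectedComponentIn
    (subset_closure (mem_connectedComponentIn hz))
    (closure_minimal (connectedComponentIn_subset F z) hF))

theorem lck_of_susl {X : Type*} [MetricSpace X] [CompactSpace X] {Y : Set X} (hY : IsCont Y) (hS : Susl Y) :
    LCk Y := by
  intro x hx ε hε
  by_cases hcase : ∀ y ∈ Y, dist y x ≤ ε / 2
  · refine ⟨Y, fun y hy => ⟨hy, ?_⟩, hY.2.2, hx, 1, one_pos, fun y hy => hy.1⟩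
    rw [Metric.mem_ball]
    have := hcase y hy
    linarith
  have hex : ∃ y ∈ Y, ε / 2 < dist y x := by
    by_contra hc
    exact hcase fun y hy => not_lt.1 fun h => hc ⟨y, hy, h⟩
  have hFc : IsClosed (Y ∩ Metric.closedBall x (ε / 2)) :=
    hY.1.isClosed.inter Metric.isClosed_closedBall
  have hxF : x ∈ Y ∩ Metric.closedBall x (ε / 2) := ⟨hx, Metric.mem_closedBall_self (by linarith)⟩
  have hmem : ∀ z ∈ Y, dist z x ≤ ε / 2 / 2 → z ∈ Y ∩ Metric.closedBall x (ε / 2) := by
    intro z hz hd
    exact ⟨hz, Metric.mem_closedBall.2 (by linarith)⟩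
  have hfin : (connectedComponentIn (Y ∩ Metric.closedBall x (ε / 2)) ''
      {z | z ∈ Y ∧ dist z x ≤ ε / 2 / 2}).Finite := by
    by_contra hinf
    have hinf' : (connectedComponentIn (Y ∩ Metric.closedBall x (ε / 2)) ''
      {z | z ∈ Y ∧ dist z x ≤ ε / 2 / 2}).Infinite := hinf
    let e := hinf'.natEmbedding
    refine hS (ε / 2 / 2) (by linarith) ⟨fun n => (e n : Set X), fun n => ?_, fun m n hmn => ?_,
      fun n => ?_⟩
    · obtain ⟨z, ⟨hz1, hz2⟩, hz3⟩ := (e n).2
      show IsCont (e n : Set X) ∧ (e n : Set X) ⊆ Y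
      rw [← hz3]
      have hz4 := hmem z hz1 hz2
      exact ⟨⟨(comp_closed hFc hz4).isCompact, ⟨z, mem_connectedComponentIn hz4⟩,
        isPreconnected_connectedComponentIn⟩,
        (connectedComponentIn_subset _ _).trans inter_subset_left⟩
    · rw [Set.disjoint_left]
      intro w hw1 hw2
      apply hmn
      apply e.injective
      apply Subtype.ext
      obtain ⟨z, -, hz3⟩ := (e m).2
      obtain ⟨z', -, hz3'⟩ := (e n).2
      show (e m : Set X) = (e n : Set X)
      have hw1' : w ∈ (e m : Set X) := hw1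
      have hw2' : w ∈ (e n : Set X) := hw2
      rw [← hz3] at hw1' ⊢
      rw [← hz3'] at hw2' ⊢
      rw [connectedComponentIn_eq hw1', connectedComponentIn_eq hw2']
    · obtain ⟨z, ⟨hz1, hz2⟩, hz3⟩ := (e n).2
      have hz4 := hmem z hz1 hz2
      obtain ⟨y, hy1, hy2⟩ := bump hY hz1 (by linarith : dist z x ≤ ε / 2) hex
      refine ⟨z, ?_, y, ?_, ?_⟩
      · show z ∈ (e n : Set X)
        rw [← hz3]
        exact mem_connectedComponentIn hz4
      · show y ∈ (e n : Set X)
        rw [← hz3]
        exact hy1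
      · have := dist_triangle y z x
        rw [dist_comm y z] at this
        linarith
  have hDc : IsClosed (⋃ c ∈ (connectedComponentIn (Y ∩ Metric.closedBall x (ε / 2)) ''
      {z | z ∈ Y ∧ dist z x ≤ ε / 2 / 2}) \
      {connectedComponentIn (Y ∩ Metric.closedBall x (ε / 2)) x}, c) := by
    refine (hfin.subset sdiff_subset).isClosed_biUnion fun c hc => ?_
    obtain ⟨⟨z, ⟨hz1, hz2⟩, rfl⟩, -⟩ := hc
    exact comp_closed hFc (hmem z hz1 hz2)
  have hxD : x ∉ (⋃ c ∈ (connectedComponentIn (Y ∩ Metric.closedBall x (ε / 2)) ''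
      {z | z ∈ Y ∧ dist z x ≤ ε / 2 / 2}) \
      {connectedComponentIn (Y ∩ Metric.closedBall x (ε / 2)) x}, c) := by
    intro h
    obtain ⟨c, ⟨⟨z, -, rfl⟩, hc2⟩, hxc⟩ := mem_iUnion₂.1 h
    exact hc2 (connectedComponentIn_eq hxc)
  obtain ⟨δ, hδ, hδ2⟩ := Metric.isOpen_iff.1 hDc.isOpen_compl x hxD
  refine ⟨connectedComponentIn (Y ∩ Metric.closedBall x (ε / 2)) x, fun y hy => ?_,
    isPreconnected_connectedComponentIn, mem_connectedComponentIn hxF, min δ (ε / 2 / 2),
    lt_min hδ (by linarith), fun z hz => ?_⟩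
  · have h1 := connectedComponentIn_subset _ _ hy
    have h2 := Metric.mem_closedBall.1 h1.2
    exact ⟨h1.1, Metric.mem_ball.2 (by linarith)⟩
  · have h1 := Metric.mem_ball.1 hz.2
    have h2 : dist z x < δ := h1.trans_le (min_le_left _ _)
    have h3 : dist z x < ε / 2 / 2 := h1.trans_le (min_le_right _ _)
    have h4 := hδ2 (Metric.mem_ball.2 h2)
    have h5 : z ∈ connectedComponentIn (Y ∩ Metric.closedBall x (ε / 2)) z :=
      mem_connectedComponentIn (hmem z hz.1 h3.le)
    by_cases h6 : connectedComponentIn (Y ∩ Metric.closedBall x (ε / 2)) z =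
        connectedComponentIn (Y ∩ Metric.closedBall x (ε / 2)) x
    · rw [← h6]
      exact h5
    · exact absurd (mem_iUnion₂.2 ⟨_, ⟨⟨z, ⟨hz.1, h3.le⟩, rfl⟩, h6⟩, h5⟩) h4

end Pool.Agent.Work.MP_e7996b_gt.CH
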