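import Pool.Agent.Work.MP_e7996b_gt.CH.Defs

/-!
# CH/LogSub (size S): logarithms on closed subsets (dimension at most one)

PROOF.  `φ` continuous and nonvanishing on the closed set `B`; `f x = φ x / ‖φ x‖` is continuous on `B` of absolute value `1`.  `exists_ext` (TN/DimExt) gives `H : X → ℂ` continuous, nonvanishing, `‖H x - f x‖ < 1` on `B`.  `HasLog X` gives `H = exp G`.
On `B`: `f x / H x` lies in `Complex.slitPlane`: `‖1 - H x / f x‖ = ‖f x - H x‖ < 1` (`‖f x‖ = 1`), so `H x / f x` has positive real part, so has its inverse (or use `f x = H x / (H x / f x)` and take the logarithm of `H x / f x`).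
`φ x = ‖φ x‖ * f x = exp (log ‖φ x‖ + G x - Complex.log (H x / f x))`; continuous on `B` (`ContinuousOn.clog`, `Real.log` of a continuous positive function).
-/

set_option autoImplicit false
set_option linter.unusedSectionVars false

namespace Pool.Agent.Work.MP_e7996b_gt.CH

open Set Topology Filter TN

theorem logOn_of_closed {X : Type*} [MetricSpace X] [CompactSpace X] (hX : CovDimLeOne X) (hlog : HasLog X)
    {B : Set X} (hB : IsClosed B) : LogOn B := by
  intro φ hφ h0
  have hn0 : ∀ x ∈ B, ((‖φ x‖ : ℝ) : ℂ) ≠ 0 := fun x hx => by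
    rw [Ne, Complex.ofReal_eq_zero, norm_eq_zero]
    exact h0 x hx
  have hf : ContinuousOn (fun x => φ x / ((‖φ x‖ : ℝ) : ℂ)) B :=
    hφ.div (Complex.continuous_ofReal.comp_continuousOn hφ.norm) hn0
  have h1 : ∀ x ∈ B, ‖φ x / ((‖φ x‖ : ℝ) : ℂ)‖ = 1 := fun x hx => by
    rw [norm_div, Complex.norm_real, norm_norm]
    exact div_self (norm_ne_zero_iff.2 (h0 x hx))
  obtain ⟨g, hg, hge⟩ := closed_log hX hlog hB hf h1
  refine ⟨fun x => ((Real.log ‖φ x‖ : ℝ) : ℂ) + g x, ?_, ?_⟩
  · refine ContinuousOn.add ?_ hg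
    refine Complex.continuous_ofReal.comp_continuousOn ?_
    exact hφ.norm.log fun x hx => norm_ne_zero_iff.2 (h0 x hx)
  · intro x hx
    have hpos : 0 < ‖φ x‖ := norm_pos_iff.2 (h0 x hx)
    rw [Complex.exp_add, ← hge x hx, ← Complex.ofReal_exp, Real.exp_log hpos]
    rw [mul_div_cancel₀ _ (hn0 x hx)]

end Pool.Agent.Work.MP_e7996b_gt.CH
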