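import Pool.Agent.Work.MP_e7996b_gt.CH.Gate

/-!
# CH/Trap (size S-M): no trapped pairs

PROOF.  `hE ε hε` gives `δ > 0`.  For the data of `Trap`: `L` from `hE` with `A`, `B`, `w`, `w'` (`Irr.cont`).  For `z ∈ L`: `z.1 ∈ A`, `z.2 ∈ B`, `dist z.1 z.2 ≥ δ`, so `|g z.1 - g z.2| > η`.
The function `z ↦ g z.1 - g z.2` is continuous on the connected set `L` and `> η ≥ 0` at `(w, w')`.  If it were `≤ η` somewhere on `L` it would take the value `η` on `L` (`IsPreconnected.intermediate_value`), but `|η| = η`.  So it is `> η` on `L`.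
`exit_irr` for `A`, `w`, `M = Prod.fst '' L` (`w = (w, w').1 ∈ M`), or for `B`, `w'`, `Prod.snd '' L`: there is `z ∈ L` with `z.1 = a0` or `z.1 = a1` or `z.2 = b0` or `z.2 = b1`; then `g z.1 - g z.2 ≤ η` by the hypotheses (`y = z.2 ∈ B`, `x = z.1 ∈ A`), contradiction.
-/

set_option autoImplicit false
set_option linter.unusedSectionVars false

namespace Pool.Agent.Work.MP_e7996b_gt.CH

open Set Topology Filter TN

theorem trap_of {X : Type*} [MetricSpace X] [CompactSpace X] (hU : Unic X) (hE : CEsc X) {ε : ℝ} (hε : 0 < ε) :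
    ∃ δ > 0, Trap X ε δ := by
  obtain ⟨δ, hδ, hL⟩ := hE ε hε
  refine ⟨δ, hδ, ?_⟩
  intro A B a0 a1 b0 b1 w w' g η hη hA hB hw hw' hd hg hnear hgw hA0 hA1 hB0 hB1
  obtain ⟨L, hLc, hLsub, hLmem, hLδ, hLE⟩ := hL A B w w' hA.cont hB.cont hw hw' hd
  have hφ : Continuous fun z : X × X => g z.1 - g z.2 := (hg.comp continuous_fst).sub (hg.comp continuous_snd)
  have hnot : ∀ z ∈ L, ¬ |g z.1 - g z.2| ≤ η := by
    intro z hz h
    exact absurd (hLδ z hz) (not_le.2 (hnear z.1 (hLsub hz).1 z.2 (hLsub hz).2 h))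
  have hpos : ∀ z ∈ L, η < g z.1 - g z.2 := by
    intro z hz
    by_contra hle
    rw [not_lt] at hle
    obtain ⟨y, hy, hy'⟩ : η ∈ (fun z : X × X => g z.1 - g z.2) '' L :=
      hLc.2.isPreconnected.intermediate_value hz hLmem hφ.continuousOn ⟨hle, hgw.le⟩
    apply hnot y hy
    change g y.1 - g y.2 = η at hy'
    rw [hy', abs_of_nonneg hη]
  rcases hLE with hLE | hLE
  · have hwM : w ∈ Prod.fst '' L := ⟨(w, w'), hLmem, rfl⟩
    rcases exit_irr hU hA hw hwM hLE with ⟨z, hz, hz0⟩ | ⟨z, hz, hz0⟩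
    · have h1 := hpos z hz
      have h2 := hA0 z.2 (hLsub hz).2
      rw [← hz0] at h2
      linarith
    · have h1 := hpos z hz
      have h2 := hA1 z.2 (hLsub hz).2
      rw [← hz0] at h2
      linarith
  · have hwM : w' ∈ Prod.snd '' L := ⟨(w, w'), hLmem, rfl⟩
    rcases exit_irr hU hB hw' hwM hLE with ⟨z, hz, hz0⟩ | ⟨z, hz, hz0⟩
    · have h1 := hpos z hz
      have h2 := hB0 z.1 (hLsub hz).1
      rw [← hz0] at h2
      linarith
    · have h1 := hpos z hz
      have h2 := hB1 z.1 (hLsub hz).1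
      rw [← hz0] at h2
      linarith

end Pool.Agent.Work.MP_e7996b_gt.CH
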