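import Pool.Agent.Work.MP_e7996b_gt.CH.LogSub

/-!
# CH/Unic (size M): hereditary unicoherence

PROOF.  Let `K`, `L` be continua with `K ∩ L` nonempty and not preconnected: there are disjoint closed nonempty `P`, `Q` with `P ∪ Q = K ∩ L` (`isPreconnected_closed_iff` or `split`-style; `K ∩ L` is compact).  Urysohn (`exists_continuous_zero_one_of_isClosed`): `u : X → ℝ` continuous, `u = 0` on `P`, `u = 1` on `Q`.
Define `f x = exp (iπ u x)` for `x ∈ K` and `f x = exp (-iπ u x)` for `x ∉ K`: continuous on the closed set `K ∪ L` (on `K ∩ L` the two formulas agree: `u ∈ {0, 1}`; `ContinuousOn.union_of_isClosed`-style lemma or `continuousOn` on each of the closed sets `K`, `L` and `ContinuousOn.union_isClosed`), nonvanishing.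
`logOn_of_closed` for `K ∪ L`: `f = exp g` on `K ∪ L`.  On `K` the function `g - iπ u` is continuous with `exp = 1`, `K` connected: constant (`exp_one_const` in TN/Ang).  On `L` `g + iπ u` is constant.  Take `x ∈ P`, `y ∈ Q` (both in `K ∩ L`): `g x = g y - iπ` and `g x = g y + iπ`, so `2 iπ = 0`, impossible.
-/

set_option autoImplicit false
set_option linter.unusedSectionVars false

namespace Pool.Agent.Work.MP_e7996b_gt.CH

open Set Topology Filter TN

theorem unic {X : Type*} [MetricSpace X] [CompactSpace X] (hX : CovDimLeOne X) (hlog : HasLog X) : Unic X := by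
  classical
  intro K L hK hL hne
  refine ⟨hne, ?_⟩
  by_contra hcon
  rw [isPreconnected_closed_iff] at hcon
  push Not at hcon
  obtain ⟨t, t', ht, ht', hsub, hn1, hn2, hemp⟩ := hcon
  have hKc : IsClosed K := hK.1.isClosed
  have hLc : IsClosed L := hL.1.isClosed
  have hPc : IsClosed ((K ∩ L) ∩ t) := (hKc.inter hLc).inter ht
  have hQc : IsClosed ((K ∩ L) ∩ t') := (hKc.inter hLc).inter ht'
  have hdis : Disjoint ((K ∩ L) ∩ t) ((K ∩ L) ∩ t') := by
    rw [Set.disjoint_left]
    intro x hx hx'
    have h1 : x ∈ (K ∩ L) ∩ (t ∩ t') := ⟨hx.1, hx.2, hx'.2⟩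
    rw [hemp] at h1
    exact h1
  obtain ⟨u, hu0, hu1, -⟩ := exists_continuous_zero_one_of_isClosed hPc hQc hdis
  have hu : ∀ x ∈ K ∩ L, u x = 0 ∨ u x = 1 := by
    intro x hx
    rcases hsub hx with h | h
    · exact Or.inl (hu0 ⟨hx, h⟩)
    · exact Or.inr (hu1 ⟨hx, h⟩)
  obtain ⟨F1, hF1⟩ : ∃ F1 : X → ℂ, F1 = fun x => Complex.exp (Real.pi * u x * Complex.I) :=
    ⟨_, rfl⟩
  obtain ⟨F2, hF2⟩ : ∃ F2 : X → ℂ, F2 = fun x => Complex.exp (-(Real.pi * u x * Complex.I)) :=
    ⟨_, rfl⟩
  have hucont : Continuous fun x => (u x : ℂ) := Complex.continuous_ofReal.comp u.continuous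
  have hF1c : Continuous F1 := by
    rw [hF1]
    exact Complex.continuous_exp.comp ((continuous_const.mul hucont).mul continuous_const)
  have hF2c : Continuous F2 := by
    rw [hF2]
    exact Complex.continuous_exp.comp ((continuous_const.mul hucont).mul continuous_const).neg
  have hagree : ∀ x ∈ K ∩ L, F1 x = F2 x := by
    intro x hx
    rw [hF1, hF2]
    show Complex.exp (Real.pi * u x * Complex.I) = Complex.exp (-(Real.pi * u x * Complex.I))
    rcases hu x hx with h | h
    · rw [h]
      simp
    · rw [h, Complex.exp_neg]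
      simp only [Complex.ofReal_one, mul_one, Complex.exp_pi_mul_I]
      norm_num
  obtain ⟨f, hf⟩ : ∃ f : X → ℂ, f = fun x => if x ∈ K then F1 x else F2 x := ⟨_, rfl⟩
  have hfK : ∀ x ∈ K, f x = F1 x := by
    intro x hx
    rw [hf]
    exact if_pos hx
  have hfL : ∀ x ∈ L, f x = F2 x := by
    intro x hx
    by_cases hxK : x ∈ K
    · rw [hfK x hxK]
      exact hagree x ⟨hxK, hx⟩
    · rw [hf]
      exact if_neg hxK
  have hfc : ContinuousOn f (K ∪ L) :=
    ContinuousOn.union_of_isClosed (hF1c.continuousOn.congr hfK) (hF2c.continuousOn.congr hfL)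
      hKc hLc
  have hf0 : ∀ x ∈ K ∪ L, f x ≠ 0 := by
    intro x hx
    rcases hx with h | h
    · rw [hfK x h, hF1]
      exact Complex.exp_ne_zero _
    · rw [hfL x h, hF2]
      exact Complex.exp_ne_zero _
  obtain ⟨g, hgc, hg⟩ := logOn_of_closed hX hlog (hKc.union hLc) f hfc hf0
  obtain ⟨x, hx⟩ := hn1
  obtain ⟨y, hy⟩ := hn2
  have hux : u x = 0 := hu0 hx
  have huy : u y = 1 := hu1 hy
  have e1 : g x - Real.pi * u x * Complex.I = g y - Real.pi * u y * Complex.I := by
    refine exp_one_const (h := fun z => g z - Real.pi * u z * Complex.I) hK.2.isPreconnected ?_ ?_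
      hx.1.1 hy.1.1
    · exact (hgc.mono subset_union_left).sub
        (((continuous_const.mul hucont).mul continuous_const).continuousOn)
    · intro z hz
      have h1 := hg z (Or.inl hz)
      rw [hfK z hz, hF1] at h1
      show Complex.exp (g z - Real.pi * u z * Complex.I) = 1
      rw [Complex.exp_sub, ← h1, div_self (Complex.exp_ne_zero _)]
  have e2 : g x + Real.pi * u x * Complex.I = g y + Real.pi * u y * Complex.I := by
    refine exp_one_const (h := fun z => g z + Real.pi * u z * Complex.I) hL.2.isPreconnected ?_ ?_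
      hx.1.2 hy.1.2
    · exact (hgc.mono subset_union_right).add
        (((continuous_const.mul hucont).mul continuous_const).continuousOn)
    · intro z hz
      have h1 := hg z (Or.inr hz)
      rw [hfL z hz, hF2] at h1
      show Complex.exp (g z + Real.pi * u z * Complex.I) = 1
      rw [Complex.exp_add, ← h1, ← Complex.exp_add, neg_add_cancel, Complex.exp_zero]
  rw [hux, huy] at e1 e2
  have h3 : (Real.pi : ℂ) * Complex.I = 0 := by
    simp only [Complex.ofReal_zero, Complex.ofReal_one, mul_zero, zero_mul, mul_one, sub_zero,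
      add_zero] at e1 e2
    have h4 : g y - Real.pi * Complex.I = g y + Real.pi * Complex.I := e1.symm.trans e2
    linear_combination (-1 / 2 : ℂ) * h4
  rcases mul_eq_zero.1 h3 with h4 | h4
  · exact Real.pi_ne_zero (Complex.ofReal_eq_zero.1 h4)
  · exact Complex.I_ne_zero h4

end Pool.Agent.Work.MP_e7996b_gt.CH
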