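import Pool.Agent.Work.MP_e7996b_gt.CH.Red
import Pool.Agent.Work.MP_e7996b_gt.CH.Unic
import Pool.Agent.Work.MP_e7996b_gt.CH.Esc
import Pool.Agent.Work.MP_e7996b_gt.CH.Trap
import Pool.Agent.Work.MP_e7996b_gt.CH.Fin3
import Pool.Agent.Work.MP_e7996b_gt.CH.Loc
import Pool.Agent.Work.MP_e7996b_gt.CH.Ends
import Pool.Agent.Work.MP_e7996b_gt.CH.Height
import Pool.Agent.Work.MP_e7996b_gt.CH.Arc
import Pool.Agent.Work.MP_e7996b_gt.CH.Ind3

/-!
# CH/Main (by helper83): assembly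
-/

set_option autoImplicit false
set_option linter.unusedSectionVars false

namespace Pool.Agent.Work.MP_e7996b_gt.CH

open Set Topology Filter TN

theorem main_unic.{u, v} {X : Type u} [MetricSpace X] [CompactSpace X] (hU : Unic X)
    (h : PseudoContractible.{u, v} X) :
    (∀ Y : Set X, IsCont Y → Y.Nontrivial → Chainable Y → Nonempty (Y ≃ₜ unitInterval)) ∧
    ∀ Y : Set X, Indecomposable Y → Y.Nontrivial → ∀ w ∈ Y, ∀ w' ∈ Y, w ≠ w' →
      ∃ L : Set (X × X), IsCont L ∧ L ⊆ Y ×ˢ Y ∧ (w, w') ∈ L ∧ (∀ z ∈ L, z.1 ≠ z.2) ∧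
        (Prod.fst '' L = Y ∨ Prod.snd '' L = Y) := by
  obtain ⟨P, _, _, _, a, b, p, F, hF, ha, hb⟩ := exists_metric_param h
  have hE : CEsc X := cesc_of hF ha hb
  refine ⟨fun Y hY hnt hch => ?_, fun Y hY hnt w hw w' hw' hne => ind_semispan hU hE hY hnt hw hw' hne⟩
  have hT : ∀ ε > 0, ∃ δ > 0, Trap X ε δ := fun ε hε => trap_of hU hE hε
  have hlc : LCk Y := lck_of_susl hY (susl_of hT hY hch)
  obtain ⟨y0, y1, hI⟩ := exists_ends hY hch hlc
  obtain ⟨f, hf, hinj⟩ := exists_height hI hlc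
  exact arc_of_inj hY hnt hf hinj

theorem unic_of_dim.{u, v} {X : Type u} [MetricSpace X] [CompactSpace X] (hX : CovDimLeOne X)
    (h : PseudoContractible.{u, v} X) : Unic X := by
  obtain ⟨C, _, _, _, a, b, p, H, hH⟩ := h
  exact unic hX (hasLog_of H.continuous (fun x => (hH x).1) (fun x => (hH x).2))

end Pool.Agent.Work.MP_e7996b_gt.CH
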