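import Pool.Agent.Work.MP_e7996b_gt.CH.Sides

/-!
# CH/Ord (size M): the order of `Y`

`DD Y y0 w` = the points in all subcontinua of `Y` containing `y0` and `w`.  If `w ∉ DD Y y0 w'` then `Jn Y w y0 w'` (unfold).
PROOF of `dd_trans`: a continuum `K ∋ y0, w'` contains `w`, so it contains `z`.
PROOF of `dd_comp`: if `w = w'`: `w ∈ DD w`.  If `w = y0` or `w' = y0`: clear.  If `w = y1`: every continuum containing `y0`, `y1` is `Y ∋ w'`, so `w' ∈ DD w`; the same if `w' = y1`.  Otherwise suppose `Jn Y w y0 w'` and `Jn Y w' y0 w`.  `reach` for the point `w` and `x = y1`: a continuum `K ∋ y1, w` with `Jn Y w y1 z` for all `z ∈ K`, `z ≠ w`.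
`w' ∉ K`, otherwise `Jn Y w w' y1` and `Jn Y w y0 w'` contradict `sides_not`.  So `Jn Y w' w y1`, and with `Jn Y w' y0 w` again a contradiction to `sides_not` (at `w'`).
PROOF of `dd_anti`: let `w ≠ w'`.  If `w = y0`: `{y0}` is a continuum containing `y0` and `w`, so `w' = y0`.  If `w' = y0` the same.  So `w, w' ≠ y0`.  One of them is `≠ y1`; by symmetry let `w' ≠ y1` (the hypotheses are symmetric).  `reach` at `w'` with `x = y0`: a continuum `K ∋ y0, w'` with `Jn Y w' y0 z` for all `z ∈ K`, `z ≠ w'`.  As `w ∈ DD w'`: `w ∈ K`, so `Jn Y w' y0 w`; then `w' ∉ DD w` (the continuum of `Jn` contains `y0`, `w` and misses `w'`), contradiction.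
-/

set_option autoImplicit false
set_option linter.unusedSectionVars false

namespace Pool.Agent.Work.MP_e7996b_gt.CH

open Set Topology Filter TN

theorem dd_self {X : Type*} [TopologicalSpace X] {Y : Set X} {y0 w : X} : w ∈ DD Y y0 w :=
  fun _ _ _ _ h => h

theorem dd_subset {X : Type*} [TopologicalSpace X] {Y : Set X} (hY : IsCont Y) {y0 w : X} (h0 : y0 ∈ Y)
    (hw : w ∈ Y) : DD Y y0 w ⊆ Y :=
  fun _ hz => hz Y Subset.rfl hY h0 hw

theorem dd_closed {X : Type*} [MetricSpace X] {Y : Set X} {y0 w : X} : IsClosed (DD Y y0 w) := by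
  have h : DD Y y0 w = ⋂ K ∈ {K : Set X | K ⊆ Y ∧ IsCont K ∧ y0 ∈ K ∧ w ∈ K}, K := by
    ext z
    rw [mem_iInter₂]
    exact ⟨fun hz K hK => hz K hK.1 hK.2.1 hK.2.2.1 hK.2.2.2,
      fun hz K h1 h2 h3 h4 => hz K ⟨h1, h2, h3, h4⟩⟩
  rw [h]
  exact isClosed_biInter fun K hK => hK.2.1.1.isClosed

theorem dd_trans {X : Type*} [TopologicalSpace X] {Y : Set X} {y0 w w' : X} (h : w ∈ DD Y y0 w') :
    DD Y y0 w ⊆ DD Y y0 w' :=
  fun _ hz K h1 h2 h3 h4 => hz K h1 h2 h3 (h K h1 h2 h3 h4)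

private theorem jn_of_not {X : Type*} [TopologicalSpace X] {Y : Set X} {y0 w w' : X}
    (h : w ∉ DD Y y0 w') : Jn Y w y0 w' := by
  by_contra hc
  apply h
  intro K h1 h2 h3 h4
  by_contra h5
  exact hc ⟨K, h1, h2, h3, h4, h5⟩

private theorem not_of_jn {X : Type*} [TopologicalSpace X] {Y : Set X} {y0 w w' : X}
    (h : Jn Y w y0 w') : w ∉ DD Y y0 w' := by
  obtain ⟨K, h1, h2, h3, h4, h5⟩ := h
  exact fun h6 => h5 (h6 K h1 h2 h3 h4)

theorem dd_comp {X : Type*} [MetricSpace X] [CompactSpace X] {Y : Set X} {y0 y1 : X} (hY : Irr Y y0 y1)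
    (hlc : LCk Y) {w w' : X} (hw : w ∈ Y) (hw' : w' ∈ Y) : w ∈ DD Y y0 w' ∨ w' ∈ DD Y y0 w := by
  by_contra hc
  rw [not_or] at hc
  have h1 := jn_of_not hc.1
  have h2 := jn_of_not hc.2
  have hwy : y1 ≠ w := by
    rintro rfl
    obtain ⟨K, a1, a2, a3, a4, a5⟩ := h2
    rw [hY.min K a1 a2 a3 a4] at a5
    exact a5 hw'
  obtain ⟨K, a1, a2, a3, a4, a5⟩ := reach hY.cont hlc hw hY.right hwy
  have hne : w' ≠ w := by
    rintro rfl
    exact hc.1 dd_self
  by_cases h3 : w' ∈ K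
  · exact sides_not hY hw h1 (a5 w' h3 hne).symm
  · exact sides_not hY hw' h2 ⟨K, a1, a2, a4, a3, h3⟩

theorem dd_anti {X : Type*} [MetricSpace X] [CompactSpace X] {Y : Set X} {y0 y1 : X} (hY : Irr Y y0 y1)
    (hlc : LCk Y) {w w' : X} (hw : w ∈ Y) (hw' : w' ∈ Y) (h : w ∈ DD Y y0 w') (h' : w' ∈ DD Y y0 w) :
    w = w' := by
  by_cases h0 : y0 = w'
  · subst h0
    exact mem_singleton_iff.1 (h {y0} (singleton_subset_iff.2 hY.left)
      ⟨isCompact_singleton, isConnected_singleton⟩ rfl rfl)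
  · by_contra hne
    obtain ⟨K, a1, a2, a3, a4, a5⟩ := reach hY.cont hlc hw' hY.left h0
    exact not_of_jn (a5 w (h K a1 a2 a3 a4) hne) h'

/-- continuity of `w ↦ DD w` -/
theorem dd_near {X : Type*} [MetricSpace X] [CompactSpace X] {Y : Set X} (hY : IsCont Y) {y0 : X}
    {V : Set X} (hV : IsPreconnected V) (hVY : V ⊆ Y) {w w' : X} (hw : w ∈ V) (hw' : w' ∈ V) :
    DD Y y0 w' ⊆ DD Y y0 w ∪ closure V := by
  intro z hz
  by_cases hzV : z ∈ closure V
  · exact Or.inr hzV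
  · left
    intro K h1 h2 h3 h4
    have h5 := hz (K ∪ closure V) (union_subset h1 (closure_minimal hVY hY.1.isClosed))
      ⟨h2.1.union isClosed_closure.isCompact, h2.2.union ⟨w, h4, subset_closure hw⟩
        ⟨⟨w, subset_closure hw⟩, hV.closure⟩⟩ (Or.inl h3) (Or.inr (subset_closure hw'))
    exact h5.resolve_right hzV

end Pool.Agent.Work.MP_e7996b_gt.CH
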