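import Pool.Agent.Work.MP_e7996b_gt.CH.TLem

/-!
# CH/Pair (size M): two points at the same time

PROOF of `pair_ne`.  `Z = Zc F A w a` is a continuum (component of a compact set: closed in it, so compact; connected).  For `(y, b) ∈ Z` we would have `w = F (y, b) = p`, so no point of `Z` has second coordinate `b`; hence, by `tlemma` for `A`, `Exit w A (Prod.fst '' Z)`.
Second step: the parameter space `P = ↥Z` (compact, Hausdorff, connected), `F1 : X × ↥Z → X`, `F1 (y', z) = F (y', z.1.2)`, base point `z0 = ⟨(w, a), _⟩`: `F1 (y', z0) = y'`.  `Z' = Zc F1 B w' z0`, a continuum in `X × ↥Z`.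
`L` = the image of `Z'` under `(y', z) ↦ (z.1.1, y')`: a continuum, contained in `A ×ˢ B`, contains `(w, w')`, and every `(y, y') ∈ L` has `c = z.1.2` with `F (y, c) = w` (as `z.1 ∈ Z`), `F (y', c) = w'`.
If every `z : ↥Z` is the second coordinate of a point of `Z'` then `Prod.fst '' L = Prod.fst '' Z`, which has the exit property for `w`, `A`.  Otherwise the third alternative of `tlemma` for `F1` is false for all pairs, so `Exit w' B (Prod.snd '' L)` (`Prod.snd '' L` = the first coordinates of `Z'`).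
PROOF of `pair`.  `w ≠ w'`, so `w ≠ p` or `w' ≠ p`.  In the second case apply `pair_ne` with the roles of `(A, w)` and `(B, w')` exchanged and take the image of `L` under `Prod.swap`.
-/

set_option autoImplicit false
set_option linter.unusedSectionVars false

namespace Pool.Agent.Work.MP_e7996b_gt.CH

open Set Topology Filter TN

private theorem zc_cont {X P : Type*} [MetricSpace X] [TopologicalSpace P] [CompactSpace P]
    [T2Space P] {F : X × P → X} (hF : Continuous F) {a : P} (ha : ∀ x, F (x, a) = x) {B : Set X}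
    (hB : IsCont B) {w : X} (hw : w ∈ B) : IsCont (Zc F B w a) ∧ Zc F B w a ⊆ (B ×ˢ (univ : Set P)) ∩ F ⁻¹' {w} ∧
      (w, a) ∈ Zc F B w a := by
  have hΦ : IsCompact ((B ×ˢ (univ : Set P)) ∩ F ⁻¹' {w}) :=
    (hB.1.prod isCompact_univ).inter_right (isClosed_singleton.preimage hF)
  have hmem : (w, a) ∈ (B ×ˢ (univ : Set P)) ∩ F ⁻¹' {w} := ⟨⟨hw, mem_univ _⟩, ha w⟩
  have h2 : Zc F B w a ⊆ (B ×ˢ (univ : Set P)) ∩ F ⁻¹' {w} := connectedComponentIn_subset _ _
  have h1 : IsClosed (Zc F B w a) := by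
    rw [← closure_subset_iff_isClosed]
    exact isPreconnected_connectedComponentIn.closure.subset_connectedComponentIn
      (subset_closure (mem_connectedComponentIn hmem)) (closure_minimal h2 hΦ.isClosed)
  exact ⟨⟨hΦ.of_isClosed_subset h1 h2, isConnected_connectedComponentIn_iff.2 hmem⟩, h2,
    mem_connectedComponentIn hmem⟩

theorem pair_ne {X C : Type*} [MetricSpace X] [CompactSpace X] [TopologicalSpace C] [CompactSpace C] [T2Space C]
    [PreconnectedSpace C] {F : X × C → X} (hF : Continuous F) {a b : C} {p : X} (ha : ∀ x, F (x, a) = x)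
    (hb : ∀ x, F (x, b) = p) {A B : Set X} (hA : IsCont A) (hB : IsCont B) {w w' : X} (hw : w ∈ A)
    (hw' : w' ∈ B) (hwp : w ≠ p) :
    ∃ L : Set (X × X), IsCont L ∧ L ⊆ A ×ˢ B ∧ (w, w') ∈ L ∧
      (∀ z ∈ L, ∃ c, F (z.1, c) = w ∧ F (z.2, c) = w') ∧
      (Exit w A (Prod.fst '' L) ∨ Exit w' B (Prod.snd '' L)) := by
  obtain ⟨hZ, hZsub, hZmem⟩ := zc_cont hF ha hA hw
  have hZb : ∀ y c, (y, c) ∈ Zc F A w a → c ≠ b := by
    intro y c hyc hcb
    subst hcb
    have h1 : F (y, c) = w := (hZsub hyc).2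
    rw [hb y] at h1
    exact hwp h1.symm
  have hEx : Exit w A (Prod.fst '' (Zc F A w a)) := by
    intro a0 ha0 a1 ha1 hsep
    rcases tlemma hF ha hA hw ha0 ha1 hsep with ⟨c, hc⟩ | ⟨c, hc⟩ | hc
    · exact Or.inl ⟨_, hc, rfl⟩
    · exact Or.inr ⟨_, hc, rfl⟩
    · obtain ⟨y, hy⟩ := hc b
      exact absurd rfl (hZb y b hy)
  have cZ : CompactSpace (Zc F A w a) := isCompact_iff_compactSpace.1 hZ.1
  have pZ : ConnectedSpace (Zc F A w a) := isConnected_iff_connectedSpace.1 hZ.2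
  obtain ⟨F1, hF1def⟩ : ∃ F1 : X × (Zc F A w a) → X, F1 = fun z => F (z.1, z.2.1.2) := ⟨_, rfl⟩
  have hF1 : Continuous F1 := by
    rw [hF1def]
    exact hF.comp (continuous_fst.prodMk (continuous_snd.comp (continuous_subtype_val.comp continuous_snd)))
  obtain ⟨z0, hz0⟩ : ∃ z0 : Zc F A w a, z0.1 = (w, a) := ⟨⟨_, hZmem⟩, rfl⟩
  have ha1 : ∀ y, F1 (y, z0) = y := by
    intro y
    rw [hF1def]
    show F (y, z0.1.2) = y
    rw [hz0]
    exact ha y
  obtain ⟨hZ', hZ'sub, hZ'mem⟩ := zc_cont hF1 ha1 hB hw'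
  obtain ⟨π, hπ⟩ : ∃ π : X × (Zc F A w a) → X × X, π = fun z => (z.2.1.1, z.1) := ⟨_, rfl⟩
  have hπc : Continuous π := by
    rw [hπ]
    exact (continuous_fst.comp (continuous_subtype_val.comp continuous_snd)).prodMk continuous_fst
  refine ⟨π '' (Zc F1 B w' z0), ⟨hZ'.1.image hπc, hZ'.2.image _ hπc.continuousOn⟩, ?_, ?_, ?_, ?_⟩
  · rintro _ ⟨z, hz, rfl⟩
    rw [hπ]
    exact ⟨(hZsub z.2.2).1.1, (hZ'sub hz).1.1⟩
  · refine ⟨(w', z0), hZ'mem, ?_⟩
    rw [hπ]
    show (z0.1.1, w') = (w, w')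
    rw [hz0]
  · rintro _ ⟨z, hz, rfl⟩
    rw [hπ]
    refine ⟨z.2.1.2, (hZsub z.2.2).2, ?_⟩
    have h1 : F1 z = w' := (hZ'sub hz).2
    rw [hF1def] at h1
    exact h1
  · by_cases hall : ∀ z : Zc F A w a, ∃ y, (y, z) ∈ Zc F1 B w' z0
    · left
      have e : Prod.fst '' (Zc F A w a) ⊆ Prod.fst '' (π '' (Zc F1 B w' z0)) := by
        rintro _ ⟨z, hz, rfl⟩
        obtain ⟨y, hy⟩ := hall ⟨z, hz⟩
        refine ⟨π (y, ⟨z, hz⟩), ⟨_, hy, rfl⟩, ?_⟩
        rw [hπ]
      intro a0 ha0 a1 ha1' hsep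
      rcases hEx a0 ha0 a1 ha1' hsep with h1 | h1
      · exact Or.inl (e h1)
      · exact Or.inr (e h1)
    · right
      intro b0 hb0 b1 hb1 hsep
      rcases tlemma hF1 ha1 hB hw' hb0 hb1 hsep with ⟨c, hc⟩ | ⟨c, hc⟩ | hc
      · refine Or.inl ⟨π (b0, c), ⟨_, hc, rfl⟩, ?_⟩
        rw [hπ]
      · refine Or.inr ⟨π (b1, c), ⟨_, hc, rfl⟩, ?_⟩
        rw [hπ]
      · exact absurd hc hall

theorem pair {X C : Type*} [MetricSpace X] [CompactSpace X] [TopologicalSpace C] [CompactSpace C] [T2Space C]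
    [PreconnectedSpace C] {F : X × C → X} (hF : Continuous F) {a b : C} {p : X} (ha : ∀ x, F (x, a) = x)
    (hb : ∀ x, F (x, b) = p) {A B : Set X} (hA : IsCont A) (hB : IsCont B) {w w' : X} (hw : w ∈ A)
    (hw' : w' ∈ B) (hne : w ≠ w') :
    ∃ L : Set (X × X), IsCont L ∧ L ⊆ A ×ˢ B ∧ (w, w') ∈ L ∧
      (∀ z ∈ L, ∃ c, F (z.1, c) = w ∧ F (z.2, c) = w') ∧
      (Exit w A (Prod.fst '' L) ∨ Exit w' B (Prod.snd '' L)) := by
  by_cases hwp : w = p
  · have hwp' : w' ≠ p := fun h => hne (hwp.trans h.symm)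
    obtain ⟨L, hL, hLsub, hLmem, hLF, hLE⟩ := pair_ne hF ha hb hB hA hw' hw hwp'
    have e1 : Prod.fst '' (Prod.swap '' L) = Prod.snd '' L := by
      rw [image_image]
      rfl
    have e2 : Prod.snd '' (Prod.swap '' L) = Prod.fst '' L := by
      rw [image_image]
      rfl
    refine ⟨Prod.swap '' L, ⟨hL.1.image continuous_swap, hL.2.image _ continuous_swap.continuousOn⟩, ?_,
      ⟨(w', w), hLmem, rfl⟩, ?_, ?_⟩
    · rintro _ ⟨z, hz, rfl⟩
      exact ⟨(hLsub hz).2, (hLsub hz).1⟩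
    · rintro _ ⟨z, hz, rfl⟩
      obtain ⟨c, h1, h2⟩ := hLF z hz
      exact ⟨c, h2, h1⟩
    · rw [e1, e2]
      exact hLE.symm
  · exact pair_ne hF ha hb hA hB hw hw' hwp

end Pool.Agent.Work.MP_e7996b_gt.CH
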