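import Pool.Agent.Work.MP_e7996b_gt.CH.Defs

/-!
# CH/Red (size S-M): reduction to a metric parameter continuum

PROOF.  `C(X, X)` is a metric space (`X` compact) and evaluation `X × C(X, X) → X` is continuous.  From `h : PseudoContractible X` get `C, a, b, p, H`; the map `c ↦ H (·, c)` is continuous `C → C(X, X)` (`ContinuousMap.curry` of `H` composed with the swap, or `(H.comp prodSwap).curry`); its range `K` is compact and connected.
Take the subtype `↥K` as new parameter space (`isCompact_iff_compactSpace`, `isConnected_iff_connectedSpace`), `F (x, k) = k.1 x` (continuous: `ContinuousMap.continuous_eval` / `continuous_eval'` style lemma, `fun_prop` may help), points: the images of `a`, `b`.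
-/

set_option autoImplicit false
set_option linter.unusedSectionVars false

namespace Pool.Agent.Work.MP_e7996b_gt.CH

open Set Topology Filter TN

theorem exists_metric_param.{u, v} {X : Type u} [MetricSpace X] [CompactSpace X]
    (h : PseudoContractible.{u, v} X) :
    ∃ (P : Type u) (_ : MetricSpace P) (_ : CompactSpace P) (_ : ConnectedSpace P) (a b : P) (p : X)
      (F : X × P → X), Continuous F ∧ (∀ x, F (x, a) = x) ∧ ∀ x, F (x, b) = p := by
  obtain ⟨C, _, _, _, a, b, p, H, hH⟩ := h
  let G : C(C, C(X, X)) := ContinuousMap.curry ⟨fun z : C × X => H (z.2, z.1), by fun_prop⟩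
  have hG : ∀ c x, G c x = H (x, c) := fun c x => rfl
  have hK1 : IsCompact (range G) := isCompact_range G.continuous
  have hK2 : IsConnected (range G) := isConnected_range G.continuous
  refine ⟨↥(range G), inferInstance, isCompact_iff_compactSpace.1 hK1,
    isConnected_iff_connectedSpace.1 hK2, ⟨G a, mem_range_self a⟩, ⟨G b, mem_range_self b⟩, p,
    fun z => (z.2 : C(X, X)) z.1, ?_, fun x => ?_, fun x => ?_⟩
  · fun_prop
  · show G a x = x
    rw [hG]
    exact (hH x).1
  · show G b x = p
    rw [hG]
    exact (hH x).2

end Pool.Agent.Work.MP_e7996b_gt.CH
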