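import Pool.Agent.Work.MP_e7996b_gt.CH.Defs

/-!
# CH/Sides (size M): the two sides of a point

Let `w ∈ Y`, `w ≠ y0, y1`.  For `x ∈ Y`, `x ≠ w`, let `O x = {z | z ≠ w ∧ Jn Y w x z}` (`Jn` is symmetric, transitive: union of two continua with a common point, reflexive for `x ∈ Y`, `x ≠ w`: `{x}`).
OPEN: if `z ∈ O x` there is `δ > 0` with `Y ∩ ball z δ ⊆ O x`: `LCk` at `z` with `ε' = dist z w / 2` gives `V`; its closure is a continuum (contained in `Y` and in `closedBall z ε'`, so it misses `w`).  Also every point `z ∈ Y`, `z ≠ w` not in `O x` has a neighbourhood in `Y` missing `O x`.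
`w ∈ closure (O x)`: otherwise `O x` and `Y \ O x` are relatively open in `Y`, nonempty (`x`, `w`): contradiction.  `K x = O x ∪ {w}` is connected (`O x` is connected: every point is joined to `x` by a continuum inside `O x`; `IsConnected` of a set between `O x` and its closure) and closed (compact).  So `K x` is a continuum, `K x ⊆ Y`.
`reach`: `K y0`, `K y1`.  PROOF of `sides_not`: the union of the two continua contains `y0`, `y1` and misses `w`; `hY.min`.
PROOF of `sides_or`: `K y0 ∪ K y1` is a continuum (common point `w`) in `Y` containing `y0`, `y1`, so it is `Y ∋ x`; `x ≠ w`, so `x ∈ O y0` or `x ∈ O y1`.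
-/

set_option autoImplicit false
set_option linter.unusedSectionVars false

namespace Pool.Agent.Work.MP_e7996b_gt.CH

open Set Topology Filter TN

theorem Jn.symm {X : Type*} [TopologicalSpace X] {Y : Set X} {w x y : X} (h : Jn Y w x y) : Jn Y w y x := by
  obtain ⟨K, h1, h2, h3, h4, h5⟩ := h
  exact ⟨K, h1, h2, h4, h3, h5⟩

theorem Jn.trans {X : Type*} [TopologicalSpace X] {Y : Set X} {w x y z : X} (h : Jn Y w x y)
    (h' : Jn Y w y z) : Jn Y w x z := by
  obtain ⟨K, a1, a2, a3, a4, a5⟩ := h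
  obtain ⟨L, b1, b2, b3, b4, b5⟩ := h'
  exact ⟨K ∪ L, union_subset a1 b1, ⟨a2.1.union b2.1, a2.2.union ⟨y, a4, b3⟩ b2.2⟩, Or.inl a3,
    Or.inr b4, fun h => h.elim a5 b5⟩

theorem Jn.refl {X : Type*} [TopologicalSpace X] {Y : Set X} {w x : X} (hx : x ∈ Y) (hxw : x ≠ w) :
    Jn Y w x x :=
  ⟨{x}, singleton_subset_iff.2 hx, ⟨isCompact_singleton, isConnected_singleton⟩, rfl, rfl,
    fun h => hxw (mem_singleton_iff.1 h).symm⟩

private theorem jn_mem {X : Type*} [TopologicalSpace X] {Y : Set X} {w x z : X} (h : Jn Y w x z) :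
    z ∈ Y ∧ z ≠ w := by
  obtain ⟨K, h1, -, -, h4, h5⟩ := h
  exact ⟨h1 h4, fun h => h5 (h ▸ h4)⟩

private theorem jn_near {X : Type*} [MetricSpace X] [CompactSpace X] {Y : Set X} (hY : IsCont Y)
    (hlc : LCk Y) {w z : X} (hz : z ∈ Y) (hzw : z ≠ w) :
    ∃ δ > 0, ∀ z' ∈ Y, dist z' z < δ → Jn Y w z z' := by
  have hd : 0 < dist z w := dist_pos.2 hzw
  obtain ⟨V, hV1, hV2, hV3, δ, hδ, hV4⟩ := hlc z hz (dist z w / 2) (half_pos hd)
  refine ⟨δ, hδ, fun z' hz' hd' => ⟨closure V, ?_, ⟨isClosed_closure.isCompact, ?_⟩,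
    subset_closure hV3, subset_closure (hV4 ⟨hz', hd'⟩), ?_⟩⟩
  · exact closure_minimal (fun y hy => (hV1 hy).1) hY.1.isClosed
  · exact ⟨⟨z, subset_closure hV3⟩, hV2.closure⟩
  · intro hw
    have h1 : closure V ⊆ Metric.closedBall z (dist z w / 2) :=
      closure_minimal (fun y hy => Metric.ball_subset_closedBall (hV1 hy).2) Metric.isClosed_closedBall
    have h2 := Metric.mem_closedBall.1 (h1 hw)
    rw [dist_comm] at h2
    linarith

theorem reach {X : Type*} [MetricSpace X] [CompactSpace X] {Y : Set X} (hY : IsCont Y) (hlc : LCk Y)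
    {w x : X} (hw : w ∈ Y) (hx : x ∈ Y) (hxw : x ≠ w) :
    ∃ K ⊆ Y, IsCont K ∧ x ∈ K ∧ w ∈ K ∧ ∀ z ∈ K, z ≠ w → Jn Y w x z := by
  have hYc : IsClosed Y := hY.1.isClosed
  have hxO : x ∈ {z | Jn Y w x z} := Jn.refl hx hxw
  have hOY : {z | Jn Y w x z} ⊆ Y := fun z hz => (jn_mem hz).1
  have hcl : ∀ z ∈ closure {z | Jn Y w x z}, z ≠ w → Jn Y w x z := by
    intro z hz hzw
    have hzY : z ∈ Y := closure_minimal hOY hYc hz
    obtain ⟨δ, hδ, h1⟩ := jn_near hY hlc hzY hzw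
    obtain ⟨z', hz', hd⟩ := Metric.mem_closure_iff.1 hz δ hδ
    rw [dist_comm] at hd
    exact Jn.trans hz' (h1 z' (hOY hz') hd).symm
  have hwc : w ∈ closure {z | Jn Y w x z} := by
    by_contra hwn
    have hOc : IsClosed {z | Jn Y w x z} := by
      refine isClosed_of_closure_subset fun z hz => hcl z hz ?_
      rintro rfl
      exact hwn hz
    have hCc : IsClosed (Y \ {z | Jn Y w x z}) := by
      refine isClosed_of_closure_subset fun z hz => ?_
      have hzY : z ∈ Y := closure_minimal sdiff_subset hYc hz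
      refine ⟨hzY, fun hzO => ?_⟩
      obtain ⟨δ, hδ, h1⟩ := jn_near hY hlc hzY (jn_mem hzO).2
      obtain ⟨z', hz', hd⟩ := Metric.mem_closure_iff.1 hz δ hδ
      rw [dist_comm] at hd
      exact hz'.2 (Jn.trans hzO (h1 z' hz'.1 hd))
    have h2 := isPreconnected_closed_iff.1 hY.2.2 _ _ hOc hCc
      (fun z hz => (em (z ∈ {z | Jn Y w x z})).imp id fun h => ⟨hz, h⟩) ⟨x, hx, hxO⟩
      ⟨w, hw, hw, fun h => (jn_mem h).2 rfl⟩
    obtain ⟨z, -, hz1, hz2⟩ := h2
    exact hz2.2 hz1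
  have hOp : IsPreconnected {z | Jn Y w x z} := by
    refine isPreconnected_of_forall x fun z hz => ?_
    obtain ⟨K, h1, h2, h3, h4, h5⟩ := hz
    exact ⟨K, fun y hy => ⟨K, h1, h2, h3, hy, h5⟩, h3, h4, h2.2.2⟩
  refine ⟨closure {z | Jn Y w x z}, closure_minimal hOY hYc, ⟨isClosed_closure.isCompact, ⟨x,
    subset_closure hxO⟩, hOp.closure⟩, subset_closure hxO, hwc, hcl⟩

theorem sides_not {X : Type*} [MetricSpace X] {Y : Set X} {y0 y1 : X} (hY : Irr Y y0 y1) {w x : X}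
    (hw : w ∈ Y) (h0 : Jn Y w y0 x) (h1 : Jn Y w x y1) : False := by
  obtain ⟨K, a1, a2, a3, a4, a5⟩ := h0.trans h1
  rw [hY.min K a1 a2 a3 a4] at a5
  exact a5 hw

theorem sides_or {X : Type*} [MetricSpace X] [CompactSpace X] {Y : Set X} {y0 y1 : X} (hY : Irr Y y0 y1)
    (hlc : LCk Y) {w x : X} (hw : w ∈ Y) (hx : x ∈ Y) (hxw : x ≠ w) (h0 : w ≠ y0) (h1 : w ≠ y1) :
    Jn Y w y0 x ∨ Jn Y w x y1 := by
  obtain ⟨K, a1, a2, a3, a4, a5⟩ := reach hY.cont hlc hw hY.left h0.symm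
  obtain ⟨L, b1, b2, b3, b4, b5⟩ := reach hY.cont hlc hw hY.right h1.symm
  have h2 : K ∪ L = Y := hY.min _ (union_subset a1 b1)
    ⟨a2.1.union b2.1, a2.2.union ⟨w, a4, b4⟩ b2.2⟩ (Or.inl a3) (Or.inr b3)
  rw [← h2] at hx
  rcases hx with hx | hx
  · exact Or.inl (a5 x hx hxw)
  · exact Or.inr (b5 x hx hxw).symm

end Pool.Agent.Work.MP_e7996b_gt.CH
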