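import Pool.Agent.Work.MP_e7996b_gt.CH.Defs

/-!
# CH/TSep (size M): separation around the component of the fibre

`Φ = (B ×ˢ univ) ∩ F⁻¹{w}` is compact, `Zc F B w a` is the component of `(w, a)` in it.
PROOF.  `split` (TN/Gate) for `Y := Φ`, `E0 = {(w, a)}`, `E1 = Φ ∩ S`: a closed connected `Q ⊆ Φ` containing `(w, a)` is contained in `Zc F B w a` (`IsPreconnected.subset_connectedComponentIn`), which misses `S`.  So `Φ = Y0 ∪ Y1`, disjoint closed, `(w, a) ∈ Y0`, `Φ ∩ S ⊆ Y1`, so `Y0 ∩ S = ∅`.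
`Y1 ∩ (B ×ˢ {a}) = ∅` because `(y, a) ∈ Φ` gives `y = F (y, a) = w`, `(w, a) ∈ Y0`.  Disjoint open sets `V0 ⊇ Y0`, `V1 ⊇ Y1` (`SeparatedNhds`, compact sets in a Hausdorff space); put `VP = V0 \ S`, `VQ = V1 \ (B ×ˢ {a})` (`B ×ˢ {a}` is closed).
`D = (B ×ˢ univ) \ (VP ∪ VQ)` is compact and misses `Φ`, so `F '' D` is compact (closed) and `w ∉ F '' D`; `U = (F '' D)ᶜ`.
-/

set_option autoImplicit false
set_option linter.unusedSectionVars false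

namespace Pool.Agent.Work.MP_e7996b_gt.CH

open Set Topology Filter TN

theorem exists_sep_nhds {X P : Type*} [MetricSpace X] [CompactSpace X] [TopologicalSpace P] [CompactSpace P]
    [T2Space P] {F : X × P → X} (hF : Continuous F) {a : P} (ha : ∀ x, F (x, a) = x) {B : Set X}
    (hB : IsCont B) {w : X} (hw : w ∈ B) {S : Set (X × P)} (hS : IsClosed S) (hd : Disjoint (Zc F B w a) S) :
    ∃ (VP VQ : Set (X × P)) (U : Set X), IsOpen VP ∧ IsOpen VQ ∧ Disjoint VP VQ ∧ Disjoint VP S ∧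
      (∀ y ∈ B, (y, a) ∉ VQ) ∧ IsOpen U ∧ w ∈ U ∧ (B ×ˢ (univ : Set P)) ∩ F ⁻¹' U ⊆ VP ∪ VQ := by
  have hBU : IsCompact (B ×ˢ (univ : Set P)) := hB.1.prod isCompact_univ
  have hΦ : IsCompact ((B ×ˢ (univ : Set P)) ∩ F ⁻¹' {w}) :=
    hBU.inter_right (isClosed_singleton.preimage hF)
  have hmem : (w, a) ∈ (B ×ˢ (univ : Set P)) ∩ F ⁻¹' {w} := ⟨⟨hw, mem_univ _⟩, ha w⟩
  obtain ⟨Y0, Y1, hY0, hY1, hdis, hun, hE0, hE1⟩ := split (E0 := {((w, a) : X × P)})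
    (E1 := ((B ×ˢ (univ : Set P)) ∩ F ⁻¹' {w}) ∩ S) hΦ isClosed_singleton (hΦ.isClosed.inter hS)
    (singleton_subset_iff.2 hmem) inter_subset_left (by
      rintro Q hQsub hQcl hQcon ⟨x, hxQ, hx⟩ ⟨y, hyQ, hy⟩
      rw [mem_singleton_iff] at hx
      subst hx
      have h1 : Q ⊆ Zc F B w a := hQcon.isPreconnected.subset_connectedComponentIn hxQ hQsub
      exact Set.disjoint_left.1 hd (h1 hyQ) hy.2)
  have hY0c : IsCompact Y0 := hΦ.of_isClosed_subset hY0 (by rw [← hun]; exact subset_union_left)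
  have hY1c : IsCompact Y1 := hΦ.of_isClosed_subset hY1 (by rw [← hun]; exact subset_union_right)
  obtain ⟨V0, V1, hV0, hV1, hYV0, hYV1, hVd⟩ := SeparatedNhds.of_isCompact_isCompact hY0c hY1c hdis
  have hBa : IsClosed {z : X × P | z.1 ∈ B ∧ z.2 = a} :=
    (hB.1.isClosed.preimage continuous_fst).inter (isClosed_eq continuous_snd continuous_const)
  have hD : IsCompact ((B ×ˢ (univ : Set P)) \ ((V0 \ S) ∪ (V1 \ {z : X × P | z.1 ∈ B ∧ z.2 = a}))) :=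
    hBU.diff ((hV0.sdiff hS).union (hV1.sdiff hBa))
  refine ⟨V0 \ S, V1 \ {z : X × P | z.1 ∈ B ∧ z.2 = a},
    (F '' ((B ×ˢ (univ : Set P)) \ ((V0 \ S) ∪ (V1 \ {z : X × P | z.1 ∈ B ∧ z.2 = a}))))ᶜ, hV0.sdiff hS,
    hV1.sdiff hBa, ?_, ?_, ?_, ?_, ?_, ?_⟩
  · exact hVd.mono diff_subset diff_subset
  · rw [Set.disjoint_left]
    exact fun z hz => hz.2
  · intro y hy h
    exact h.2 ⟨hy, rfl⟩
  · exact (hD.image hF).isClosed.isOpen_compl
  · rintro ⟨z, ⟨hzB, hzV⟩, hzw⟩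
    have hzΦ : z ∈ Y0 ∪ Y1 := by
      rw [hun]
      exact ⟨hzB, hzw⟩
    apply hzV
    rcases hzΦ with h | h
    · refine Or.inl ⟨hYV0 h, fun hzS => ?_⟩
      exact Set.disjoint_left.1 hdis h (hE1 ⟨⟨hzB, hzw⟩, hzS⟩)
    · refine Or.inr ⟨hYV1 h, ?_⟩
      rintro ⟨-, hz2⟩
      obtain ⟨y, c⟩ := z
      change c = a at hz2
      subst hz2
      change F (y, c) = w at hzw
      rw [ha y] at hzw
      subst hzw
      exact Set.disjoint_left.1 hdis (hE0 rfl) h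
  · rintro z ⟨hzB, hzU⟩
    by_contra hzV
    exact hzU ⟨z, ⟨hzB, hzV⟩, rfl⟩

end Pool.Agent.Work.MP_e7996b_gt.CH
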