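import Pool.Agent.Work.MP_e7996b_gt.CH.Defs

/-!
# CH/TTheta (size M): the glued circle-valued function

PROOF.  `Θ z = exp (iπ κ (F z))` for `z ∈ VP`, `Θ z = -1` for `z ∉ VP` (`open scoped Classical`).  Continuity on `B ×ˢ univ`: at a point `z ∈ VP` (open) it is the first formula in a neighbourhood.  At a point `z ∉ VP`, `z ∈ B ×ˢ univ`: if `z ∈ VQ` then `Θ = -1` near `z` (`VQ` is open, disjoint from `VP`);
otherwise `z ∉ VP ∪ VQ`, so `F z ∉ U`, `κ (F z) = ± 1`, `exp (iπ κ (F z)) = -1`, and `Θ` is near `z` one of the two continuous functions `exp (iπ κ ∘ F)`, `-1`, both with value `-1` at `z` (`Tendsto.if`/`ContinuousWithinAt` by an `ε` argument, or `ContinuousOn.piecewise` / `ContinuousOn.if` with the frontier condition: a frontier point of `VP` is not in `VP` and not in `VQ`).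
The other claims: `Θ ≠ 0` clear.  For `y ∈ B`: if `(y, a) ∉ VP` then `(y, a) ∉ VQ` either, so `y = F (y, a) ∉ U` and `κ y = ± 1`: `exp (iπ κ y) = -1`.
-/

set_option autoImplicit false
set_option linter.unusedSectionVars false

namespace Pool.Agent.Work.MP_e7996b_gt.CH

open Set Topology Filter TN

theorem exists_theta {X P : Type*} [TopologicalSpace X] [TopologicalSpace P] {F : X × P → X}
    (hF : Continuous F) {a : P} (ha : ∀ x, F (x, a) = x) {B : Set X} {VP VQ : Set (X × P)} {U : Set X}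
    (hVP : IsOpen VP) (hVQ : IsOpen VQ) (hd : Disjoint VP VQ) (haQ : ∀ y ∈ B, (y, a) ∉ VQ)
    (hU : (B ×ˢ (univ : Set P)) ∩ F ⁻¹' U ⊆ VP ∪ VQ) {κ : X → ℝ} (hκ : Continuous κ)
    (hκ1 : ∀ x, x ∉ U → κ x = -1 ∨ κ x = 1) :
    ∃ Θ : X × P → ℂ, ContinuousOn Θ (B ×ˢ (univ : Set P)) ∧ (∀ z, Θ z ≠ 0) ∧ (∀ z, z ∉ VP → Θ z = -1) ∧
      ∀ y ∈ B, Θ (y, a) = Complex.exp (Real.pi * Complex.I * κ y) := by
  classical
  obtain ⟨f, hf⟩ : ∃ f : X × P → ℂ, f = fun z => Complex.exp (Real.pi * Complex.I * κ (F z)) := ⟨_, rfl⟩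
  have hfc : Continuous f := by
    rw [hf]
    exact Complex.continuous_exp.comp (continuous_const.mul (Complex.continuous_ofReal.comp (hκ.comp hF)))
  have hval : ∀ t : ℝ, (t = -1 ∨ t = 1) → Complex.exp (Real.pi * Complex.I * t) = -1 := by
    rintro t (rfl | rfl)
    · have e : (Real.pi * Complex.I * ((-1 : ℝ) : ℂ)) = -(Real.pi * Complex.I) := by
        push_cast
        ring
      rw [e, Complex.exp_neg, Complex.exp_pi_mul_I]
      norm_num
    · have e : (Real.pi * Complex.I * ((1 : ℝ) : ℂ)) = Real.pi * Complex.I := by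
        push_cast
        ring
      rw [e, Complex.exp_pi_mul_I]
  have hfU : ∀ z ∈ B ×ˢ (univ : Set P), z ∉ VP → z ∉ VQ → f z = -1 := by
    intro z hz h1 h2
    rw [hf]
    refine hval _ (hκ1 _ fun hzU => ?_)
    rcases hU ⟨hz, hzU⟩ with h | h
    · exact h1 h
    · exact h2 h
  obtain ⟨Θ, hΘ⟩ : ∃ Θ : X × P → ℂ, Θ = fun z => if z ∈ VP then f z else -1 := ⟨_, rfl⟩
  have hΘP : ∀ z, z ∈ VP → Θ z = f z := by
    intro z hz
    rw [hΘ]
    change (if z ∈ VP then f z else -1) = f z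
    rw [if_pos hz]
  have hΘN : ∀ z, z ∉ VP → Θ z = -1 := by
    intro z hz
    rw [hΘ]
    change (if z ∈ VP then f z else -1) = -1
    rw [if_neg hz]
  refine ⟨Θ, ?_, ?_, hΘN, ?_⟩
  · intro z hz
    apply ContinuousAt.continuousWithinAt
    by_cases hzP : z ∈ VP
    · refine hfc.continuousAt.congr ?_
      filter_upwards [hVP.mem_nhds hzP] with z' hz'
      exact (hΘP z' hz').symm
    · by_cases hzQ : z ∈ VQ
      · refine (continuousAt_const (y := (-1 : ℂ))).congr ?_
        filter_upwards [hVQ.mem_nhds hzQ] with z' hz'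
        exact (hΘN z' fun h => Set.disjoint_left.1 hd h hz').symm
      · have h1 : f z = -1 := hfU z hz hzP hzQ
        have h2 : Θ z = -1 := hΘN z hzP
        intro W hW
        rw [h2, ← h1] at hW
        have h3 : f ⁻¹' W ∈ 𝓝 z := hfc.continuousAt (x := z) hW
        rw [h1] at hW
        show Θ ⁻¹' W ∈ 𝓝 z
        filter_upwards [h3] with z' hz'
        show Θ z' ∈ W
        by_cases hz'P : z' ∈ VP
        · rw [hΘP z' hz'P]
          exact hz'
        · rw [hΘN z' hz'P]
          exact mem_of_mem_nhds hW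
  · intro z
    by_cases hzP : z ∈ VP
    · rw [hΘP z hzP, hf]
      exact Complex.exp_ne_zero _
    · rw [hΘN z hzP]
      norm_num
  · intro y hy
    by_cases hzP : (y, a) ∈ VP
    · rw [hΘP _ hzP, hf]
      show Complex.exp (Real.pi * Complex.I * κ (F (y, a))) = _
      rw [ha y]
    · rw [hΘN _ hzP]
      have h1 := hfU (y, a) ⟨hy, mem_univ _⟩ hzP (haQ y hy)
      rw [hf] at h1
      change Complex.exp (Real.pi * Complex.I * κ (F (y, a))) = -1 at h1
      rw [ha y] at h1
      exact h1.symm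

end Pool.Agent.Work.MP_e7996b_gt.CH
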