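import Pool.Agent.Work.MP_e7996b_gt.CH.Incr
import Pool.Agent.Work.MP_e7996b_gt.CH.TSep
import Pool.Agent.Work.MP_e7996b_gt.CH.TTheta

/-!
# CH/TLem (size M): the T-lemma

PROOF.  Suppose `Z = Zc F B w a` misses `{b0} × P`, `{b1} × P` and, for some `c0`, the slice `X × {c0}`.  `S = ({b0} ×ˢ univ) ∪ ({b1} ×ˢ univ) ∪ (univ ×ˢ {c0})`, closed, disjoint from `Z`.  `exists_sep_nhds` gives `VP`, `VQ`, `U`; `hsep U` gives `κ`; `exists_theta` gives `Θ`.
`Θ = -1` on `S` (disjoint from `VP`).  `ga y = π i κ y` is a logarithm of `Θ (·, a)` on `B`, `gb y = π i` (constant) one of `Θ (·, c0) = -1`.  `incr_eq`: `π i (κ b1 - κ b0) = 0`, but `κ b1 - κ b0 = 2`.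
-/

set_option autoImplicit false
set_option linter.unusedSectionVars false

namespace Pool.Agent.Work.MP_e7996b_gt.CH

open Set Topology Filter TN

theorem tlemma {X P : Type*} [MetricSpace X] [CompactSpace X] [TopologicalSpace P] [CompactSpace P] [T2Space P]
    [PreconnectedSpace P] {F : X × P → X} (hF : Continuous F) {a : P} (ha : ∀ x, F (x, a) = x) {B : Set X}
    (hB : IsCont B) {w b0 b1 : X} (hw : w ∈ B) (h0 : b0 ∈ B) (h1 : b1 ∈ B) (hsep : Sep w b0 b1) :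
    (∃ c, (b0, c) ∈ Zc F B w a) ∨ (∃ c, (b1, c) ∈ Zc F B w a) ∨ ∀ c, ∃ y, (y, c) ∈ Zc F B w a := by
  by_contra hcon
  rw [not_or, not_or] at hcon
  obtain ⟨n0, n1, n2⟩ := hcon
  obtain ⟨c0, hc0⟩ := not_forall.1 n2
  obtain ⟨S, hSdef⟩ : ∃ S : Set (X × P), S = {z | z.1 = b0} ∪ {z | z.1 = b1} ∪ {z | z.2 = c0} := ⟨_, rfl⟩
  have hS : IsClosed S := by
    rw [hSdef]
    exact ((isClosed_eq continuous_fst continuous_const).union (isClosed_eq continuous_fst continuous_const)).union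
      (isClosed_eq continuous_snd continuous_const)
  have hd : Disjoint (Zc F B w a) S := by
    rw [Set.disjoint_left]
    rintro ⟨y, c⟩ hz hzS
    rw [hSdef] at hzS
    rcases hzS with (hz1 | hz1) | hz1
    · change y = b0 at hz1
      subst hz1
      exact n0 ⟨c, hz⟩
    · change y = b1 at hz1
      subst hz1
      exact n1 ⟨c, hz⟩
    · change c = c0 at hz1
      subst hz1
      exact hc0 ⟨y, hz⟩
  obtain ⟨VP, VQ, U, hVP, hVQ, hPQ, hPS, haQ, hU, hwU, hcov⟩ := exists_sep_nhds hF ha hB hw hS hd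
  obtain ⟨κ, hκ, hκ1, hκb0, hκb1⟩ := hsep U hU hwU
  obtain ⟨Θ, hΘ, hΘ0, hΘ1, hΘ2⟩ := exists_theta hF ha hVP hVQ hPQ haQ hcov hκ hκ1
  have hS1 : ∀ z ∈ S, Θ z = -1 := fun z hz => hΘ1 z (fun hzP => Set.disjoint_left.1 hPS hzP hz)
  have e0 : ∀ c, Θ (b0, c) = -1 := fun c => hS1 _ (by rw [hSdef]; exact Or.inl (Or.inl rfl))
  have e1 : ∀ c, Θ (b1, c) = -1 := fun c => hS1 _ (by rw [hSdef]; exact Or.inl (Or.inr rfl))
  have e2 : ∀ y, Θ (y, c0) = -1 := fun y => hS1 _ (by rw [hSdef]; exact Or.inr rfl)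
  have hlin : Continuous (fun y : X => (Real.pi : ℂ) * Complex.I * ((κ y : ℝ) : ℂ)) :=
    continuous_const.mul (Complex.continuous_ofReal.comp hκ)
  have key := incr_eq (a := a) (b := c0) (ga := fun y : X => (Real.pi : ℂ) * Complex.I * ((κ y : ℝ) : ℂ))
    (gb := fun _ : X => (Real.pi : ℂ) * Complex.I) hB hΘ (fun z _ => hΘ0 z) h0 h1 e0 e1 hlin.continuousOn
    (fun y hy => hΘ2 y hy) continuousOn_const (fun y _ => by rw [e2 y, Complex.exp_pi_mul_I])
  rw [hκb0, hκb1] at key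
  have h3 : (Real.pi : ℂ) * Complex.I ≠ 0 := by
    simp [Real.pi_ne_zero, Complex.I_ne_zero]
  apply h3
  have h4 : (2 : ℂ) * ((Real.pi : ℂ) * Complex.I) = 0 := by
    push_cast at key
    linear_combination key
  rcases mul_eq_zero.1 h4 with h5 | h5
  · norm_num at h5
  · exact h5

end Pool.Agent.Work.MP_e7996b_gt.CH
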